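import Mathlib

set_option autoImplicit false

/-!
# Real bases: integrals of functions with values in the unit interval
-/

namespace Run7.h93.GP

open Finset Filter Topology MeasureTheory

/-- measurable functions with values in the unit interval -/
structure Un (f : ℝ → ℝ) : Prop where
  m : Measurable f
  n : ∀ x, 0 ≤ f x
  o : ∀ x, f x ≤ 1

lemma Un.ii {f : ℝ → ℝ} (h : Un f) (a b : ℝ) : IntervalIntegrable f volume a b := by
  rw [intervalIntegrable_iff]
  exact Measure.integrableOn_of_bounded (M := 1) (by simp) h.m.aestronglyMeasurable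
    (Eventually.of_forall fun x => by
      rw [Real.norm_eq_abs, abs_of_nonneg (h.n x)]; exact h.o x)

lemma Un.mul {f g : ℝ → ℝ} (hf : Un f) (hg : Un g) : Un (fun x => f x * g x) where
  m := hf.m.mul hg.m
  n := fun x => mul_nonneg (hf.n x) (hg.n x)
  o := fun x => mul_le_one₀ (hf.o x) (hg.n x) (hg.o x)

lemma Un.compl {f : ℝ → ℝ} (hf : Un f) {s : ℝ} (h0 : 0 ≤ s) (h1 : s ≤ 1) :
    Un (fun x => 1 - s * f x) where
  m := measurable_const.sub (hf.m.const_mul s)
  n := fun x => by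
    have := mul_le_one₀ h1 (hf.n x) (hf.o x)
    linarith
  o := fun x => by
    have := mul_nonneg h0 (hf.n x)
    linarith

lemma Un.prod {ι : Type*} (s : Finset ι) {f : ι → ℝ → ℝ} (hf : ∀ i ∈ s, Un (f i)) :
    Un (fun x => ∏ i ∈ s, f i x) where
  m := Finset.measurable_fun_prod s fun i hi => (hf i hi).m
  n := fun x => Finset.prod_nonneg fun i hi => (hf i hi).n x
  o := fun x => Finset.prod_le_one (fun i hi => (hf i hi).n x) fun i hi => (hf i hi).o x

lemma Un.int_nonneg {f : ℝ → ℝ} (h : Un f) {a b : ℝ} (hab : a ≤ b) : 0 ≤ ∫ x in a..b, f x :=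
  intervalIntegral.integral_nonneg hab fun x _ => h.n x

lemma Un.int_le {f : ℝ → ℝ} (h : Un f) {a b : ℝ} (hab : a ≤ b) : ∫ x in a..b, f x ≤ b - a := by
  have h1 : ∫ x in a..b, f x ≤ ∫ _ in a..b, (1 : ℝ) :=
    intervalIntegral.integral_mono_on hab (h.ii a b) (by simp) fun x _ => h.o x
  simpa using h1

lemma Un.int_mono {f : ℝ → ℝ} (h : Un f) {a b c d : ℝ} (h1 : c ≤ a) (h2 : a ≤ b) (h3 : b ≤ d) :
    ∫ x in a..b, f x ≤ ∫ x in c..d, f x := by
  have e1 := intervalIntegral.integral_add_adjacent_intervals (h.ii c a) (h.ii a b)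
  have e2 := intervalIntegral.integral_add_adjacent_intervals (h.ii c b) (h.ii b d)
  have p1 := h.int_nonneg h1
  have p2 := h.int_nonneg h3
  linarith

/-- functions which agree outside a small set -/
lemma int_diff {f g : ℝ → ℝ} (hf : Un f) (hg : Un g) {a b δ : ℝ} (hab : a ≤ b) (hδ : 0 ≤ δ)
    {S : Set ℝ} (hS : MeasurableSet S) (hv : volume S ≤ ENNReal.ofReal δ)
    (h : ∀ x ∈ Set.Ioc a b, x ∉ S → f x = g x) :
    |(∫ x in a..b, f x) - ∫ x in a..b, g x| ≤ δ := by
  rw [← intervalIntegral.integral_sub (hf.ii a b) (hg.ii a b)]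
  rw [intervalIntegral.integral_of_le hab]
  have h1 : |∫ x in Set.Ioc a b, (f x - g x)| ≤ ∫ x in Set.Ioc a b, S.indicator (fun _ => (1 : ℝ)) x := by
    rw [← Real.norm_eq_abs]
    refine norm_integral_le_of_norm_le ?_ ?_
    · exact (integrable_const (1 : ℝ)).indicator hS
    · refine (ae_restrict_iff' measurableSet_Ioc).2 (Eventually.of_forall fun x hx => ?_)
      rw [Real.norm_eq_abs]
      by_cases hxS : x ∈ S
      · rw [Set.indicator_of_mem hxS, abs_le]
        have := hf.n x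
        have := hf.o x
        have := hg.n x
        have := hg.o x
        constructor <;> linarith
      · rw [Set.indicator_of_notMem hxS, h x hx hxS, sub_self, abs_zero]
  refine h1.trans ?_
  rw [integral_indicator hS, setIntegral_const, smul_eq_mul, mul_one]
  have h2 : (volume.restrict (Set.Ioc a b)) S ≤ ENNReal.ofReal δ :=
    (Measure.restrict_apply_le _ _).trans hv
  calc (volume.restrict (Set.Ioc a b)).real S = ((volume.restrict (Set.Ioc a b)) S).toReal := rfl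
    _ ≤ (ENNReal.ofReal δ).toReal := ENNReal.toReal_mono ENNReal.ofReal_ne_top h2
    _ = δ := ENNReal.toReal_ofReal hδ

/-- the numbers near the fractions with the denominator `A` -/
def near (A ε a b : ℝ) : Set ℝ :=
  ⋃ N ∈ Finset.Icc (⌊a * A⌋ - 1) (⌈b * A⌉ + 1), Set.Icc (((N : ℤ) - ε) / A) (((N : ℤ) + ε) / A)

lemma near_meas (A ε a b : ℝ) : MeasurableSet (near A ε a b) :=
  Finset.measurableSet_biUnion _ fun _ _ => measurableSet_Icc

lemma near_vol {A ε a b : ℝ} (hA : 0 < A) (hε : 0 ≤ ε) (hab : a ≤ b) :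
    volume (near A ε a b) ≤ ENNReal.ofReal (((b - a) * A + 5) * (2 * ε / A)) := by
  have h0 : ⌊a * A⌋ ≤ ⌈b * A⌉ := by
    have h1 : a * A ≤ b * A := mul_le_mul_of_nonneg_right hab hA.le
    have h2 := Int.floor_le (a * A)
    have h3 := Int.le_ceil (b * A)
    exact_mod_cast (h2.trans (h1.trans h3))
  have hcard : ((Finset.Icc (⌊a * A⌋ - 1) (⌈b * A⌉ + 1)).card : ℝ) ≤ (b - a) * A + 5 := by
    rw [Int.card_Icc]
    have h1 : (((⌈b * A⌉ + 1 + 1 - (⌊a * A⌋ - 1)).toNat : ℕ) : ℝ) =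
        ((⌈b * A⌉ + 1 + 1 - (⌊a * A⌋ - 1) : ℤ) : ℝ) := by
      have : (((⌈b * A⌉ + 1 + 1 - (⌊a * A⌋ - 1)).toNat : ℕ) : ℤ) =
        (⌈b * A⌉ + 1 + 1 - (⌊a * A⌋ - 1) : ℤ) := Int.toNat_of_nonneg (by omega)
      exact_mod_cast this
    rw [h1]
    push_cast
    have h2 := Int.lt_floor_add_one (a * A)
    have h3 := Int.ceil_lt_add_one (b * A)
    nlinarith
  calc volume (near A ε a b) ≤ ∑ N ∈ Finset.Icc (⌊a * A⌋ - 1) (⌈b * A⌉ + 1),
        volume (Set.Icc (((N : ℤ) - ε) / A) (((N : ℤ) + ε) / A)) := measure_biUnion_finset_le _ _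
    _ = ∑ N ∈ Finset.Icc (⌊a * A⌋ - 1) (⌈b * A⌉ + 1), ENNReal.ofReal (2 * ε / A) := by
        refine Finset.sum_congr rfl fun N _ => ?_
        rw [Real.volume_Icc]
        congr 1
        ring
    _ = ENNReal.ofReal (((Finset.Icc (⌊a * A⌋ - 1) (⌈b * A⌉ + 1)).card : ℝ) * (2 * ε / A)) := by
        rw [Finset.sum_const, nsmul_eq_mul, ENNReal.ofReal_mul (Nat.cast_nonneg _),
          ENNReal.ofReal_natCast]
    _ ≤ _ := ENNReal.ofReal_le_ofReal (mul_le_mul_of_nonneg_right hcard (by positivity))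

lemma mem_near {A ε a b x : ℝ} (hA : 0 < A) (hε : ε ≤ 1) (hx : x ∈ Set.Ioc a b) {N : ℤ}
    (h : |x * A - N| ≤ ε) : x ∈ near A ε a b := by
  rw [abs_le] at h
  unfold near
  rw [Set.mem_iUnion₂]
  refine ⟨N, ?_, ?_⟩
  · rw [Finset.mem_Icc]
    have h1 : a * A ≤ x * A := mul_le_mul_of_nonneg_right hx.1.le hA.le
    have h2 : x * A ≤ b * A := mul_le_mul_of_nonneg_right hx.2 hA.le
    have h3 := Int.floor_le (a * A)
    have h4 := Int.le_ceil (b * A)
    constructor
    · have : ((⌊a * A⌋ - 1 : ℤ) : ℝ) ≤ N := by push_cast; linarith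
      exact_mod_cast this
    · have : (N : ℝ) ≤ ((⌈b * A⌉ + 1 : ℤ) : ℝ) := by push_cast; linarith
      exact_mod_cast this
  · rw [Set.mem_Icc, div_le_iff₀ hA, le_div_iff₀ hA]
    constructor <;> linarith

/-- a function on a cell -/
lemma cell_const {A : ℝ} (hA : 0 < A) (f : ℕ → ℝ) (H : ℝ → ℝ) (M : ℕ) :
    ∫ x in ((M : ℝ) / A)..(((M : ℝ) + 1) / A), f ⌊x * A⌋₊ * H x =
      f M * ∫ x in ((M : ℝ) / A)..(((M : ℝ) + 1) / A), H x := by
  have hle : (M : ℝ) / A ≤ ((M : ℝ) + 1) / A := by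
    rw [div_le_div_iff_of_pos_right hA]; linarith
  rw [intervalIntegral.integral_of_le hle, intervalIntegral.integral_of_le hle,
    integral_Ioc_eq_integral_Ioo, integral_Ioc_eq_integral_Ioo, ← integral_const_mul]
  apply setIntegral_congr_fun measurableSet_Ioo
  intro x hx
  have h1 : (M : ℝ) < x * A := (div_lt_iff₀ hA).1 hx.1
  have h2 : x * A < (M : ℝ) + 1 := (lt_div_iff₀ hA).1 hx.2
  have h3 : ⌊x * A⌋₊ = M := (Nat.floor_eq_iff (le_trans (Nat.cast_nonneg M) h1.le)).2 ⟨h1.le, h2⟩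
  simp only [h3]

end Run7.h93.GP
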