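import Mathlib
import Pool.Agent.Run7.h93.GP.Bas

set_option autoImplicit false

/-!
# Events of the digits in a real base: the three inputs
-/

namespace Run7.h93.GP

open Finset Filter Topology MeasureTheory

/-- the weight of an exponent -/
noncomputable def lw (q : ℕ) : ℝ := Real.log q / q

lemma lw_nonneg (q : ℕ) : 0 ≤ lw q := div_nonneg (Real.log_natCast_nonneg q) (Nat.cast_nonneg q)

/-- the event of the integer part of `x` -/
noncomputable def hh (χ : ℕ → ℕ → ℝ) (p : ℕ) (x : ℝ) : ℝ := χ p ⌊x⌋₊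

/-- the event of the exponent `p` -/
noncomputable def G (α : ℝ) (χ : ℕ → ℕ → ℝ) (p : ℕ) (β : ℝ) : ℝ := χ p ⌊β * α ^ p⌋₊

/-- the inputs -/
structure Sys (α κ : ℝ) (χ : ℕ → ℕ → ℝ) : Prop where
  ha : 1 < α
  hk : 0 ≤ κ
  c0 : ∀ p n, 0 ≤ χ p n
  c1 : ∀ p n, χ p n ≤ 1
  up : ∀ c : ℝ, 0 < c → ∃ C : ℝ, 0 < C ∧ ∃ P : ℕ, ∀ q ≥ P, ∀ H : ℕ, Real.exp (c * q) ≤ H →
    ∀ u : ℕ, ∑ n ∈ Ico u (u + H), χ q n ≤ C * lw q * H
  fm : ∃ κ0 : ℝ, 0 < κ0 ∧ κ0 ≤ 1 / 2 ∧ ∀ m0 : ℕ, ∃ C : ℝ, 0 < C ∧ ∃ P : ℕ, ∀ q ≥ P, ∀ z : ℕ,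
    m0 ≤ z → (z : ℝ) ≤ κ0 * q → ∑ j ∈ Ico ⌊α ^ (z - m0)⌋₊ ⌈α ^ (z + m0)⌉₊,
      |(∫ x in ((j : ℝ) / α ^ z)..(((j : ℝ) + 1) / α ^ z), G α χ q x) - κ * lw q / α ^ z| ≤ C / q
  pc : ∀ u v : ℝ, 0 < u → u < v → ∃ C : ℝ, 0 < C ∧ ∃ P : ℕ, ∀ p ≥ P, ∀ q, p < q →
    q ≤ 2 * (p - 1) → ∫ x in u..v, G α χ p x * G α χ q x ≤ C * (lw p * lw q)

variable {α κ : ℝ} {χ : ℕ → ℕ → ℝ}

/-- a function of the integer part -/
lemma un_floor {f : ℕ → ℝ} (h0 : ∀ n, 0 ≤ f n) (h1 : ∀ n, f n ≤ 1) (A : ℝ) :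
    Un (fun x : ℝ => f ⌊x * A⌋₊) where
  m := (measurable_from_nat (f := f)).comp (Nat.measurable_floor.comp (measurable_id.mul_const A))
  n := fun _ => h0 _
  o := fun _ => h1 _

lemma Sys.hU (h : Sys α κ χ) (p : ℕ) : Un (hh χ p) where
  m := (measurable_from_nat (f := χ p)).comp Nat.measurable_floor
  n := fun _ => h.c0 _ _
  o := fun _ => h.c1 _ _

lemma Sys.gU (h : Sys α κ χ) (p : ℕ) : Un (G α χ p) := un_floor (h.c0 p) (h.c1 p) _

/-- the integral over cells -/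
lemma cell_sum {A : ℝ} (hA : 0 < A) {f : ℕ → ℝ} (h0 : ∀ n, 0 ≤ f n) (h1 : ∀ n, f n ≤ 1)
    {H : ℝ → ℝ} (hH : Un H) {M0 M1 : ℕ} (hM : M0 ≤ M1) :
    ∫ x in ((M0 : ℝ) / A)..((M1 : ℝ) / A), f ⌊x * A⌋₊ * H x =
      ∑ M ∈ Ico M0 M1, f M * ∫ x in ((M : ℝ) / A)..(((M : ℝ) + 1) / A), H x := by
  have hU : Un (fun x => f ⌊x * A⌋₊ * H x) := (un_floor h0 h1 A).mul hH
  have h := intervalIntegral.sum_integral_adjacent_intervals_Ico (μ := volume)
    (f := fun x => f ⌊x * A⌋₊ * H x) (a := fun n : ℕ => (n : ℝ) / A)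
    (m := M0) (n := M1) hM (fun k _ => hU.ii _ _)
  rw [← h]
  refine Finset.sum_congr rfl fun M _ => ?_
  rw [← cell_const hA f H M]
  push_cast
  rfl

lemma Sys.int_hh (h : Sys α κ χ) (p : ℕ) {V0 V1 : ℕ} (hV : V0 ≤ V1) :
    ∫ x in (V0 : ℝ)..(V1 : ℝ), hh χ p x = ∑ n ∈ Ico V0 V1, χ p n := by
  have hone : Un (fun _ : ℝ => (1 : ℝ)) := ⟨measurable_const, fun _ => zero_le_one, fun _ => le_rfl⟩
  have h1 := cell_sum (A := 1) one_pos (h.c0 p) (h.c1 p) hone hV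
  simp only [div_one, mul_one, intervalIntegral.integral_const, smul_eq_mul] at h1
  unfold hh
  rw [h1]
  refine Finset.sum_congr rfl fun n _ => ?_
  ring

/-- the upper bound for integrals -/
lemma Sys.upG (h : Sys α κ χ) (c : ℝ) (hc : 0 < c) : ∃ C : ℝ, 0 < C ∧ ∃ P : ℕ, ∀ q ≥ P,
    ∀ a b : ℝ, 0 ≤ a → a ≤ b → Real.exp (c * q) ≤ (b - a) * α ^ q →
    ∫ x in a..b, G α χ q x ≤ C * lw q * (b - a) := by
  obtain ⟨C, hC, P, hP⟩ := h.up c hc
  refine ⟨3 * C, by positivity, P, fun q hq a b ha hab hexp => ?_⟩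
  have hα0 : 0 < α := zero_lt_one.trans h.ha
  have hA : 0 < α ^ q := by positivity
  have h1 : ∫ x in a..b, G α χ q x = (α ^ q)⁻¹ * ∫ x in (a * α ^ q)..(b * α ^ q), hh χ q x := by
    have := intervalIntegral.integral_comp_mul_right (a := a) (b := b) (fun x => hh χ q x) hA.ne'
    rw [smul_eq_mul] at this
    exact this
  set X := a * α ^ q with hX
  set Y := b * α ^ q with hY
  have hX0 : 0 ≤ X := by positivity
  have hXY : X ≤ Y := mul_le_mul_of_nonneg_right hab hA.le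
  have hYX : Y - X = (b - a) * α ^ q := by rw [hX, hY]; ring
  set H := ⌈Y - X⌉₊ + 1 with hH
  have hH1 : Y - X ≤ H := by
    rw [hH]; push_cast; linarith [Nat.le_ceil (Y - X)]
  have hH2 : (H : ℝ) ≤ Y - X + 2 := by
    rw [hH]; push_cast; linarith [Nat.ceil_lt_add_one (by linarith : 0 ≤ Y - X)]
  have h2 : ∫ x in X..Y, hh χ q x ≤ ∫ x in ((⌊X⌋₊ : ℕ) : ℝ)..((⌊X⌋₊ + H : ℕ) : ℝ), hh χ q x := by
    refine (h.hU q).int_mono (Nat.floor_le hX0) hXY ?_
    rw [hH]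
    push_cast
    have := Nat.lt_floor_add_one X
    have := Nat.le_ceil (Y - X)
    linarith
  rw [h.int_hh q (Nat.le_add_right _ _)] at h2
  have h3 := hP q hq H (by rw [← hYX] at hexp; linarith) ⌊X⌋₊
  have h4 : 1 ≤ Y - X := by
    rw [hYX]
    exact le_trans (Real.one_le_exp (by positivity)) hexp
  have h5 : C * lw q * H ≤ C * lw q * (3 * (Y - X)) :=
    mul_le_mul_of_nonneg_left (by linarith) (mul_nonneg hC.le (lw_nonneg q))
  rw [h1]
  calc (α ^ q)⁻¹ * ∫ x in X..Y, hh χ q x ≤ (α ^ q)⁻¹ * (C * lw q * (3 * (Y - X))) :=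
        mul_le_mul_of_nonneg_left (h2.trans (h3.trans h5)) (by positivity)
    _ = 3 * C * lw q * (b - a) := by
        rw [hYX]; field_simp

lemma big_len (ha : 1 < α) {c d : ℝ} (hc : c < Real.log α) (hd : 0 < d) :
    ∃ P : ℕ, ∀ q ≥ P, Real.exp (c * q) ≤ d * α ^ q := by
  have hα0 : 0 < α := zero_lt_one.trans ha
  have h1 : Tendsto (fun q : ℕ => Real.exp ((Real.log α - c) * q)) atTop atTop := by
    refine Real.tendsto_exp_atTop.comp ?_
    exact Tendsto.const_mul_atTop (by linarith) tendsto_natCast_atTop_atTop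
  obtain ⟨P2, hP2⟩ := (h1.eventually_ge_atTop (1 / d)).exists_forall_of_atTop
  refine ⟨P2, fun q hq => ?_⟩
  have h2 := hP2 q hq
  rw [div_le_iff₀ hd] at h2
  have e : α ^ q = Real.exp (c * q) * Real.exp ((Real.log α - c) * q) := by
    rw [← Real.exp_add, ← Real.exp_log (pow_pos hα0 q), Real.log_pow]
    congr 1
    ring
  rw [e]
  have h3 := Real.exp_pos (c * q)
  nlinarith

/-- one exponent -/
lemma Sys.one (h : Sys α κ χ) {u v : ℝ} (hu : 0 < u) (huv : u < v) : ∃ C : ℝ, 0 < C ∧ ∃ P : ℕ,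
    ∀ q ≥ P, ∫ x in u..v, G α χ q x ≤ C * lw q := by
  have hL : 0 < Real.log α := Real.log_pos h.ha
  obtain ⟨C, hC, P, hP⟩ := h.upG (Real.log α / 2) (by positivity)
  have hα0 : 0 < α := zero_lt_one.trans h.ha
  obtain ⟨P2, hP2⟩ := big_len h.ha (c := Real.log α / 2) (by linarith) (sub_pos.2 huv)
  refine ⟨C * (v - u), mul_pos hC (by linarith), max P P2, fun q hq => ?_⟩
  have := hP q (le_trans (le_max_left _ _) hq) u v hu.le huv.le (hP2 q (le_trans (le_max_right _ _) hq))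
  linarith

/-- two exponents -/
lemma Sys.pair (h : Sys α κ χ) {u v : ℝ} (hu : 0 < u) (huv : u < v) : ∃ C : ℝ, 0 < C ∧ ∃ P : ℕ,
    ∀ p ≥ P, ∀ q, p < q → ∫ x in u..v, G α χ p x * G α χ q x ≤ C * (lw p * lw q) := by
  have hL : 0 < Real.log α := Real.log_pos h.ha
  have hα0 : 0 < α := zero_lt_one.trans h.ha
  obtain ⟨C1, hC1, P1, hP1⟩ := h.pc u v hu huv
  obtain ⟨C2, hC2, P2, hP2⟩ := h.upG (Real.log α / 4) (by positivity)
  obtain ⟨P3, hP3⟩ := big_len h.ha (c := Real.log α / 4) (by linarith) (sub_pos.2 huv)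
  refine ⟨C1 + C2 * (C2 * (v - u + 2)), by
    have : 0 < v - u + 2 := by linarith
    positivity, max (max P1 P2) (max P3 2), fun p hp q hpq => ?_⟩
  have hpP1 : P1 ≤ p := by omega
  have hpP2 : P2 ≤ p := by omega
  have hp2 : 2 ≤ p := by omega
  have hlp := lw_nonneg p
  have hlq := lw_nonneg q
  have hvu : 0 < v - u + 2 := by linarith
  rcases le_or_gt q (2 * (p - 1)) with hq | hq
  · refine (hP1 p hpP1 q hpq hq).trans ?_
    refine mul_le_mul_of_nonneg_right ?_ (mul_nonneg hlp hlq)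
    have : 0 < C2 * (C2 * (v - u + 2)) := by positivity
    linarith
  · -- far exponents
    set A := α ^ p with hA
    have hA0 : 0 < A := by rw [hA]; positivity
    have hA1 : 1 ≤ A := by rw [hA]; exact one_le_pow₀ h.ha.le
    set M0 := ⌊u * A⌋₊ with hM0
    set M1 := ⌊v * A⌋₊ + 1 with hM1
    have h1 : (M0 : ℝ) / A ≤ u := by
      rw [div_le_iff₀ hA0]; exact Nat.floor_le (by positivity)
    have h2 : v ≤ (M1 : ℝ) / A := by
      rw [le_div_iff₀ hA0, hM1]; push_cast; exact (Nat.lt_floor_add_one _).le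
    have h3 : M0 ≤ M1 := by
      rw [hM0, hM1]
      have : ⌊u * A⌋₊ ≤ ⌊v * A⌋₊ := Nat.floor_le_floor (mul_le_mul_of_nonneg_right huv.le hA0.le)
      omega
    have hGG : Un (fun x => G α χ p x * G α χ q x) := (h.gU p).mul (h.gU q)
    have h4 := hGG.int_mono h1 huv.le h2
    have h5 := cell_sum hA0 (h.c0 p) (h.c1 p) (h.gU q) h3
    have h6 : ∫ x in ((M0 : ℝ) / A)..((M1 : ℝ) / A), G α χ p x * G α χ q x =
        ∑ M ∈ Ico M0 M1, χ p M * ∫ x in ((M : ℝ) / A)..(((M : ℝ) + 1) / A), G α χ q x := h5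
    have hone : Un (fun _ : ℝ => (1 : ℝ)) :=
      ⟨measurable_const, fun _ => zero_le_one, fun _ => le_rfl⟩
    have h7 := cell_sum hA0 (h.c0 p) (h.c1 p) hone h3
    have h8 : ∫ x in ((M0 : ℝ) / A)..((M1 : ℝ) / A), G α χ p x = ∑ M ∈ Ico M0 M1, χ p M * A⁻¹ := by
      have e1 : ∫ x in ((M0 : ℝ) / A)..((M1 : ℝ) / A), G α χ p x =
          ∫ x in ((M0 : ℝ) / A)..((M1 : ℝ) / A), χ p ⌊x * A⌋₊ * 1 := by
        simp only [mul_one]
        rfl
      rw [e1, h7]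
      refine Finset.sum_congr rfl fun M _ => ?_
      rw [intervalIntegral.integral_const, smul_eq_mul, mul_one]
      congr 1
      field_simp
      ring
    -- the higher exponent
    have hq1 : (p : ℝ) ≤ ((q : ℝ) + 1) / 2 := by
      have : 2 * p ≤ q + 1 := by omega
      have : (2 : ℝ) * p ≤ q + 1 := by exact_mod_cast this
      linarith
    have hq2 : (2 : ℝ) ≤ q := by
      have : 2 ≤ q := by omega
      exact_mod_cast this
    have hcell : ∀ M : ℕ, ∫ x in ((M : ℝ) / A)..(((M : ℝ) + 1) / A), G α χ q x ≤ C2 * lw q * A⁻¹ := by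
      intro M
      have e2 : ((M : ℝ) + 1) / A - (M : ℝ) / A = A⁻¹ := by field_simp; ring
      have := hP2 q (by omega) ((M : ℝ) / A) (((M : ℝ) + 1) / A) (by positivity)
        (by rw [div_le_div_iff_of_pos_right hA0]; linarith) (by
          rw [e2]
          have e3 : A⁻¹ * α ^ q = α ^ (q - p) := by
            rw [hA, inv_mul_eq_div, div_eq_iff (by positivity), ← pow_add]
            congr 1
            omega
          rw [e3, ← Real.exp_log (pow_pos hα0 (q - p)), Real.exp_le_exp, Real.log_pow,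
            Nat.cast_sub hpq.le]
          nlinarith)
      rwa [e2] at this
    have h9 : ∑ M ∈ Ico M0 M1, χ p M * ∫ x in ((M : ℝ) / A)..(((M : ℝ) + 1) / A), G α χ q x ≤
        C2 * lw q * ∫ x in ((M0 : ℝ) / A)..((M1 : ℝ) / A), G α χ p x := by
      rw [h8, Finset.mul_sum]
      refine Finset.sum_le_sum fun M _ => ?_
      calc χ p M * ∫ x in ((M : ℝ) / A)..(((M : ℝ) + 1) / A), G α χ q x ≤
          χ p M * (C2 * lw q * A⁻¹) := mul_le_mul_of_nonneg_left (hcell M) (h.c0 p M)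
        _ = _ := by ring
    have h10 : (M1 : ℝ) / A - (M0 : ℝ) / A ≤ v - u + 2 := by
      rw [← sub_div, div_le_iff₀ hA0, hM1, hM0]
      push_cast
      have h11 := Nat.floor_le (mul_nonneg (by linarith) hA0.le : 0 ≤ v * A)
      have h12 := Nat.lt_floor_add_one (u * A)
      nlinarith
    have h13 : ∫ x in ((M0 : ℝ) / A)..((M1 : ℝ) / A), G α χ p x ≤
        C2 * lw p * ((M1 : ℝ) / A - (M0 : ℝ) / A) := by
      refine hP2 p hpP2 _ _ (by positivity) (h1.trans (huv.le.trans h2)) ?_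
      refine (hP3 p (by omega)).trans ?_
      exact mul_le_mul_of_nonneg_right (by linarith) hA0.le
    calc ∫ x in u..v, G α χ p x * G α χ q x ≤
        C2 * lw q * ∫ x in ((M0 : ℝ) / A)..((M1 : ℝ) / A), G α χ p x := (h4.trans h6.le).trans h9
      _ ≤ C2 * lw q * (C2 * lw p * ((M1 : ℝ) / A - (M0 : ℝ) / A)) :=
          mul_le_mul_of_nonneg_left h13 (mul_nonneg hC2.le hlq)
      _ ≤ C2 * lw q * (C2 * lw p * (v - u + 2)) := by
          refine mul_le_mul_of_nonneg_left ?_ (mul_nonneg hC2.le hlq)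
          exact mul_le_mul_of_nonneg_left h10 (mul_nonneg hC2.le hlp)
      _ = C2 * (C2 * (v - u + 2)) * (lw p * lw q) := by ring
      _ ≤ _ := by
          refine mul_le_mul_of_nonneg_right ?_ (mul_nonneg hlp hlq)
          linarith

end Run7.h93.GP
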