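import Mathlib
import Pool.Agent.Run7.h93.GP.Sys

set_option autoImplicit false

/-!
# Real bases: one more exponent
-/

namespace Run7.h93.GP

open Finset Filter Topology MeasureTheory

variable {α κ : ℝ} {χ : ℕ → ℕ → ℝ}

/-- the product over the exponents in `T` -/
noncomputable def Phi (α : ℝ) (χ : ℕ → ℕ → ℝ) (s : ℕ → ℝ) (T : Finset ℕ) (β : ℝ) : ℝ :=
  ∏ p ∈ T, (1 - s p * G α χ p β)

lemma Sys.phiU (h : Sys α κ χ) {s : ℕ → ℝ} (hs : ∀ p, 0 ≤ s p ∧ s p ≤ 1) (T : Finset ℕ) :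
    Un (Phi α χ s T) :=
  Un.prod T fun p _ => (h.gU p).compl (hs p).1 (hs p).2

/-- comparison of products -/
lemma prod_diff {s g : ℕ → ℝ} (hs : ∀ p, 0 ≤ s p ∧ s p ≤ 1) (hg : ∀ p, 0 ≤ g p ∧ g p ≤ 1)
    (T0 D : Finset ℕ) (hd : Disjoint T0 D) :
    |(∏ p ∈ T0 ∪ D, (1 - s p * g p)) - ∏ p ∈ T0, (1 - s p * g p)| ≤ ∑ p ∈ D, g p := by
  classical
  induction D using Finset.induction_on with
  | empty => simp
  | insert a D ha ih =>
    rw [Finset.disjoint_insert_right] at hd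
    have h1 : T0 ∪ insert a D = insert a (T0 ∪ D) := by
      rw [Finset.union_insert]
    have h2 : a ∉ T0 ∪ D := by
      rw [Finset.mem_union, not_or]; exact ⟨hd.1, ha⟩
    rw [h1, Finset.prod_insert h2, Finset.sum_insert ha]
    have ih' := ih hd.2
    have hP0 : 0 ≤ ∏ p ∈ T0 ∪ D, (1 - s p * g p) := Finset.prod_nonneg fun p _ => by
      have := mul_le_one₀ (hs p).2 (hg p).1 (hg p).2
      linarith
    have hP1 : ∏ p ∈ T0 ∪ D, (1 - s p * g p) ≤ 1 := Finset.prod_le_one (fun p _ => by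
      have := mul_le_one₀ (hs p).2 (hg p).1 (hg p).2
      linarith) fun p _ => by
      have := mul_nonneg (hs p).1 (hg p).1
      linarith
    set P1 := ∏ p ∈ T0 ∪ D, (1 - s p * g p)
    set P0 := ∏ p ∈ T0, (1 - s p * g p)
    have h3 : 0 ≤ s a * g a := mul_nonneg (hs a).1 (hg a).1
    have h4 : s a * g a ≤ g a := mul_le_of_le_one_left (hg a).1 (hs a).2
    have h5 : s a * g a * P1 ≤ g a := (mul_le_of_le_one_right h3 hP1).trans h4
    have h6 : 0 ≤ s a * g a * P1 := mul_nonneg h3 hP0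
    rw [abs_le] at ih' ⊢
    constructor <;> nlinarith [ih'.1, ih'.2]

lemma Sys.phi_diff (h : Sys α κ χ) {s : ℕ → ℝ} (hs : ∀ p, 0 ≤ s p ∧ s p ≤ 1) {T0 T : Finset ℕ}
    (hT : T0 ⊆ T) (β : ℝ) : |Phi α χ s T β - Phi α χ s T0 β| ≤ ∑ p ∈ T \ T0, G α χ p β := by
  have h1 := prod_diff (g := fun p => G α χ p β) hs (fun p => ⟨(h.gU p).n β, (h.gU p).o β⟩) T0 (T \ T0)
    Finset.disjoint_sdiff
  rw [Finset.union_sdiff_of_subset hT] at h1
  exact h1

/-- agreement of the digits -/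
lemma agree {α β : ℝ} (ha : 1 < α) (hβ : 0 ≤ β) {p z : ℕ} (hpz : p ≤ z)
    (hne : ⌊β * α ^ p⌋₊ ≠ ⌊((⌊β * α ^ z⌋₊ : ℕ) : ℝ) / α ^ (z - p)⌋₊) :
    |β * α ^ p - ((⌊β * α ^ p⌋₊ : ℕ) : ℤ)| ≤ (α ^ (z - p))⁻¹ := by
  have hα0 : 0 < α := zero_lt_one.trans ha
  set D := α ^ (z - p) with hD
  have hD0 : 0 < D := by rw [hD]; positivity
  set X := β * α ^ p with hX
  have hX0 : 0 ≤ X := by positivity
  have e1 : β * α ^ z = X * D := by
    rw [hX, hD, mul_assoc, ← pow_add]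
    congr 2
    omega
  rw [e1] at hne
  have h1 := Nat.floor_le (by positivity : 0 ≤ X * D)
  have h2 := Nat.lt_floor_add_one (X * D)
  have h3 := Nat.floor_le hX0
  have h4 : ((⌊X * D⌋₊ : ℕ) : ℝ) / D ≤ X := by rw [div_le_iff₀ hD0]; exact h1
  have h5 : ⌊((⌊X * D⌋₊ : ℕ) : ℝ) / D⌋₊ < ⌊X⌋₊ :=
    lt_of_le_of_ne (Nat.floor_le_floor h4) (Ne.symm hne)
  have h6 : ((⌊X * D⌋₊ : ℕ) : ℝ) / D < ⌊X⌋₊ := (Nat.floor_lt (by positivity)).1 h5
  rw [div_lt_iff₀ hD0] at h6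
  have h7 : X - ⌊X⌋₊ ≤ D⁻¹ := by
    rw [inv_eq_one_div, le_div_iff₀ hD0]
    linarith
  rw [abs_le]
  push_cast
  constructor
  · have : 0 ≤ D⁻¹ := by positivity
    linarith
  · exact h7

lemma Un.int_cut {f : ℝ → ℝ} (h : Un f) {a b c d : ℝ} (h1 : c ≤ a) (h3 : b ≤ d) :
    |(∫ x in c..d, f x) - ∫ x in a..b, f x| ≤ (a - c) + (d - b) := by
  have e1 := intervalIntegral.integral_add_adjacent_intervals (h.ii c a) (h.ii a b)
  have e2 := intervalIntegral.integral_add_adjacent_intervals (h.ii c b) (h.ii b d)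
  have p1 := h.int_nonneg h1
  have p2 := h.int_nonneg h3
  have p3 := h.int_le h1
  have p4 := h.int_le h3
  rw [abs_le]
  constructor <;> linarith

lemma lw_le_one (q : ℕ) : lw q ≤ 1 := by
  unfold lw
  rcases Nat.eq_zero_or_pos q with h | h
  · rw [h]; simp
  · have hq : (0 : ℝ) < q := by exact_mod_cast h
    rw [div_le_one hq]
    exact (Real.log_le_sub_one_of_pos hq).trans (by linarith)

/-- the low exponents against a high one -/
theorem Sys.low (h : Sys α κ χ) : ∃ κ1 : ℝ, 0 < κ1 ∧ κ1 ≤ 1 / 4 ∧ ∀ u v : ℝ, 0 < u → u < v →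
    ∃ C : ℝ, 0 < C ∧ ∃ P : ℕ, ∀ q ≥ P, ∀ T : Finset ℕ, (∀ p ∈ T, (p : ℝ) ≤ κ1 * q) →
    ∀ s : ℕ → ℝ, (∀ p, 0 ≤ s p ∧ s p ≤ 1) →
    |(∫ x in u..v, G α χ q x * Phi α χ s T x) - κ * lw q * ∫ x in u..v, Phi α χ s T x| ≤ C / q := by
  classical
  obtain ⟨κ0, hκ0, hκ1, hfm⟩ := h.fm
  have hα0 : 0 < α := zero_lt_one.trans h.ha
  have hL : 0 < Real.log α := Real.log_pos h.ha
  refine ⟨κ0 / 2, by positivity, by linarith, fun u v hu huv => ?_⟩
  -- the window
  obtain ⟨m0, hm1, hm2⟩ : ∃ m0 : ℕ, α ^ (-(m0 : ℝ)) ≤ u ∧ v < α ^ m0 := by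
    obtain ⟨a, ha⟩ := pow_unbounded_of_one_lt (1 / u) h.ha
    obtain ⟨b, hb⟩ := pow_unbounded_of_one_lt v h.ha
    refine ⟨a + b, ?_, ?_⟩
    · rw [Real.rpow_neg hα0.le, Real.rpow_natCast, inv_le_comm₀ (by positivity) hu, ← one_div]
      refine ha.le.trans ?_
      exact pow_le_pow_right₀ h.ha.le (by omega)
    · refine hb.trans_le ?_
      exact pow_le_pow_right₀ h.ha.le (by omega)
  obtain ⟨C, hC, P1, hP1⟩ := hfm m0
  -- large exponents
  have hvu : 0 < v - u := sub_pos.2 huv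
  set K := 2 * (v - u + 5) * (1 + κ) * α with hK
  have hκ := h.hk
  have hK0 : 0 < K := by rw [hK]; positivity
  obtain ⟨P2, hP2⟩ : ∃ P2 : ℕ, ∀ q ≥ P2, (q + 1 : ℝ) * K * Real.exp (-(κ0 / 2 * Real.log α * q)) ≤ 1 / q := by
    have hc : 0 < κ0 / 2 * Real.log α := by positivity
    have h1 : Tendsto (fun x : ℝ => x ^ 2 * Real.exp (-(κ0 / 2 * Real.log α) * x)) atTop (𝓝 0) := by
      have := Real.tendsto_pow_mul_exp_neg_atTop_nhds_zero 2
      have h2 := (this.comp (Tendsto.const_mul_atTop hc tendsto_id)).const_mul (1 / (κ0 / 2 * Real.log α) ^ 2)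
      rw [mul_zero] at h2
      refine h2.congr fun x => ?_
      simp only [Function.comp, id]
      field_simp
    have h2 := (h1.comp tendsto_natCast_atTop_atTop).const_mul (2 * K)
    rw [mul_zero] at h2
    obtain ⟨P2, hP2⟩ := ((h2.eventually_le_const (show (0 : ℝ) < 1 by norm_num)).and
      (eventually_ge_atTop 1)).exists_forall_of_atTop
    refine ⟨P2, fun q hq => ?_⟩
    obtain ⟨h3, h4⟩ := hP2 q hq
    have hq1 : (1 : ℝ) ≤ q := by exact_mod_cast h4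
    simp only [Function.comp] at h3
    rw [le_div_iff₀ (by linarith)]
    have e : -(κ0 / 2 * Real.log α) * (q : ℝ) = -(κ0 / 2 * Real.log α * q) := by ring
    rw [e] at h3
    refine le_trans ?_ h3
    have he := Real.exp_pos (-(κ0 / 2 * Real.log α * q))
    have h5 : ((q : ℝ) + 1) * q ≤ 2 * q ^ 2 := by nlinarith
    calc (q + 1 : ℝ) * K * Real.exp (-(κ0 / 2 * Real.log α * q)) * q =
        ((q : ℝ) + 1) * q * (K * Real.exp (-(κ0 / 2 * Real.log α * q))) := by ring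
      _ ≤ 2 * q ^ 2 * (K * Real.exp (-(κ0 / 2 * Real.log α * q))) :=
          mul_le_mul_of_nonneg_right h5 (by positivity)
      _ = _ := by ring
  obtain ⟨P3, hP3⟩ := exists_nat_ge ((m0 + 1) / κ0)
  refine ⟨C + 3, by linarith, max (max P1 P2) (max P3 1), fun q hq T hT s hs => ?_⟩
  have hq1 : 1 ≤ q := by omega
  have hq1r : (1 : ℝ) ≤ q := by exact_mod_cast hq1
  have hq0 : (0 : ℝ) < q := by linarith
  set z := ⌊κ0 * q⌋₊ with hz
  have hz1 : (z : ℝ) ≤ κ0 * q := Nat.floor_le (by positivity)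
  have hz2 : κ0 * q < z + 1 := Nat.lt_floor_add_one _
  have hz3 : m0 ≤ z := by
    have h2 : ((m0 : ℝ) + 1) ≤ κ0 * q := by
      rw [div_le_iff₀ hκ0] at hP3
      calc ((m0 : ℝ) + 1) ≤ P3 * κ0 := hP3
        _ ≤ q * κ0 := mul_le_mul_of_nonneg_right (by exact_mod_cast (by omega : P3 ≤ q)) hκ0.le
        _ = _ := mul_comm _ _
    have h3 : ((m0 : ℕ) : ℝ) < (z : ℝ) + 1 := by linarith
    have h4 : m0 < z + 1 := by exact_mod_cast h3
    omega
  set A := α ^ z with hA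
  have hA0 : 0 < A := by rw [hA]; positivity
  have hA1 : 1 ≤ A := by rw [hA]; exact one_le_pow₀ h.ha.le
  -- the function of the cell
  set f : ℕ → ℝ := fun N => ∏ p ∈ T, (1 - s p * χ p ⌊(N : ℝ) / α ^ (z - p)⌋₊) with hf
  have hf0 : ∀ N, 0 ≤ f N := fun N => Finset.prod_nonneg fun p _ => by
    have := mul_le_one₀ (hs p).2 (h.c0 p ⌊(N : ℝ) / α ^ (z - p)⌋₊) (h.c1 p _)
    linarith
  have hf1 : ∀ N, f N ≤ 1 := fun N => Finset.prod_le_one (fun p _ => by
    have := mul_le_one₀ (hs p).2 (h.c0 p ⌊(N : ℝ) / α ^ (z - p)⌋₊) (h.c1 p _)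
    linarith) fun p _ => by
    have := mul_nonneg (hs p).1 (h.c0 p ⌊(N : ℝ) / α ^ (z - p)⌋₊)
    linarith
  have hFU : Un (fun x : ℝ => f ⌊x * A⌋₊) := un_floor hf0 hf1 A
  -- the decay
  set E := Real.exp (-(κ0 / 2 * Real.log α * q)) with hE
  have hE0 : 0 < E := Real.exp_pos _
  have hexp : ∀ p ∈ T, p ≤ z ∧ (α ^ (z - p))⁻¹ ≤ α * E := by
    intro p hp
    have h1 := hT p hp
    have h2 : (p : ℝ) < z + 1 := by nlinarith
    have h3 : p < z + 1 := by exact_mod_cast h2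
    have hpz : p ≤ z := by omega
    refine ⟨hpz, ?_⟩
    have e1 : (α ^ (z - p))⁻¹ = Real.exp (-(Real.log α * (z - p))) := by
      rw [Real.exp_neg, ← Nat.cast_sub hpz, mul_comm, ← Real.log_pow, Real.exp_log (by positivity)]
    have e2 : α * E = Real.exp (Real.log α - κ0 / 2 * Real.log α * q) := by
      rw [hE, sub_eq_add_neg, Real.exp_add, Real.exp_log hα0]
    rw [e1, e2, Real.exp_le_exp]
    have h4 : κ0 / 2 * q - 1 ≤ (z : ℝ) - p := by linarith
    nlinarith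
  have hAE : A⁻¹ ≤ α * E := by
    have e1 : A⁻¹ = Real.exp (-(Real.log α * z)) := by
      rw [Real.exp_neg, mul_comm, ← Real.log_pow, Real.exp_log (by positivity)]
    have e2 : α * E = Real.exp (Real.log α - κ0 / 2 * Real.log α * q) := by
      rw [hE, sub_eq_add_neg, Real.exp_add, Real.exp_log hα0]
    rw [e1, e2, Real.exp_le_exp]
    have h4 : κ0 / 2 * q - 1 ≤ (z : ℝ) := by nlinarith
    nlinarith
  -- the exceptional set
  set S := ⋃ p ∈ T, near (α ^ p) ((α ^ (z - p))⁻¹) u v with hS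
  have hSm : MeasurableSet S := Finset.measurableSet_biUnion _ fun p _ => near_meas _ _ _ _
  have hzq : z ≤ q := by
    have h1 : (z : ℝ) ≤ q := by nlinarith
    exact_mod_cast h1
  have hcard : (T.card : ℝ) ≤ q + 1 := by
    have h1 : T ⊆ range (q + 1) := fun p hp => by
      rw [mem_range]
      have := (hexp p hp).1
      omega
    have h2 := Finset.card_le_card h1
    rw [card_range] at h2
    exact_mod_cast h2
  set δ := ((q : ℝ) + 1) * (2 * (v - u + 5) * (α * E)) with hδ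
  have hδ0 : 0 ≤ δ := by rw [hδ]; positivity
  have hSv : volume S ≤ ENNReal.ofReal δ := by
    calc volume S ≤ ∑ p ∈ T, volume (near (α ^ p) ((α ^ (z - p))⁻¹) u v) :=
          measure_biUnion_finset_le _ _
      _ ≤ ∑ p ∈ T, ENNReal.ofReal (2 * (v - u + 5) * (α * E)) := by
          refine Finset.sum_le_sum fun p hp => ?_
          have hp0 : 0 < α ^ p := by positivity
          have hp1 : 1 ≤ α ^ p := one_le_pow₀ h.ha.le
          have hε0 : 0 ≤ (α ^ (z - p))⁻¹ := by positivity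
          refine (near_vol hp0 hε0 huv.le).trans (ENNReal.ofReal_le_ofReal ?_)
          calc ((v - u) * α ^ p + 5) * (2 * (α ^ (z - p))⁻¹ / α ^ p) ≤
              ((v - u + 5) * α ^ p) * (2 * (α ^ (z - p))⁻¹ / α ^ p) := by
                refine mul_le_mul_of_nonneg_right ?_ (by positivity)
                nlinarith
            _ = 2 * (v - u + 5) * (α ^ (z - p))⁻¹ := by field_simp
            _ ≤ _ := mul_le_mul_of_nonneg_left (hexp p hp).2 (by linarith)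
      _ = ENNReal.ofReal ((T.card : ℝ) * (2 * (v - u + 5) * (α * E))) := by
          rw [Finset.sum_const, nsmul_eq_mul, ENNReal.ofReal_mul (Nat.cast_nonneg _),
            ENNReal.ofReal_natCast]
      _ ≤ _ := ENNReal.ofReal_le_ofReal (mul_le_mul_of_nonneg_right hcard (by positivity))
  have hag : ∀ x ∈ Set.Ioc u v, x ∉ S → Phi α χ s T x = f ⌊x * A⌋₊ := by
    intro x hx hxS
    rw [hf]
    unfold Phi G
    refine Finset.prod_congr rfl fun p hp => ?_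
    by_contra hc
    have hne : ⌊x * α ^ p⌋₊ ≠ ⌊((⌊x * α ^ z⌋₊ : ℕ) : ℝ) / α ^ (z - p)⌋₊ := fun he => hc (by rw [he])
    have h1 := agree h.ha (hu.le.trans hx.1.le) (hexp p hp).1 hne
    apply hxS
    rw [hS, Set.mem_iUnion₂]
    refine ⟨p, hp, mem_near (by positivity) ?_ hx h1⟩
    exact inv_le_one_of_one_le₀ (one_le_pow₀ h.ha.le)
  have hPU := h.phiU hs T
  have hGP : Un (fun x => G α χ q x * Phi α χ s T x) := (h.gU q).mul hPU
  have hGF : Un (fun x => G α χ q x * f ⌊x * A⌋₊) := (h.gU q).mul hFU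
  have hFG : Un (fun x => f ⌊x * A⌋₊ * G α χ q x) := hFU.mul (h.gU q)
  have d1 := int_diff hGP hGF huv.le hδ0 hSm hSv (fun x hx hxS => by rw [hag x hx hxS])
  have d2 := int_diff hPU hFU huv.le hδ0 hSm hSv hag
  -- the cells
  set M0 := ⌊u * A⌋₊ with hM0
  set M1 := ⌊v * A⌋₊ + 1 with hM1
  have h1 : (M0 : ℝ) / A ≤ u := by
    rw [div_le_iff₀ hA0]; exact Nat.floor_le (by positivity)
  have h1' : u ≤ (M0 : ℝ) / A + 1 / A := by
    rw [← add_div, le_div_iff₀ hA0]; exact (Nat.lt_floor_add_one _).le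
  have h2 : v ≤ (M1 : ℝ) / A := by
    rw [le_div_iff₀ hA0, hM1]; push_cast; exact (Nat.lt_floor_add_one _).le
  have h2' : (M1 : ℝ) / A ≤ v + 1 / A := by
    rw [div_le_iff₀ hA0, add_mul, one_div, inv_mul_cancel₀ hA0.ne', hM1]
    push_cast
    have := Nat.floor_le (mul_nonneg (by linarith) hA0.le : 0 ≤ v * A)
    linarith
  have h3 : M0 ≤ M1 := by
    rw [hM0, hM1]
    have : ⌊u * A⌋₊ ≤ ⌊v * A⌋₊ := Nat.floor_le_floor (mul_le_mul_of_nonneg_right huv.le hA0.le)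
    omega
  have hone : Un (fun _ : ℝ => (1 : ℝ)) :=
    ⟨measurable_const, fun _ => zero_le_one, fun _ => le_rfl⟩
  have c1 := cell_sum hA0 hf0 hf1 (h.gU q) h3
  have c2 : ∫ x in ((M0 : ℝ) / A)..((M1 : ℝ) / A), f ⌊x * A⌋₊ = ∑ M ∈ Ico M0 M1, f M * A⁻¹ := by
    have c3 := cell_sum hA0 hf0 hf1 hone h3
    simp only [mul_one] at c3
    rw [c3]
    refine Finset.sum_congr rfl fun M _ => ?_
    rw [intervalIntegral.integral_const, smul_eq_mul, mul_one]
    congr 1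
    field_simp
    ring
  have c4 : |(∫ x in ((M0 : ℝ) / A)..((M1 : ℝ) / A), f ⌊x * A⌋₊ * G α χ q x) -
      κ * lw q * ∫ x in ((M0 : ℝ) / A)..((M1 : ℝ) / A), f ⌊x * A⌋₊| ≤ C / q := by
    rw [c1, c2, Finset.mul_sum, ← Finset.sum_sub_distrib]
    refine (Finset.abs_sum_le_sum_abs _ _).trans ?_
    refine le_trans ?_ (hP1 q (by omega) z hz3 hz1)
    have hsub : Ico M0 M1 ⊆ Ico ⌊α ^ (z - m0)⌋₊ ⌈α ^ (z + m0)⌉₊ := by
      apply Ico_subset_Ico
      · rw [hM0]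
        apply Nat.floor_le_floor
        rw [Real.rpow_neg hα0.le, Real.rpow_natCast] at hm1
        have e1 : α ^ (z - m0) = (α ^ m0)⁻¹ * A := by
          rw [hA, inv_mul_eq_div, eq_div_iff (by positivity), ← pow_add]
          congr 1
          omega
        rw [e1]
        exact mul_le_mul_of_nonneg_right hm1 hA0.le
      · rw [hM1, Nat.succ_le_iff, Nat.lt_ceil]
        refine lt_of_le_of_lt (Nat.floor_le (mul_nonneg (by linarith) hA0.le)) ?_
        rw [pow_add, mul_comm]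
        exact mul_lt_mul_of_pos_left hm2 hA0
    refine le_trans ?_ (Finset.sum_le_sum_of_subset_of_nonneg hsub fun _ _ _ => abs_nonneg _)
    refine Finset.sum_le_sum fun M _ => ?_
    have e1 : f M * (∫ x in ((M : ℝ) / A)..(((M : ℝ) + 1) / A), G α χ q x) - κ * lw q * (f M * A⁻¹) =
        f M * ((∫ x in ((M : ℝ) / A)..(((M : ℝ) + 1) / A), G α χ q x) - κ * lw q / A) := by
      ring
    rw [e1, abs_mul, abs_of_nonneg (hf0 M)]
    exact mul_le_of_le_one_left (abs_nonneg _) (hf1 M)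
  have c5 := hFG.int_cut (b := v) (d := (M1 : ℝ) / A) h1 h2
  have c6 := hFU.int_cut (b := v) (d := (M1 : ℝ) / A) h1 h2
  have c7 : ∫ x in u..v, G α χ q x * f ⌊x * A⌋₊ = ∫ x in u..v, f ⌊x * A⌋₊ * G α χ q x := by
    congr 1
    funext x
    exact mul_comm _ _
  rw [c7] at d1
  set X := ∫ x in u..v, G α χ q x * Phi α χ s T x
  set Y := ∫ x in u..v, Phi α χ s T x
  set X1 := ∫ x in u..v, f ⌊x * A⌋₊ * G α χ q x
  set Y1 := ∫ x in u..v, f ⌊x * A⌋₊
  set X2 := ∫ x in ((M0 : ℝ) / A)..((M1 : ℝ) / A), f ⌊x * A⌋₊ * G α χ q x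
  set Y2 := ∫ x in ((M0 : ℝ) / A)..((M1 : ℝ) / A), f ⌊x * A⌋₊
  have hw0 := lw_nonneg q
  have hw1 := lw_le_one q
  set W := κ * lw q with hW
  have hW0 : 0 ≤ W := mul_nonneg hκ hw0
  have hW1 : W ≤ κ := mul_le_of_le_one_right hκ hw1
  have g1 : |X - W * Y| ≤ |X - X1| + |X2 - X1| + |X2 - W * Y2| + W * |Y2 - Y1| + W * |Y - Y1| := by
    have e1 : X - W * Y = (X - X1) - (X2 - X1) + (X2 - W * Y2) + W * (Y2 - Y1) - W * (Y - Y1) := by
      ring
    rw [e1]
    have t1 := abs_sub ((X - X1) - (X2 - X1) + (X2 - W * Y2) + W * (Y2 - Y1)) (W * (Y - Y1))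
    have t2 := abs_add_le ((X - X1) - (X2 - X1) + (X2 - W * Y2)) (W * (Y2 - Y1))
    have t3 := abs_add_le ((X - X1) - (X2 - X1)) (X2 - W * Y2)
    have t4 := abs_sub (X - X1) (X2 - X1)
    rw [abs_mul, abs_of_nonneg hW0] at t1 t2
    linarith
  have g2 : (u - (M0 : ℝ) / A) + ((M1 : ℝ) / A - v) ≤ δ := by
    have e1 : (u - (M0 : ℝ) / A) + ((M1 : ℝ) / A - v) ≤ 2 * A⁻¹ := by
      have : 1 / A = A⁻¹ := one_div A
      linarith
    refine e1.trans ((mul_le_mul_of_nonneg_left hAE zero_le_two).trans ?_)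
    rw [hδ]
    have e2 : 0 ≤ α * E := by positivity
    have e3 : (2 : ℝ) ≤ ((q : ℝ) + 1) * (2 * (v - u + 5)) := by nlinarith
    calc 2 * (α * E) ≤ (((q : ℝ) + 1) * (2 * (v - u + 5))) * (α * E) :=
          mul_le_mul_of_nonneg_right e3 e2
      _ = _ := by ring
  have g3 := hP2 q (by omega)
  have g4 : (1 + κ) * δ = ((q : ℝ) + 1) * K * E := by rw [hδ, hK]; ring
  rw [← g4] at g3
  have g5 : W * |Y2 - Y1| ≤ κ * δ := mul_le_mul hW1 (c6.trans g2) (abs_nonneg _) hκ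
  have g6 : W * |Y - Y1| ≤ κ * δ := mul_le_mul hW1 d2 (abs_nonneg _) hκ
  have g7 := c5.trans g2
  have g8 : (C + 3) / q = C / q + 3 * (1 / q) := by ring
  rw [g8]
  have g9 : (0 : ℝ) ≤ 1 / q := by positivity
  linarith

end Run7.h93.GP
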