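import Mathlib
import Pool.Agent.Run7.h93.GP.Step

set_option autoImplicit false

/-!
# Real bases: the Laplace functional (after the integer case in `Run7.h854.PO`)
-/

namespace Run7.h93.GP

open Finset Filter Topology MeasureTheory

variable {α κ : ℝ} {χ : ℕ → ℕ → ℝ}

lemma int_abs {f g e : ℝ → ℝ} (hf : Un f) (hg : Un g) {a b : ℝ}
    (he : IntervalIntegrable e volume a b) (hab : a ≤ b) (h : ∀ x, |f x - g x| ≤ e x) :
    |(∫ x in a..b, f x) - ∫ x in a..b, g x| ≤ ∫ x in a..b, e x := by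
  rw [← intervalIntegral.integral_sub (hf.ii a b) (hg.ii a b)]
  have h1 := intervalIntegral.norm_integral_le_of_norm_le (μ := volume)
    (f := fun x => f x - g x) (g := e) hab
    (Eventually.of_forall fun x _ => by rw [Real.norm_eq_abs]; exact h x) he
  rwa [Real.norm_eq_abs] at h1

lemma ii_sum {f : ℕ → ℝ → ℝ} (s : Finset ℕ) {a b : ℝ}
    (h : ∀ i ∈ s, IntervalIntegrable (f i) volume a b) :
    IntervalIntegrable (fun x => ∑ i ∈ s, f i x) volume a b := by
  have h1 := IntervalIntegrable.sum s h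
  have h2 : (∑ i ∈ s, f i) = fun x => ∑ i ∈ s, f i x := by
    funext x
    rw [Finset.sum_apply]
  rwa [h2] at h1

/-- one more exponent -/
theorem Sys.step (h : Sys α κ χ) : ∃ κ1 : ℝ, 0 < κ1 ∧ ∀ u v : ℝ, 0 < u → u < v →
    ∃ C : ℝ, 0 < C ∧ ∃ P : ℕ, ∀ q ≥ P, ∀ T : Finset ℕ, (∀ p ∈ T, P ≤ p ∧ p < q) →
    ∀ s : ℕ → ℝ, (∀ p, 0 ≤ s p ∧ s p ≤ 1) →
    |(∫ x in u..v, Phi α χ s (insert q T) x) -
      (1 - s q * (κ * lw q)) * ∫ x in u..v, Phi α χ s T x| ≤
      C * (1 / q + ∑ p ∈ T.filter (fun p : ℕ => κ1 * q < p), lw p * lw q) := by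
  classical
  obtain ⟨κ1, hκ1, _, hlow⟩ := h.low
  refine ⟨κ1, hκ1, fun u v hu huv => ?_⟩
  obtain ⟨C1, hC1, P1, hP1⟩ := hlow u v hu huv
  obtain ⟨C2, hC2, P2, hP2⟩ := h.pair hu huv
  obtain ⟨C3, hC3, P3, hP3⟩ := h.one hu huv
  have hκ := h.hk
  refine ⟨C1 + C2 + κ * C3, by positivity, max (max P1 P2) (max P3 1), ?_⟩
  intro q hq T hT s hs
  have hq1 : 1 ≤ q := by omega
  have hq0 : (0 : ℝ) < q := by exact_mod_cast hq1
  set T0 := T.filter (fun p : ℕ => (p : ℝ) ≤ κ1 * q) with hT0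
  have hsub : T0 ⊆ T := filter_subset _ _
  have hdiff : T \ T0 = T.filter (fun p : ℕ => κ1 * q < p) := by
    ext p
    rw [Finset.mem_sdiff, hT0, Finset.mem_filter, Finset.mem_filter, not_and, not_le]
    constructor
    · rintro ⟨h2, h3⟩
      exact ⟨h2, h3 h2⟩
    · rintro ⟨h2, h3⟩
      exact ⟨h2, fun _ => h3⟩
  have hqT : q ∉ T := fun hqT => by
    have := (hT q hqT).2
    omega
  set S := ∑ p ∈ T.filter (fun p : ℕ => κ1 * q < p), lw p * lw q with hS
  have hlq := lw_nonneg q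
  have hS0 : 0 ≤ S := Finset.sum_nonneg fun p _ => mul_nonneg (lw_nonneg p) hlq
  have hGP : Un (fun x => G α χ q x * Phi α χ s T x) := (h.gU q).mul (h.phiU hs T)
  have hGP0 : Un (fun x => G α χ q x * Phi α χ s T0 x) := (h.gU q).mul (h.phiU hs T0)
  set X1 := ∫ x in u..v, G α χ q x * Phi α χ s T x with hX1
  set X0 := ∫ x in u..v, G α χ q x * Phi α χ s T0 x with hX0
  set A1 := ∫ x in u..v, Phi α χ s T x with hA1
  set A0 := ∫ x in u..v, Phi α χ s T0 x with hA0
  set κ' := κ * lw q with hκ'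
  have hκ'0 : 0 ≤ κ' := mul_nonneg hκ hlq
  have e1 : ∫ x in u..v, Phi α χ s (insert q T) x = A1 - s q * X1 := by
    rw [hA1, hX1, ← intervalIntegral.integral_const_mul, ← intervalIntegral.integral_sub
      ((h.phiU hs T).ii u v) ((hGP.ii u v).const_mul _)]
    congr 1
    funext x
    unfold Phi
    rw [Finset.prod_insert hqT]
    ring
  have h2 : |X1 - X0| ≤ C2 * S := by
    have he : IntervalIntegrable (fun x => ∑ p ∈ T \ T0, G α χ p x * G α χ q x) volume u v :=
      ii_sum (f := fun p x => G α χ p x * G α χ q x) _ fun p _ => ((h.gU p).mul (h.gU q)).ii u v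
    have h3 := int_abs hGP hGP0 he huv.le (fun x => by
      rw [← mul_sub, abs_mul, abs_of_nonneg ((h.gU q).n x), ← Finset.sum_mul, mul_comm]
      exact mul_le_mul_of_nonneg_right (h.phi_diff hs hsub x) ((h.gU q).n x))
    refine h3.trans ?_
    rw [intervalIntegral.integral_finsetSum (fun p _ => ((h.gU p).mul (h.gU q)).ii u v), hS,
      Finset.mul_sum, ← hdiff]
    refine Finset.sum_le_sum fun p hp => ?_
    obtain ⟨h4, h5⟩ := hT p (Finset.mem_sdiff.1 hp).1
    exact hP2 p (by omega) q h5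
  have h3 : |X0 - κ' * A0| ≤ C1 / q :=
    hP1 q (by omega) T0 (fun p hp => (mem_filter.1 hp).2) s hs
  have h4 : κ' * |A1 - A0| ≤ κ * C3 * S := by
    have h5 : |A1 - A0| ≤ ∑ p ∈ T \ T0, C3 * lw p := by
      have he : IntervalIntegrable (fun x => ∑ p ∈ T \ T0, G α χ p x) volume u v :=
        ii_sum (f := fun p x => G α χ p x) _ fun p _ => (h.gU p).ii u v
      refine (int_abs (h.phiU hs T) (h.phiU hs T0) he huv.le (fun x => h.phi_diff hs hsub x)).trans ?_
      rw [intervalIntegral.integral_finsetSum (fun p _ => (h.gU p).ii u v)]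
      refine Finset.sum_le_sum fun p hp => ?_
      obtain ⟨h4, h5⟩ := hT p (Finset.mem_sdiff.1 hp).1
      exact hP3 p (by omega)
    calc κ' * |A1 - A0| ≤ κ' * ∑ p ∈ T \ T0, C3 * lw p :=
          mul_le_mul_of_nonneg_left h5 hκ'0
      _ = κ * C3 * S := by
          rw [hS, ← hdiff, Finset.mul_sum, Finset.mul_sum]
          refine Finset.sum_congr rfl fun p _ => ?_
          rw [hκ']
          ring
  have h5 : |X1 - κ' * A1| ≤ (C1 + C2 + κ * C3) * (1 / q + S) := by
    have h6 : |X1 - κ' * A1| ≤ |X1 - X0| + |X0 - κ' * A0| + κ' * |A1 - A0| := by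
      have e2 : X1 - κ' * A1 = (X1 - X0) + (X0 - κ' * A0) + κ' * (A0 - A1) := by ring
      rw [e2]
      refine (abs_add_three _ _ _).trans ?_
      rw [abs_mul, abs_of_nonneg hκ'0, abs_sub_comm A0 A1]
    have h7 : 0 ≤ 1 / (q : ℝ) := by positivity
    have h8 : C1 / q = C1 * (1 / q) := by ring
    rw [h8] at h3
    have h9 : 0 ≤ κ * C3 := by positivity
    nlinarith [mul_nonneg hC1.le hS0, mul_nonneg hC2.le h7, mul_nonneg h9 h7]
  rw [e1]
  have e3 : A1 - s q * X1 - (1 - s q * κ') * A1 = -(s q * (X1 - κ' * A1)) := by ring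
  rw [e3, abs_neg, abs_mul, abs_of_nonneg (hs q).1]
  exact (mul_le_of_le_one_left (abs_nonneg _) (hs q).2).trans h5

/-- the error term -/
noncomputable def err (κ1 : ℝ) (T : Finset ℕ) : ℝ :=
  ∑ q ∈ T, (1 / (q : ℝ) + ∑ p ∈ T.filter (fun p : ℕ => κ1 * q < p ∧ p < q), lw p * lw q)

lemma err_nonneg (κ1 : ℝ) (T : Finset ℕ) : 0 ≤ err κ1 T := by
  unfold err
  refine Finset.sum_nonneg fun q _ => add_nonneg (by positivity) ?_
  exact Finset.sum_nonneg fun p _ => mul_nonneg (lw_nonneg p) (lw_nonneg q)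

lemma err_insert (κ1 : ℝ) {q : ℕ} {T : Finset ℕ} (h : ∀ x ∈ T, x < q) :
    err κ1 (insert q T) = (1 / (q : ℝ) + ∑ p ∈ T.filter (fun p : ℕ => κ1 * q < p), lw p * lw q) +
      err κ1 T := by
  classical
  have hqT : q ∉ T := fun hqT => by
    have := h q hqT
    omega
  unfold err
  rw [Finset.sum_insert hqT]
  congr 1
  · congr 1
    refine Finset.sum_congr ?_ fun _ _ => rfl
    ext p
    rw [mem_filter, mem_filter, mem_insert]
    constructor
    · rintro ⟨h1 | h1, h2, h3⟩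
      · omega
      · exact ⟨h1, h2⟩
    · rintro ⟨h1, h2⟩
      exact ⟨Or.inr h1, h2, h p h1⟩
  · refine Finset.sum_congr rfl fun q' hq' => ?_
    congr 1
    refine Finset.sum_congr ?_ fun _ _ => rfl
    ext p
    rw [mem_filter, mem_filter, mem_insert]
    have h4 := h q' hq'
    constructor
    · rintro ⟨h1 | h1, h2, h3⟩
      · omega
      · exact ⟨h1, h2, h3⟩
    · rintro ⟨h1, h2, h3⟩
      exact ⟨Or.inr h1, h2, h3⟩

lemma exp_second {x : ℝ} (hx : 0 ≤ x) : |1 - x - Real.exp (-x)| ≤ x ^ 2 := by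
  have h1 := Real.one_sub_le_exp_neg x
  have h2 : Real.exp (-x) ≤ 1 - x + x ^ 2 := by
    rw [Real.exp_neg]
    have h3 : 1 + x ≤ Real.exp x := by linarith [Real.add_one_le_exp x]
    have h4 : (Real.exp x)⁻¹ ≤ (1 + x)⁻¹ := by
      apply inv_anti₀ (by linarith) h3
    refine h4.trans ?_
    rw [inv_eq_one_div, div_le_iff₀ (by linarith)]
    nlinarith [pow_nonneg hx 3]
  rw [abs_le]
  constructor <;> nlinarith

/-- the Laplace functional of the exponents in `T` -/
theorem Sys.laplace (h : Sys α κ χ) :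
    ∃ κ1 : ℝ, 0 < κ1 ∧ ∀ u v : ℝ, 0 < u → u < v → ∃ C : ℝ, 0 < C ∧
    ∃ P : ℕ, ∀ T : Finset ℕ, (∀ p ∈ T, P ≤ p) →
    ∀ s : ℕ → ℝ, (∀ p, 0 ≤ s p ∧ s p ≤ 1) →
    |(∫ x in u..v, Phi α χ s T x) - (v - u) * Real.exp (-(∑ q ∈ T, s q * (κ * lw q)))| ≤
      C * err κ1 T := by
  classical
  obtain ⟨κ1, hκ1, hst⟩ := h.step
  refine ⟨κ1, hκ1, fun u v hu huv => ?_⟩
  obtain ⟨C1, hC1, P1, hP1⟩ := hst u v hu huv
  have hκb := h.hk
  have hlim : Tendsto (fun q : ℕ => (Real.log q) ^ 2 / q) atTop (𝓝 0) := by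
    have h1 := (Real.isLittleO_pow_log_id_atTop (n := 2)).tendsto_div_nhds_zero
    have h2 := h1.comp tendsto_natCast_atTop_atTop
    exact h2
  have hlim2 : Tendsto (fun q : ℕ => κ * (Real.log q / q)) atTop (𝓝 0) := by
    have h1 := (Real.isLittleO_pow_log_id_atTop (n := 1)).tendsto_div_nhds_zero
    have h2 := (h1.comp tendsto_natCast_atTop_atTop).const_mul κ
    rw [mul_zero] at h2
    refine h2.congr fun q => ?_
    simp
  obtain ⟨P2, hP2⟩ := eventually_atTop.1 (hlim.eventually_le_const (show (0 : ℝ) < 1 by norm_num))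
  obtain ⟨P3, hP3⟩ := eventually_atTop.1 (hlim2.eventually_le_const (show (0 : ℝ) < 1 by norm_num))
  set M := v - u with hM
  have hM0 : 0 ≤ M := by rw [hM]; linarith
  refine ⟨C1 + M * κ ^ 2, by positivity, max P1 (max P2 (max P3 1)), fun T hT s hs => ?_⟩
  induction T using Finset.induction_on_max with
  | empty =>
    have e1 : ∫ x in u..v, Phi α χ s ∅ x = M := by
      unfold Phi
      simp only [Finset.prod_empty]
      rw [intervalIntegral.integral_const, smul_eq_mul, mul_one]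
    rw [e1, Finset.sum_empty, neg_zero, Real.exp_zero, mul_one, sub_self, abs_zero]
    unfold err
    rw [Finset.sum_empty, mul_zero]
  | insert q T hqT ih =>
    have hqT' : q ∉ T := fun hq => by
      have := hqT q hq
      omega
    have ih' := ih (fun p hp => hT p (mem_insert_of_mem hp))
    have hqP := hT q (mem_insert_self _ _)
    have hqP1 : P1 ≤ q := by omega
    have hqP2 : P2 ≤ q := by omega
    have hqP3 : P3 ≤ q := by omega
    have hq1 : 1 ≤ q := by omega
    have hq0 : (0 : ℝ) < q := by exact_mod_cast hq1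
    have hst := hP1 q hqP1 T (fun p hp =>
      ⟨by have := hT p (mem_insert_of_mem hp); omega, hqT p hp⟩) s hs
    rw [err_insert κ1 hqT, Finset.sum_insert hqT']
    set S := ∑ p ∈ T.filter (fun p : ℕ => κ1 * q < p), lw p * lw q with hS
    have hS0 : 0 ≤ S := Finset.sum_nonneg fun p _ => mul_nonneg (lw_nonneg p) (lw_nonneg q)
    set A1 := ∫ x in u..v, Phi α χ s T x with hA1
    set A2 := ∫ x in u..v, Phi α χ s (insert q T) x with hA2
    set x := s q * (κ * lw q) with hx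
    set σ := ∑ q ∈ T, s q * (κ * lw q) with hσ
    have hlq := lw_nonneg q
    have hκq : 0 ≤ κ * lw q := mul_nonneg hκb hlq
    have hx0 : 0 ≤ x := mul_nonneg (hs q).1 hκq
    have hx1 : x ≤ κ * lw q := mul_le_of_le_one_left hκq (hs q).2
    have hx2 : x ≤ 1 := hx1.trans (hP3 q hqP3)
    have hs0 : 0 ≤ σ := Finset.sum_nonneg fun p _ =>
      mul_nonneg (hs p).1 (mul_nonneg hκb (lw_nonneg p))
    have hes : Real.exp (-σ) ≤ 1 := Real.exp_le_one_iff.2 (by linarith)
    have hes0 : 0 < Real.exp (-σ) := Real.exp_pos _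
    have e2 : Real.exp (-(x + σ)) = Real.exp (-x) * Real.exp (-σ) := by
      rw [← Real.exp_add]; congr 1; ring
    have h6 : x ^ 2 ≤ κ ^ 2 * (1 / q) := by
      have h7 := hP2 q hqP2
      calc x ^ 2 ≤ (κ * lw q) ^ 2 := by gcongr
        _ = κ ^ 2 * ((Real.log q) ^ 2 / q * (1 / q)) := by unfold lw; field_simp
        _ ≤ κ ^ 2 * (1 * (1 / q)) := by gcongr
        _ = _ := by ring
    have h7 := exp_second hx0
    have e3 : A2 - M * Real.exp (-(x + σ)) = (A2 - (1 - x) * A1) + (1 - x) * (A1 - M * Real.exp (-σ)) +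
        M * Real.exp (-σ) * (1 - x - Real.exp (-x)) := by
      rw [e2]; ring
    rw [e3]
    refine (abs_add_three _ _ _).trans ?_
    have h8 : |(1 - x) * (A1 - M * Real.exp (-σ))| ≤ (C1 + M * κ ^ 2) * err κ1 T := by
      rw [abs_mul, abs_of_nonneg (by linarith : 0 ≤ 1 - x)]
      exact (mul_le_of_le_one_left (abs_nonneg _) (by linarith)).trans ih'
    have h9 : |M * Real.exp (-σ) * (1 - x - Real.exp (-x))| ≤ M * κ ^ 2 * (1 / q) := by
      rw [abs_mul, abs_of_nonneg (by positivity : 0 ≤ M * Real.exp (-σ))]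
      calc M * Real.exp (-σ) * |1 - x - Real.exp (-x)| ≤ M * 1 * (κ ^ 2 * (1 / q)) := by
            gcongr
            exact h7.trans h6
        _ = _ := by ring
    have h10 : 0 ≤ M * κ ^ 2 * S := by positivity
    nlinarith

end Run7.h93.GP
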