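import Mathlib
import Pool.Agent.Run7.h93.GP.Lap

set_option autoImplicit false

/-!
# The error term tends to zero along thin sets of levels; the continuity theorem for generating
functions with a Poisson limit (after `Run7.h854.PO.Err` of helper854)
-/

namespace Run7.h93.GP

open Finset Filter Topology

/-- covering by dyadic blocks -/
lemma dyad {T : Finset ℕ} {δ : ℝ}
    (hT : ∀ x : ℕ, ∑ p ∈ T.filter (fun p => x < p ∧ p ≤ 2 * x), Real.log p / (p : ℝ) ≤ δ) (k : ℕ) :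
    ∀ q : ℕ, ∀ y : ℝ, (q : ℝ) / 2 ^ k + (1 - 1 / 2 ^ k) ≤ y →
    ∑ p ∈ T.filter (fun p : ℕ => y < p ∧ p ≤ q), Real.log p / (p : ℝ) ≤ k * δ := by
  classical
  induction k with
  | zero =>
    intro q y hy
    have : T.filter (fun p : ℕ => y < p ∧ p ≤ q) = ∅ := by
      rw [Finset.filter_eq_empty_iff]
      rintro p _ ⟨h1, h2⟩
      have h3 : (p : ℝ) ≤ q := by exact_mod_cast h2
      norm_num at hy
      linarith
    rw [this]
    simp
  | succ k ih =>
    intro q y hy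
    set x := (q + 1) / 2 with hx
    have hxr : (x : ℝ) ≤ ((q : ℝ) + 1) / 2 := by
      have h1 : 2 * x ≤ q + 1 := by omega
      have h2 : (2 : ℝ) * x ≤ q + 1 := by exact_mod_cast h1
      linarith
    have hsub : T.filter (fun p : ℕ => y < p ∧ p ≤ q) ⊆
        T.filter (fun p => x < p ∧ p ≤ 2 * x) ∪ T.filter (fun p : ℕ => y < p ∧ p ≤ x) := by
      intro p hp
      rw [mem_filter] at hp
      rw [mem_union, mem_filter, mem_filter]
      rcases le_or_gt p x with h | h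
      · exact Or.inr ⟨hp.1, hp.2.1, h⟩
      · exact Or.inl ⟨hp.1, h, by omega⟩
    have h2 : (x : ℝ) / 2 ^ k + (1 - 1 / 2 ^ k) ≤ y := by
      refine le_trans ?_ hy
      have h3 : (x : ℝ) / 2 ^ k ≤ (((q : ℝ) + 1) / 2) / 2 ^ k :=
        div_le_div_of_nonneg_right hxr (by positivity)
      have h4 : (((q : ℝ) + 1) / 2) / 2 ^ k = (q : ℝ) / 2 ^ (k + 1) + 1 / 2 ^ (k + 1) := by
        rw [pow_succ]; field_simp
      have h5 : (1 : ℝ) / 2 ^ k = 2 * (1 / 2 ^ (k + 1)) := by rw [pow_succ]; field_simp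
      rw [h4] at h3
      rw [h5]
      linarith
    calc _ ≤ ∑ p ∈ T.filter (fun p => x < p ∧ p ≤ 2 * x) ∪ T.filter (fun p : ℕ => y < p ∧ p ≤ x),
          Real.log p / (p : ℝ) := Finset.sum_le_sum_of_subset_of_nonneg hsub fun p _ _ => lw_nonneg p
      _ ≤ ∑ p ∈ T.filter (fun p => x < p ∧ p ≤ 2 * x), Real.log p / (p : ℝ) +
          ∑ p ∈ T.filter (fun p : ℕ => y < p ∧ p ≤ x), Real.log p / (p : ℝ) := by
          rw [← Finset.sum_union_inter]
          have : 0 ≤ ∑ p ∈ T.filter (fun p => x < p ∧ p ≤ 2 * x) ∩ T.filter (fun p : ℕ => y < p ∧ p ≤ x),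
            Real.log p / (p : ℝ) := Finset.sum_nonneg fun p _ => lw_nonneg p
          linarith
      _ ≤ δ + k * δ := add_le_add (hT x) (ih x y h2)
      _ = _ := by push_cast; ring

/-- the error term tends to zero -/
theorem err_tendsto {κ0 : ℝ} (hκ0 : 0 < κ0) (T : ℕ → Finset ℕ)
    (hmin : ∀ M : ℕ, ∀ᶠ n in atTop, ∀ p ∈ T n, M < p)
    (hthin : ∀ δ : ℝ, 0 < δ → ∀ᶠ n in atTop, ∀ x : ℕ,
      ∑ p ∈ (T n).filter (fun p => x < p ∧ p ≤ 2 * x), Real.log p / (p : ℝ) ≤ δ)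
    {B : ℝ} (hmass : ∀ᶠ n in atTop, ∑ p ∈ T n, Real.log p / (p : ℝ) ≤ B) :
    Tendsto (fun n => err κ0 (T n)) atTop (𝓝 0) := by
  classical
  set B' := max B 1 with hB'
  have hB1 : 1 ≤ B' := le_max_right _ _
  have hB0 : 0 < B' := by linarith
  have hmass' : ∀ᶠ n in atTop, ∑ p ∈ T n, Real.log p / (p : ℝ) ≤ B' :=
    hmass.mono fun n hn => hn.trans (le_max_left _ _)
  -- the three parts
  have hE1 : Tendsto (fun n => ∑ q ∈ T n, 1 / (q : ℝ)) atTop (𝓝 0) := by
    rw [Metric.tendsto_nhds]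
    intro ε hε
    obtain ⟨M, hM⟩ := exists_nat_ge (Real.exp (2 * B' / ε))
    filter_upwards [hmin M, hmass'] with n h1 h2
    have h0 : 0 ≤ ∑ q ∈ T n, 1 / (q : ℝ) := Finset.sum_nonneg fun q _ => by positivity
    rw [Real.dist_eq, sub_zero, abs_of_nonneg h0]
    calc ∑ q ∈ T n, 1 / (q : ℝ) ≤ ∑ q ∈ T n, ε / (2 * B') * (Real.log q / q) := by
          refine Finset.sum_le_sum fun q hq => ?_
          have hMq : (M : ℝ) ≤ q := by exact_mod_cast (h1 q hq).le
          have hq0 : (0 : ℝ) < q := ((Real.exp_pos _).trans_le hM).trans_le hMq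
          have h3 : 2 * B' / ε ≤ Real.log q := by
            rw [Real.le_log_iff_exp_le hq0]
            exact hM.trans hMq
          rw [div_le_iff₀ hε] at h3
          rw [← mul_div_assoc]
          refine div_le_div_of_nonneg_right ?_ hq0.le
          rw [div_mul_eq_mul_div, le_div_iff₀ (by positivity)]
          linarith
      _ = ε / (2 * B') * ∑ q ∈ T n, Real.log q / (q : ℝ) := by rw [Finset.mul_sum]
      _ ≤ ε / (2 * B') * B' := mul_le_mul_of_nonneg_left h2 (by positivity)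
      _ = ε / 2 := by field_simp
      _ < ε := by linarith
  have hE2 : Tendsto (fun n => ∑ q ∈ T n, ∑ p ∈ (T n).filter (fun p : ℕ => κ0 * q < p ∧ p < q),
      Real.log p / (p : ℝ) * (Real.log q / q)) atTop (𝓝 0) := by
    obtain ⟨k, hk⟩ := exists_pow_lt_of_lt_one (show 0 < κ0 / 2 by positivity)
      (by norm_num : (1 / 2 : ℝ) < 1)
    obtain ⟨M, hM⟩ := exists_nat_ge (2 / κ0)
    rw [Metric.tendsto_nhds]
    intro ε hε
    filter_upwards [hmin M, hmass', hthin (ε / (2 * B' * (k + 1))) (by positivity)] with n h1 h2 h3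
    have h0 : 0 ≤ ∑ q ∈ T n, ∑ p ∈ (T n).filter (fun p : ℕ => κ0 * q < p ∧ p < q),
        Real.log p / (p : ℝ) * (Real.log q / q) :=
      Finset.sum_nonneg fun q _ => Finset.sum_nonneg fun p _ => mul_nonneg (lw_nonneg p) (lw_nonneg q)
    rw [Real.dist_eq, sub_zero, abs_of_nonneg h0]
    have h4 : ∀ q ∈ T n, ∑ p ∈ (T n).filter (fun p : ℕ => κ0 * q < p ∧ p < q),
        Real.log p / (p : ℝ) * (Real.log q / q) ≤ ε / (2 * B') * (Real.log q / q) := by
      intro q hq
      rw [← Finset.sum_mul]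
      refine mul_le_mul_of_nonneg_right ?_ (lw_nonneg q)
      have hMq : (M : ℝ) ≤ q := by exact_mod_cast (h1 q hq).le
      have h5 : (2 : ℝ) ≤ κ0 * q := by
        have := hM.trans hMq
        rw [div_le_iff₀ hκ0] at this
        linarith
      have h6 := dyad h3 k q (κ0 * q) (by
        have h7 : (q : ℝ) / 2 ^ k ≤ κ0 / 2 * q := by
          have : (1 / 2 : ℝ) ^ k = 1 / 2 ^ k := by rw [one_div_pow]
          rw [this] at hk
          calc (q : ℝ) / 2 ^ k = 1 / 2 ^ k * q := by ring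
            _ ≤ κ0 / 2 * q := mul_le_mul_of_nonneg_right hk.le (Nat.cast_nonneg q)
        have h8 : (0 : ℝ) ≤ 1 / 2 ^ k := by positivity
        linarith)
      calc _ ≤ ∑ p ∈ (T n).filter (fun p : ℕ => κ0 * q < p ∧ p ≤ q), Real.log p / (p : ℝ) := by
            refine Finset.sum_le_sum_of_subset_of_nonneg ?_ fun p _ _ => lw_nonneg p
            intro p hp
            rw [mem_filter] at hp ⊢
            exact ⟨hp.1, hp.2.1, hp.2.2.le⟩
        _ ≤ k * (ε / (2 * B' * (k + 1))) := h6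
        _ ≤ (k + 1) * (ε / (2 * B' * (k + 1))) := by
            refine mul_le_mul_of_nonneg_right (by linarith) (by positivity)
        _ = _ := by field_simp
    calc _ ≤ ∑ q ∈ T n, ε / (2 * B') * (Real.log q / (q : ℝ)) := Finset.sum_le_sum h4
      _ = ε / (2 * B') * ∑ q ∈ T n, Real.log q / (q : ℝ) := by rw [Finset.mul_sum]
      _ ≤ ε / (2 * B') * B' := mul_le_mul_of_nonneg_left h2 (by positivity)
      _ = ε / 2 := by field_simp
      _ < ε := by linarith
  have hsum := hE1.add hE2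
  simp only [add_zero] at hsum
  refine hsum.congr fun n => ?_
  unfold err lw
  rw [← Finset.sum_add_distrib]

/-- bounds for a coefficient by the generating function -/
lemma coef_bound {a : ℕ → ℝ} (ha : ∀ k, 0 ≤ a k) {A1 G θ : ℝ} (h0 : 0 ≤ θ) (h1 : θ ≤ 1)
    (hA : HasSum (fun k => a k * 1 ^ k) A1) (hG : HasSum (fun k => a k * θ ^ k) G) (k : ℕ) :
    a k * θ ^ k ≤ G - ∑ l ∈ range k, a l * θ ^ l ∧
    G - ∑ l ∈ range k, a l * θ ^ l ≤ a k * θ ^ k + θ ^ (k + 1) * A1 := by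
  have hA' : HasSum a A1 := by simpa using hA
  have h2 : HasSum (fun j => a (j + k) * θ ^ (j + k)) (G - ∑ l ∈ range k, a l * θ ^ l) :=
    (hasSum_nat_add_iff' (f := fun k => a k * θ ^ k) k).2 hG
  constructor
  · have h3 := le_hasSum h2 0 (fun j _ => mul_nonneg (ha _) (pow_nonneg h0 _))
    simpa using h3
  · have h3 : HasSum (fun j => (if j = 0 then a k * θ ^ k else 0) + θ ^ (k + 1) * a (j + k))
        (a k * θ ^ k + θ ^ (k + 1) * (A1 - ∑ l ∈ range k, a l)) := by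
      refine HasSum.add ?_ ?_
      · exact hasSum_ite_eq 0 _
      · exact ((hasSum_nat_add_iff' (f := a) k).2 hA').mul_left _
    have h4 := hasSum_le (fun j => ?_) h2 h3
    · refine h4.trans ?_
      have h5 : 0 ≤ ∑ l ∈ range k, a l := Finset.sum_nonneg fun l _ => ha l
      have h6 : 0 ≤ θ ^ (k + 1) := pow_nonneg h0 _
      nlinarith
    · rcases Nat.eq_zero_or_pos j with hj | hj
      · rw [if_pos hj, hj, zero_add]
        have := mul_nonneg (pow_nonneg h0 (k + 1)) (ha k)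
        linarith
      · rw [if_neg (by omega), zero_add, mul_comm]
        refine mul_le_mul_of_nonneg_right ?_ (ha _)
        exact pow_le_pow_of_le_one h0 h1 (by omega)

lemma hasSum_poisson (μ lam θ : ℝ) :
    HasSum (fun k : ℕ => μ * (Real.exp (-lam) * lam ^ k / k.factorial) * θ ^ k)
      (μ * Real.exp (-(lam * (1 - θ)))) := by
  have h1 : HasSum (fun k : ℕ => (lam * θ) ^ k / (k.factorial : ℝ)) (Real.exp (lam * θ)) := by
    rw [Real.exp_eq_exp_ℝ]
    exact NormedSpace.expSeries_div_hasSum_exp (lam * θ)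
  have h2 := h1.mul_left (μ * Real.exp (-lam))
  have e : μ * Real.exp (-lam) * Real.exp (lam * θ) = μ * Real.exp (-(lam * (1 - θ))) := by
    rw [mul_assoc, ← Real.exp_add]
    congr 2
    ring
  rw [e] at h2
  have h3 : (fun k : ℕ => μ * (Real.exp (-lam) * lam ^ k / k.factorial) * θ ^ k) =
      fun k : ℕ => μ * Real.exp (-lam) * ((lam * θ) ^ k / (k.factorial : ℝ)) := by
    funext k
    rw [mul_pow]
    ring
  rw [h3]
  exact h2

/-- the continuity theorem -/
theorem cont_gf (f : ℕ → ℕ → ℝ) (G : ℕ → ℝ → ℝ) (μ lam : ℝ) (hlam : 0 ≤ lam) (hμ : 0 ≤ μ)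
    (hf : ∀ n k, 0 ≤ f n k)
    (hG : ∀ n θ, 0 ≤ θ → θ ≤ 1 → HasSum (fun k => f n k * θ ^ k) (G n θ))
    (hlim : ∀ θ, 0 ≤ θ → θ ≤ 1 →
      Tendsto (fun n => G n θ) atTop (𝓝 (μ * Real.exp (-(lam * (1 - θ)))))) (k : ℕ) :
    Tendsto (fun n => f n k) atTop (𝓝 (μ * (Real.exp (-lam) * lam ^ k / k.factorial))) := by
  set ρ : ℕ → ℝ := fun k => μ * (Real.exp (-lam) * lam ^ k / k.factorial) with hρ
  have hρ0 : ∀ k, 0 ≤ ρ k := fun k => by rw [hρ]; positivity
  have hρs : ∀ θ, HasSum (fun k => ρ k * θ ^ k) (μ * Real.exp (-(lam * (1 - θ)))) :=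
    fun θ => hasSum_poisson μ lam θ
  change Tendsto (fun n => f n k) atTop (𝓝 (ρ k))
  induction k using Nat.strong_induction_on with
  | _ k ih =>
    have hρ1 : μ * Real.exp (-(lam * (1 - 1))) = μ := by simp
    rw [Metric.tendsto_nhds]
    intro ε hε
    -- choose θ
    obtain ⟨θ, hθ0, hθ1, hθ⟩ : ∃ θ : ℝ, 0 < θ ∧ θ ≤ 1 ∧ θ * (2 * μ + 1) ≤ ε / 2 := by
      refine ⟨min 1 (ε / (2 * (2 * μ + 1))), by positivity, min_le_left _ _, ?_⟩
      calc min 1 (ε / (2 * (2 * μ + 1))) * (2 * μ + 1) ≤ ε / (2 * (2 * μ + 1)) * (2 * μ + 1) :=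
            mul_le_mul_of_nonneg_right (min_le_right _ _) (by positivity)
        _ = ε / 2 := by field_simp
    have hpos : 0 < θ ^ k := pow_pos hθ0 k
    have h1 : Tendsto (fun n => G n θ - ∑ l ∈ range k, f n l * θ ^ l) atTop
        (𝓝 (μ * Real.exp (-(lam * (1 - θ))) - ∑ l ∈ range k, ρ l * θ ^ l)) := by
      refine (hlim θ hθ0.le hθ1).sub (tendsto_finsetSum _ fun l hl => ?_)
      exact (ih l (mem_range.1 hl)).mul_const _
    have h2 := (Metric.tendsto_nhds.1 h1) (θ ^ k * (ε / 4)) (by positivity)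
    have h3 := (hlim 1 zero_le_one le_rfl).eventually_lt_const
      (show μ * Real.exp (-(lam * (1 - 1))) < μ + 1 by rw [hρ1]; linarith)
    filter_upwards [h2, h3] with n h2 h3
    obtain ⟨h4, h5⟩ := coef_bound (hf n) hθ0.le hθ1 (hG n 1 zero_le_one le_rfl) (hG n θ hθ0.le hθ1) k
    obtain ⟨h6, h7⟩ := coef_bound hρ0 hθ0.le hθ1 (hρs 1) (hρs θ) k
    rw [hρ1] at h7
    rw [Real.dist_eq] at h2 ⊢
    set X := G n θ - ∑ l ∈ range k, f n l * θ ^ l with hX
    set Z := μ * Real.exp (-(lam * (1 - θ))) - ∑ l ∈ range k, ρ l * θ ^ l with hZ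
    have h8 : |f n k - ρ k| * θ ^ k ≤ θ ^ k * (ε / 4) + θ ^ k * (θ * (2 * μ + 1)) := by
      rw [← abs_of_nonneg hpos.le, ← abs_mul, abs_of_nonneg hpos.le]
      rw [abs_lt] at h2
      have e1 : θ ^ (k + 1) = θ ^ k * θ := pow_succ _ _
      rw [e1] at h5 h7
      have h9 : θ ^ k * θ * G n 1 ≤ θ ^ k * θ * (μ + 1) :=
        mul_le_mul_of_nonneg_left h3.le (by positivity)
      have h10 : 0 ≤ θ ^ k * θ * μ := by positivity
      have h11 : 0 ≤ θ ^ k * θ := by positivity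
      rw [abs_le]
      constructor <;> nlinarith
    have h9 : |f n k - ρ k| ≤ ε / 4 + θ * (2 * μ + 1) := by
      have e2 : θ ^ k * (ε / 4) + θ ^ k * (θ * (2 * μ + 1)) = (ε / 4 + θ * (2 * μ + 1)) * θ ^ k := by ring
      rw [e2] at h8
      exact le_of_mul_le_mul_right h8 hpos
    linarith

end Run7.h93.GP
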