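import Mathlib
import Pool.Agent.Run7.h93.GP.Err

set_option autoImplicit false

/-!
# The joint law of the numbers of exponents in several sets of levels (after `Run7.h854.PO.Joint`)
-/

namespace Run7.h93.GP

open Finset Filter Topology MeasureTheory

open Classical in
/-- the indicator of the event -/
noncomputable def chi (Q : ℕ → ℕ → Prop) (p n : ℕ) : ℝ := if Q p n then 1 else 0

open Classical in
/-- the number of exponents in `T` -/
noncomputable def cnt (Q : ℕ → ℕ → Prop) (α : ℝ) (T : Finset ℕ) (β : ℝ) : ℕ :=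
  (T.filter (fun p => Q p ⌊β * α ^ p⌋₊)).card

lemma cnt_meas (Q : ℕ → ℕ → Prop) (α : ℝ) (T : Finset ℕ) : Measurable (cnt Q α T) := by
  classical
  have h1 : cnt Q α T = fun β => ∑ p ∈ T, if Q p ⌊β * α ^ p⌋₊ then 1 else 0 := by
    funext β
    unfold cnt
    rw [Finset.card_filter]
  rw [h1]
  refine Finset.measurable_fun_sum T fun p _ => ?_
  exact (measurable_from_nat (f := fun n : ℕ => if Q p n then 1 else 0)).comp
    (Nat.measurable_floor.comp (measurable_id.mul_const (α ^ p)))

lemma cnt_le (Q : ℕ → ℕ → Prop) (α : ℝ) (T : Finset ℕ) (β : ℝ) : cnt Q α T β ≤ T.card := by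
  classical
  unfold cnt
  exact Finset.card_filter_le _ _

lemma cntU (Q : ℕ → ℕ → Prop) (α : ℝ) (T : Finset ℕ) {φ : ℕ → ℝ} (h0 : ∀ n, 0 ≤ φ n)
    (h1 : ∀ n, φ n ≤ 1) : Un (fun β => φ (cnt Q α T β)) where
  m := (measurable_from_nat (f := φ)).comp (cnt_meas Q α T)
  n := fun _ => h0 _
  o := fun _ => h1 _

/-- the union of the sets -/
def UU {r : ℕ} (T : Fin r → Finset ℕ) : Finset ℕ := univ.biUnion T

/-- the hypotheses on the sets of levels -/
structure Thin {r : ℕ} (κ : ℝ) (T : ℕ → Fin r → Finset ℕ) (lam : Fin r → ℝ) : Prop where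
  disj : ∀ n, Pairwise fun s s' => Disjoint (T n s) (T n s')
  min : ∀ M : ℕ, ∀ᶠ n in atTop, ∀ p ∈ UU (T n), M < p
  thin : ∀ δ : ℝ, 0 < δ → ∀ᶠ n in atTop, ∀ x : ℕ,
    ∑ p ∈ (UU (T n)).filter (fun p => x < p ∧ p ≤ 2 * x), Real.log p / (p : ℝ) ≤ δ
  mass : ∀ s, Tendsto (fun n => κ * ∑ p ∈ T n s, Real.log p / (p : ℝ)) atTop (𝓝 (lam s))

/-- the weights -/
noncomputable def wt {r : ℕ} (T : Fin r → Finset ℕ) (θ : Fin r → ℝ) (p : ℕ) : ℝ :=
  ∑ s, if p ∈ T s then 1 - θ s else 0

lemma wt_eq {r : ℕ} {T : Fin r → Finset ℕ} (hd : Pairwise fun s s' => Disjoint (T s) (T s'))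
    (θ : Fin r → ℝ) {s : Fin r} {p : ℕ} (hp : p ∈ T s) : wt T θ p = 1 - θ s := by
  classical
  unfold wt
  rw [Finset.sum_eq_single s]
  · rw [if_pos hp]
  · intro s' _ hs'
    rw [if_neg]
    intro hp'
    exact Finset.disjoint_left.1 (hd hs') hp' hp
  · intro h
    exact absurd (mem_univ s) h

lemma wt_mem {r : ℕ} {T : Fin r → Finset ℕ} (hd : Pairwise fun s s' => Disjoint (T s) (T s'))
    {θ : Fin r → ℝ} (hθ : ∀ s, 0 ≤ θ s ∧ θ s ≤ 1) (p : ℕ) : 0 ≤ wt T θ p ∧ wt T θ p ≤ 1 := by
  classical
  by_cases h : ∃ s, p ∈ T s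
  · obtain ⟨s, hs⟩ := h
    rw [wt_eq hd θ hs]
    obtain ⟨h1, h2⟩ := hθ s
    constructor <;> linarith
  · push Not at h
    unfold wt
    rw [Finset.sum_eq_zero fun s _ => by rw [if_neg (h s)]]
    norm_num

/-- the generating function as a Laplace functional -/
lemma Phi_theta {r : ℕ} {T : Fin r → Finset ℕ} (hd : Pairwise fun s s' => Disjoint (T s) (T s'))
    (Q : ℕ → ℕ → Prop) (α : ℝ) (θ : Fin r → ℝ) (β : ℝ) :
    Phi α (chi Q) (wt T θ) (UU T) β = ∏ s, θ s ^ cnt Q α (T s) β := by
  classical
  unfold Phi UU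
  rw [Finset.prod_biUnion (fun s _ s' _ hss => hd hss)]
  refine Finset.prod_congr rfl fun s _ => ?_
  have h1 : ∀ p ∈ T s, (1 - wt T θ p * G α (chi Q) p β) =
      if Q p ⌊β * α ^ p⌋₊ then θ s else 1 := by
    intro p hp
    rw [wt_eq hd θ hp]
    unfold G chi
    split_ifs <;> ring
  rw [Finset.prod_congr rfl h1]
  unfold cnt
  rw [Finset.prod_ite, Finset.prod_const, Finset.prod_const_one, mul_one]

/-- the sum of the weights -/
lemma wt_sum {r : ℕ} {T : Fin r → Finset ℕ} (hd : Pairwise fun s s' => Disjoint (T s) (T s'))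
    (κ : ℝ) (θ : Fin r → ℝ) :
    ∑ q ∈ UU T, wt T θ q * (κ * lw q) =
      ∑ s, (1 - θ s) * (κ * ∑ p ∈ T s, Real.log p / (p : ℝ)) := by
  classical
  unfold UU
  rw [Finset.sum_biUnion (fun s _ s' _ hss => hd hss)]
  refine Finset.sum_congr rfl fun s _ => ?_
  rw [Finset.mul_sum, Finset.mul_sum]
  refine Finset.sum_congr rfl fun p hp => ?_
  rw [wt_eq hd θ hp]
  rfl

open Classical in
/-- the mixed generating function -/
noncomputable def fac {r : ℕ} (Q : ℕ → ℕ → Prop) (α : ℝ) (T : Fin r → Finset ℕ)
    (D : Finset (Fin r)) (θ : Fin r → ℝ) (k : Fin r → ℕ) (s : Fin r) (β : ℝ) : ℝ :=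
  if s ∈ D then (if cnt Q α (T s) β = k s then 1 else 0) else θ s ^ cnt Q α (T s) β

lemma facU {r : ℕ} (Q : ℕ → ℕ → Prop) (α : ℝ) (T : Fin r → Finset ℕ)
    (D : Finset (Fin r)) {θ : Fin r → ℝ} (hθ : ∀ s, 0 ≤ θ s ∧ θ s ≤ 1) (k : Fin r → ℕ) (s : Fin r) :
    Un (fac Q α T D θ k s) := by
  classical
  by_cases hs : s ∈ D
  · have e : fac Q α T D θ k s = fun β => (fun n : ℕ => if n = k s then (1 : ℝ) else 0) (cnt Q α (T s) β) := by
      funext β
      unfold fac
      rw [if_pos hs]
    rw [e]
    exact cntU Q α (T s) (φ := fun n : ℕ => if n = k s then (1 : ℝ) else 0)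
      (fun n => by show (0 : ℝ) ≤ (if n = k s then 1 else 0); split_ifs <;> norm_num)
      (fun n => by show (if n = k s then (1 : ℝ) else 0) ≤ 1; split_ifs <;> norm_num)
  · have e : fac Q α T D θ k s = fun β => (fun n : ℕ => θ s ^ n) (cnt Q α (T s) β) := by
      funext β
      unfold fac
      rw [if_neg hs]
    rw [e]
    exact cntU Q α (T s) (fun n => pow_nonneg (hθ s).1 n)
      (fun n => pow_le_one₀ (hθ s).1 (hθ s).2)

/-- the limit -/
noncomputable def LL {r : ℕ} (lam : Fin r → ℝ) (D : Finset (Fin r)) (θ : Fin r → ℝ)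
    (k : Fin r → ℕ) (s : Fin r) : ℝ :=
  if s ∈ D then Real.exp (-lam s) * lam s ^ k s / (k s).factorial
    else Real.exp (-(lam s * (1 - θ s)))

theorem joint {α κ : ℝ} {Q : ℕ → ℕ → Prop} (hS : Sys α κ (chi Q)) (hκpos : 0 < κ)
    {r : ℕ} {T : ℕ → Fin r → Finset ℕ} {lam : Fin r → ℝ} (hT : Thin κ T lam)
    {u v : ℝ} (hu : 0 < u) (huv : u < v) (D : Finset (Fin r)) :
    ∀ θ : Fin r → ℝ, (∀ s, 0 ≤ θ s ∧ θ s ≤ 1) → ∀ k : Fin r → ℕ,
    Tendsto (fun n => ∫ x in u..v, ∏ s, fac Q α (T n) D θ k s x) atTop
      (𝓝 ((v - u) * ∏ s, LL lam D θ k s)) := by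
  classical
  have hlam : ∀ s, 0 ≤ lam s := fun s => ge_of_tendsto' (hT.mass s) fun n =>
    mul_nonneg hκpos.le (Finset.sum_nonneg fun p _ => lw_nonneg p)
  induction D using Finset.induction_on with
  | empty =>
    intro θ hθ k
    obtain ⟨κ0, hκ0, hL⟩ := hS.laplace
    obtain ⟨C, hC, P, hP⟩ := hL u v hu huv
    -- the mass is bounded
    have hmass : ∀ᶠ n in atTop, ∑ p ∈ UU (T n), Real.log p / (p : ℝ) ≤
        ((∑ s, lam s) + 1) / κ := by
      have h2 : Tendsto (fun n => ∑ s, κ * ∑ p ∈ T n s, Real.log p / (p : ℝ)) atTop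
          (𝓝 (∑ s, lam s)) := tendsto_finsetSum _ fun s _ => hT.mass s
      filter_upwards [h2.eventually_lt_const (lt_add_one _)] with n hn
      rw [le_div_iff₀ hκpos]
      refine le_trans (le_of_eq ?_) hn.le
      unfold UU
      rw [Finset.sum_biUnion (fun s _ s' _ hss => hT.disj n hss), Finset.sum_mul]
      exact Finset.sum_congr rfl fun s _ => mul_comm _ _
    have herr := err_tendsto hκ0 (fun n => UU (T n)) hT.min hT.thin hmass
    have hsum : Tendsto (fun n => ∑ q ∈ UU (T n), wt (T n) θ q * (κ * lw q)) atTop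
        (𝓝 (∑ s, (1 - θ s) * lam s)) := by
      have h2 : Tendsto (fun n => ∑ s, (1 - θ s) * (κ * ∑ p ∈ T n s, Real.log p / (p : ℝ))) atTop
          (𝓝 (∑ s, (1 - θ s) * lam s)) := tendsto_finsetSum _ fun s _ => (hT.mass s).const_mul _
      refine h2.congr fun n => ?_
      rw [wt_sum (hT.disj n)]
    have hexp : Tendsto (fun n => (v - u) *
        Real.exp (-(∑ q ∈ UU (T n), wt (T n) θ q * (κ * lw q)))) atTop
        (𝓝 ((v - u) * ∏ s, LL lam ∅ θ k s)) := by
      have e : ∏ s, LL lam ∅ θ k s = Real.exp (-(∑ s, (1 - θ s) * lam s)) := by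
        unfold LL
        simp only [notMem_empty, if_false]
        rw [← Real.exp_sum, Finset.sum_neg_distrib]
        congr 2
        exact Finset.sum_congr rfl fun s _ => mul_comm _ _
      rw [e]
      exact ((Real.continuous_exp.tendsto _).comp hsum.neg).const_mul _
    have hdiff : Tendsto (fun n => (∫ x in u..v, ∏ s, fac Q α (T n) ∅ θ k s x) -
        (v - u) * Real.exp (-(∑ q ∈ UU (T n), wt (T n) θ q * (κ * lw q)))) atTop (𝓝 0) := by
      have h3 : Tendsto (fun n => C * err κ0 (UU (T n))) atTop (𝓝 0) := by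
        have := herr.const_mul C
        rwa [mul_zero] at this
      refine squeeze_zero_norm' ?_ h3
      filter_upwards [hT.min P] with n hn
      rw [Real.norm_eq_abs]
      have h4 := hP (UU (T n)) (fun p hp => (hn p hp).le) (wt (T n) θ)
        (wt_mem (hT.disj n) hθ)
      refine le_trans (le_of_eq ?_) h4
      congr 3
      funext x
      rw [Phi_theta (hT.disj n)]
      unfold fac
      simp only [notMem_empty, if_false]
    have := hdiff.add hexp
    simp only [sub_add_cancel, zero_add] at this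
    exact this
  | insert s0 D hs0 ih =>
    intro θ hθ k
    -- the other factors
    set R : ℕ → ℝ → ℝ := fun n x => ∏ s ∈ univ.erase s0, fac Q α (T n) D θ k s x with hR
    have hRU : ∀ n, Un (R n) := fun n => Un.prod _ fun s _ => facU Q α (T n) D hθ k s
    set Nn : ℕ → ℝ → ℕ := fun n x => cnt Q α (T n s0) x with hNn
    set μ := (v - u) * ∏ s ∈ univ.erase s0, LL lam D θ k s with hμ
    have hμ0 : 0 ≤ μ := by
      rw [hμ]
      refine mul_nonneg (by linarith) (Finset.prod_nonneg fun s _ => ?_)
      unfold LL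
      have := hlam s
      split_ifs
      · positivity
      · positivity
    have hIU : ∀ n j, Un (fun x => (if Nn n x = j then (1 : ℝ) else 0) * R n x) := by
      intro n j
      refine Un.mul (f := fun x => (if Nn n x = j then (1 : ℝ) else 0)) ?_ (hRU n)
      exact cntU Q α (T n s0) (φ := fun i => if i = j then (1 : ℝ) else 0)
        (fun i => by show (0 : ℝ) ≤ (if i = j then 1 else 0); split_ifs <;> norm_num)
        (fun i => by show (if i = j then (1 : ℝ) else 0) ≤ 1; split_ifs <;> norm_num)
    have hcont := cont_gf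
      (fun n j => ∫ x in u..v, (if Nn n x = j then (1 : ℝ) else 0) * R n x)
      (fun n ϑ => ∫ x in u..v, ϑ ^ (Nn n x) * R n x) μ (lam s0) (hlam s0) hμ0
      (fun n j => (hIU n j).int_nonneg huv.le)
      (fun n ϑ hϑ0 hϑ1 => ?_) (fun ϑ hϑ0 hϑ1 => ?_) (k s0)
    · -- the conclusion
      have e1 : ∀ n, ∫ x in u..v, ∏ s, fac Q α (T n) (insert s0 D) θ k s x =
          ∫ x in u..v, (if Nn n x = k s0 then (1 : ℝ) else 0) * R n x := by
        intro n
        congr 1
        funext x
        rw [← Finset.mul_prod_erase univ _ (mem_univ s0)]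
        congr 1
        · unfold fac
          rw [if_pos (mem_insert_self _ _)]
        · refine Finset.prod_congr rfl fun s hs => ?_
          have hss : s ≠ s0 := (mem_erase.1 hs).1
          unfold fac
          by_cases hsD : s ∈ D
          · rw [if_pos hsD, if_pos (mem_insert_of_mem hsD)]
          · rw [if_neg hsD, if_neg (by
              rw [mem_insert]
              push Not
              exact ⟨hss, hsD⟩)]
      have e2 : (v - u) * ∏ s, LL lam (insert s0 D) θ k s =
          μ * (Real.exp (-lam s0) * lam s0 ^ (k s0) / (k s0).factorial) := by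
        rw [← Finset.mul_prod_erase univ _ (mem_univ s0), hμ]
        have e3 : LL lam (insert s0 D) θ k s0 =
            Real.exp (-lam s0) * lam s0 ^ (k s0) / (k s0).factorial := by
          unfold LL
          rw [if_pos (mem_insert_self _ _)]
        have e4 : ∏ s ∈ univ.erase s0, LL lam (insert s0 D) θ k s =
            ∏ s ∈ univ.erase s0, LL lam D θ k s := by
          refine Finset.prod_congr rfl fun s hs => ?_
          have hss : s ≠ s0 := (mem_erase.1 hs).1
          unfold LL
          by_cases hsD : s ∈ D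
          · rw [if_pos hsD, if_pos (mem_insert_of_mem hsD)]
          · rw [if_neg hsD, if_neg (by
              rw [mem_insert]
              push Not
              exact ⟨hss, hsD⟩)]
        rw [e3, e4]
        ring
      rw [e2]
      exact hcont.congr fun n => (e1 n).symm
    · -- the generating function
      set J := range ((T n s0).card + 1) with hJ
      have h2 : HasSum (fun j => (∫ x in u..v, (if Nn n x = j then (1 : ℝ) else 0) * R n x) * ϑ ^ j)
          (∑ j ∈ J, (∫ x in u..v, (if Nn n x = j then (1 : ℝ) else 0) * R n x) * ϑ ^ j) := by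
        refine hasSum_sum_of_ne_finset_zero fun j hj => ?_
        have h3 : ∀ x, (if Nn n x = j then (1 : ℝ) else 0) * R n x = 0 := by
          intro x
          rw [if_neg, zero_mul]
          intro h4
          apply hj
          rw [hJ, mem_range, ← h4]
          exact Nat.lt_succ_of_le (cnt_le Q α (T n s0) x)
        simp only [h3]
        rw [intervalIntegral.integral_zero, zero_mul]
      have h5 : ∑ j ∈ J, (∫ x in u..v, (if Nn n x = j then (1 : ℝ) else 0) * R n x) * ϑ ^ j =
          ∫ x in u..v, ϑ ^ (Nn n x) * R n x := by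
        have h6 : ∀ j ∈ J, (∫ x in u..v, (if Nn n x = j then (1 : ℝ) else 0) * R n x) * ϑ ^ j =
            ∫ x in u..v, (if Nn n x = j then (1 : ℝ) else 0) * R n x * ϑ ^ j := by
          intro j _
          rw [intervalIntegral.integral_mul_const]
        rw [Finset.sum_congr rfl h6,
          ← intervalIntegral.integral_finsetSum (fun j _ => ((hIU n j).ii u v).mul_const _)]
        congr 1
        funext x
        rw [Finset.sum_eq_single (Nn n x)]
        · rw [if_pos rfl]; ring
        · intro j _ hj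
          rw [if_neg (fun h => hj h.symm)]; ring
        · intro h7
          exfalso
          apply h7
          rw [hJ, mem_range]
          exact Nat.lt_succ_of_le (cnt_le Q α (T n s0) x)
      rw [h5] at h2
      exact h2
    · -- the limit of the generating function
      have h2 := ih (Function.update θ s0 ϑ) (fun s => by
        by_cases hs : s = s0
        · rw [hs, Function.update_self]
          exact ⟨hϑ0, hϑ1⟩
        · rw [Function.update_of_ne hs]
          exact hθ s) k
      have e1 : ∀ n, ∫ x in u..v, ∏ s, fac Q α (T n) D (Function.update θ s0 ϑ) k s x =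
          ∫ x in u..v, ϑ ^ (Nn n x) * R n x := by
        intro n
        congr 1
        funext x
        rw [← Finset.mul_prod_erase univ _ (mem_univ s0)]
        congr 1
        · unfold fac
          rw [if_neg hs0, Function.update_self]
        · refine Finset.prod_congr rfl fun s hs => ?_
          have hss : s ≠ s0 := (mem_erase.1 hs).1
          unfold fac
          rw [Function.update_of_ne hss]
      have e2 : (v - u) * ∏ s, LL lam D (Function.update θ s0 ϑ) k s =
          μ * Real.exp (-(lam s0 * (1 - ϑ))) := by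
        rw [← Finset.mul_prod_erase univ _ (mem_univ s0), hμ]
        have e3 : LL lam D (Function.update θ s0 ϑ) k s0 = Real.exp (-(lam s0 * (1 - ϑ))) := by
          unfold LL
          rw [if_neg hs0, Function.update_self]
        have e4 : ∏ s ∈ univ.erase s0, LL lam D (Function.update θ s0 ϑ) k s =
            ∏ s ∈ univ.erase s0, LL lam D θ k s := by
          refine Finset.prod_congr rfl fun s hs => ?_
          have hss : s ≠ s0 := (mem_erase.1 hs).1
          unfold LL
          rw [Function.update_of_ne hss]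
        rw [e3, e4]
        ring
      rw [e2] at h2
      exact h2.congr e1

end Run7.h93.GP
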