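import Mathlib
import Pool.Agent.N176.GW.Stm
import Pool.Agent.N222.GW.CL
import Pool.Agent.Run7.h854.PO.Up
import Pool.Agent.Run7.h93.GP.Joint

set_option autoImplicit false

/-!
# Real bases: the inputs from the means over cells and from the sieve
-/

namespace Run7.h93.GP

open Finset Filter Topology MeasureTheory
open Pool.Agent.H305R2 (roughPart ff)
open Pool.Agent.N176.GW

/-- the event -/
def QQ (p n : ℕ) : Prop := (roughPart p n).Prime

lemma chi_n (Q : ℕ → ℕ → Prop) (p n : ℕ) : 0 ≤ chi Q p n := by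
  unfold chi; split_ifs <;> norm_num

lemma chi_o (Q : ℕ → ℕ → Prop) (p n : ℕ) : chi Q p n ≤ 1 := by
  unfold chi; split_ifs <;> norm_num

lemma chi_QQ (p n : ℕ) : chi QQ p n = if (roughPart p n).Prime then (1 : ℝ) else 0 := by
  classical
  unfold chi QQ
  congr

lemma hhU (p : ℕ) : Un (hh (chi QQ) p) where
  m := (measurable_from_nat (f := chi QQ p)).comp Nat.measurable_floor
  n := fun _ => chi_n _ _ _
  o := fun _ => chi_o _ _ _

lemma int_hh' (p : ℕ) {V0 V1 : ℕ} (hV : V0 ≤ V1) :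
    ∫ x in (V0 : ℝ)..(V1 : ℝ), hh (chi QQ) p x =
      ∑ n ∈ Ico V0 V1, (if (roughPart p n).Prime then (1 : ℝ) else 0) := by
  have hone : Un (fun _ : ℝ => (1 : ℝ)) := ⟨measurable_const, fun _ => zero_le_one, fun _ => le_rfl⟩
  have h1 := cell_sum (A := 1) one_pos (chi_n QQ p) (chi_o QQ p) hone hV
  simp only [div_one, mul_one, intervalIntegral.integral_const, smul_eq_mul] at h1
  unfold hh
  rw [h1]
  refine Finset.sum_congr rfl fun n _ => ?_
  rw [chi_QQ]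
  ring

/-- comparison of the two integrals -/
lemma ff_hh (q : ℕ) {X Y : ℝ} (hX : 1 ≤ X) (hXY : X + 1 ≤ Y) :
    |(∫ x in X..Y, hh (chi QQ) q x) -
      ∫ u in (Real.log X)..(Real.log Y), Real.exp u * ff q u| ≤ 4 := by
  have h1 : X ≤ ⌈X⌉₊ := Nat.le_ceil X
  have h2 : (⌈X⌉₊ : ℝ) < X + 1 := Nat.ceil_lt_add_one (by linarith)
  have h3 : (⌊Y⌋₊ : ℝ) ≤ Y := Nat.floor_le (by linarith)
  have h4 : Y < ⌊Y⌋₊ + 1 := Nat.lt_floor_add_one Y
  have h5 : ⌈X⌉₊ ≤ ⌊Y⌋₊ := Nat.le_floor (by linarith)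
  have h6 : 1 ≤ ⌈X⌉₊ := Nat.one_le_ceil_iff.2 (by linarith)
  have h7 := Pool.Agent.N222.GW.int_near q ⌈X⌉₊ ⌊Y⌋₊ X Y (by linarith) h6 h1 h5 h3
  have h8 := (hhU q).int_cut (a := (⌈X⌉₊ : ℝ)) (b := (⌊Y⌋₊ : ℝ)) (c := X) (d := Y) h1 h3
  rw [int_hh' q h5] at h8
  set s := ∑ n ∈ Ico ⌈X⌉₊ ⌊Y⌋₊, (if (roughPart q n).Prime then (1 : ℝ) else 0)
  rw [abs_le] at h7 h8 ⊢
  constructor <;> linarith [h7.1, h7.2, h8.1, h8.2]

lemma small (c K : ℝ) (hc : 0 < c) : ∃ P : ℕ, ∀ x ≥ P, K * (x : ℝ) ^ 2 * Real.exp (-(c * x)) ≤ 1 := by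
  have h1 : Tendsto (fun x : ℝ => x ^ 2 * Real.exp (-c * x)) atTop (𝓝 0) := by
    have := Real.tendsto_pow_mul_exp_neg_atTop_nhds_zero 2
    have h2 := (this.comp (Tendsto.const_mul_atTop hc tendsto_id)).const_mul (1 / c ^ 2)
    rw [mul_zero] at h2
    refine h2.congr fun x => ?_
    simp only [Function.comp, id]
    field_simp
  have h2 := (h1.comp tendsto_natCast_atTop_atTop).const_mul K
  rw [mul_zero] at h2
  obtain ⟨P2, hP2⟩ := (h2.eventually_le_const (show (0 : ℝ) < 1 by norm_num)).exists_forall_of_atTop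
  refine ⟨P2, fun q hq => ?_⟩
  have h3 := hP2 q hq
  simp only [Function.comp] at h3
  refine le_trans (le_of_eq ?_) h3
  have e : -c * (q : ℝ) = -(c * q) := by ring
  rw [e]
  ring

/-- the upper bound -/
lemma up_inst (c : ℝ) (hc : 0 < c) : ∃ C : ℝ, 0 < C ∧ ∃ P : ℕ, ∀ q ≥ P, ∀ H : ℕ,
    Real.exp (c * q) ≤ H → ∀ u : ℕ, ∑ n ∈ Ico u (u + H), chi QQ q n ≤ C * lw q * H := by
  classical
  obtain ⟨C, hC, P, hP⟩ := Run7.h854.PO.short_up c hc
  refine ⟨C, hC, P, fun q hq H hH u => ?_⟩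
  refine le_trans (le_of_eq ?_) (hP q hq H hH u)
  rw [Finset.card_filter, Nat.cast_sum]
  refine Finset.sum_congr rfl fun n _ => ?_
  rw [chi_QQ]
  push_cast
  rfl

/-- the means over the cells -/
lemma fm_inst {α : ℝ} (ha : 1 < α) (hFM : S_FM α) :
    ∃ κ0 : ℝ, 0 < κ0 ∧ κ0 ≤ 1 / 2 ∧ ∀ m0 : ℕ, ∃ C : ℝ, 0 < C ∧ ∃ P : ℕ, ∀ q ≥ P, ∀ z : ℕ,
    m0 ≤ z → (z : ℝ) ≤ κ0 * q → ∑ j ∈ Ico ⌊α ^ (z - m0)⌋₊ ⌈α ^ (z + m0)⌉₊,
      |(∫ x in ((j : ℝ) / α ^ z)..(((j : ℝ) + 1) / α ^ z), G α (chi QQ) q x) -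
        kr α * lw q / α ^ z| ≤ C / q := by
  obtain ⟨κ0, K, hκ0, hK, hfm⟩ := hFM
  have hα0 : 0 < α := zero_lt_one.trans ha
  have hL : 0 < Real.log α := Real.log_pos ha
  refine ⟨min κ0 (1 / 2), lt_min hκ0 (by norm_num), min_le_right _ _, fun m0 => ?_⟩
  obtain ⟨P1, hP1⟩ := hfm m0
  obtain ⟨P2, hP2⟩ := small (Real.log α / 2) 1 (by positivity)
  have hlim : Tendsto (fun q : ℕ => (Real.log q) ^ 2 / q) atTop (𝓝 0) := by
    have h1 := (Real.isLittleO_pow_log_id_atTop (n := 2)).tendsto_div_nhds_zero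
    have h2 := h1.comp tendsto_natCast_atTop_atTop
    exact h2
  obtain ⟨P3, hP3⟩ := eventually_atTop.1 (hlim.eventually_le_const (show (0 : ℝ) < 1 by norm_num))
  refine ⟨1 + 2 * α ^ m0 * (K + 4), by positivity, max (max P1 P2) (max P3 2), fun q hq z hz1 hz2 => ?_⟩
  have hq2 : 2 ≤ q := by omega
  have hq2r : (2 : ℝ) ≤ q := by exact_mod_cast hq2
  have hq0 : (0 : ℝ) < q := by linarith
  have hz3 : (z : ℝ) ≤ κ0 * q := hz2.trans (mul_le_mul_of_nonneg_right (min_le_left _ _) hq0.le)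
  have hz4 : (z : ℝ) ≤ 1 / 2 * q := hz2.trans (mul_le_mul_of_nonneg_right (min_le_right _ _) hq0.le)
  have hzq : z ≤ q := by
    have : (z : ℝ) ≤ q := by linarith
    exact_mod_cast this
  have h0 := hP1 q (by omega) z hz1 hz3
  set A := α ^ z with hA
  set B := α ^ (q - z) with hB
  have hA0 : 0 < A := by rw [hA]; positivity
  have hB0 : 0 < B := by rw [hB]; positivity
  have hAB : α ^ q = A * B := by rw [hA, hB, ← pow_add]; congr 1; omega
  have hBq : (q : ℝ) ^ 2 ≤ B := by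
    have h1 := hP2 q (by omega)
    rw [one_mul, Real.exp_neg, ← div_eq_mul_inv, div_le_one (Real.exp_pos _)] at h1
    refine h1.trans ?_
    rw [hB, ← Real.exp_log (pow_pos hα0 (q - z)), Real.exp_le_exp, Real.log_pow, Nat.cast_sub hzq]
    nlinarith
  have hBq' : (q : ℝ) ≤ B := by nlinarith
  have hB1 : 1 ≤ B := by linarith
  set J := Ico ⌊α ^ (z - m0)⌋₊ ⌈α ^ (z + m0)⌉₊ with hJ
  -- one cell
  have hcell : ∀ j ∈ J, |(∫ x in ((j : ℝ) / A)..(((j : ℝ) + 1) / A), G α (chi QQ) q x) -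
      kr α * lw q / A| ≤ 1 / A * (max 0 (|(∫ u in (Real.log (j * B))..(Real.log (((j : ℝ) + 1) * B)),
        Real.exp u * ff q u) / B - kr α * (Real.log q / q)| - K / q) + (K / q + 4 / B)) := by
    intro j hj
    rw [hJ, mem_Ico] at hj
    have hj1 : 1 ≤ j := by
      refine le_trans ?_ hj.1
      exact Nat.le_floor (by simpa using one_le_pow₀ ha.le)
    have hj1r : (1 : ℝ) ≤ j := by exact_mod_cast hj1
    have e1 : ∫ x in ((j : ℝ) / A)..(((j : ℝ) + 1) / A), G α (chi QQ) q x =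
        (A * B)⁻¹ * ∫ x in (j * B)..(((j : ℝ) + 1) * B), hh (chi QQ) q x := by
      have h1 := intervalIntegral.integral_comp_mul_right (a := (j : ℝ) / A)
        (b := ((j : ℝ) + 1) / A) (fun x => hh (chi QQ) q x) (pow_pos hα0 q).ne'
      rw [smul_eq_mul] at h1
      have e2 : (j : ℝ) / A * α ^ q = j * B := by rw [hAB]; field_simp
      have e3 : ((j : ℝ) + 1) / A * α ^ q = (j + 1) * B := by rw [hAB]; field_simp
      rw [e2, e3, hAB] at h1
      rw [← h1]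
      unfold G hh
      rw [hAB]
    have h2 := ff_hh q (X := j * B) (Y := ((j : ℝ) + 1) * B) (by nlinarith) (by nlinarith)
    set I1 := ∫ x in (j * B)..(((j : ℝ) + 1) * B), hh (chi QQ) q x
    set I2 := ∫ u in (Real.log (j * B))..(Real.log (((j : ℝ) + 1) * B)), Real.exp u * ff q u
    have e2 : (A * B)⁻¹ * I1 - kr α * lw q / A =
        1 / A * ((I1 - I2) / B + (I2 / B - kr α * (Real.log q / q))) := by
      unfold lw
      field_simp
      ring
    rw [e1, e2, abs_mul, abs_of_pos (by positivity : 0 < 1 / A)]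
    refine mul_le_mul_of_nonneg_left ?_ (by positivity)
    have h3 := abs_add_le ((I1 - I2) / B) (I2 / B - kr α * (Real.log q / q))
    have h4 : |(I1 - I2) / B| ≤ 4 / B := by
      rw [abs_div, abs_of_pos hB0]
      exact div_le_div_of_nonneg_right h2 hB0.le
    have h5 := le_max_right 0 (|I2 / B - kr α * (Real.log q / q)| - K / q)
    linarith
  refine (Finset.sum_le_sum hcell).trans ?_
  rw [← Finset.mul_sum, Finset.sum_add_distrib, Finset.sum_const, nsmul_eq_mul]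
  have hcard : (J.card : ℝ) ≤ 2 * α ^ m0 * A := by
    have h1 : J.card ≤ ⌈α ^ (z + m0)⌉₊ := by
      rw [hJ, Nat.card_Ico]; exact Nat.sub_le _ _
    have h2 : (J.card : ℝ) ≤ ⌈α ^ (z + m0)⌉₊ := by exact_mod_cast h1
    have h3 := Nat.ceil_lt_add_one (by positivity : 0 ≤ α ^ (z + m0))
    have h4 : 1 ≤ α ^ (z + m0) := one_le_pow₀ ha.le
    have h5 : α ^ (z + m0) = A * α ^ m0 := by rw [pow_add]
    nlinarith
  have h6 : K / q + 4 / B ≤ (K + 4) / q := by
    have : 4 / B ≤ 4 / q := by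
      apply div_le_div_of_nonneg_left (by norm_num) hq0 hBq'
    rw [add_div]
    linarith
  have h7 : (Real.log q) ^ 2 / q ^ 2 ≤ 1 / q := by
    have h8 := hP3 q (by omega)
    have e : (Real.log q) ^ 2 / (q : ℝ) ^ 2 = (Real.log q) ^ 2 / q * (1 / q) := by field_simp
    rw [e]
    exact mul_le_of_le_one_left (by positivity) h8
  have h8 : (J.card : ℝ) * (K / q + 4 / B) ≤ 2 * α ^ m0 * A * ((K + 4) / q) :=
    mul_le_mul hcard h6 (by positivity) (by positivity)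
  have h9 : A * ((Real.log q) ^ 2 / q ^ 2) ≤ A * (1 / q) := mul_le_mul_of_nonneg_left h7 hA0.le
  calc 1 / A * (∑ j ∈ J, max 0 (|(∫ u in (Real.log (j * B))..(Real.log (((j : ℝ) + 1) * B)),
        Real.exp u * ff q u) / B - kr α * (Real.log q / q)| - K / q) + J.card * (K / q + 4 / B)) ≤
      1 / A * (A * (1 / q) + 2 * α ^ m0 * A * ((K + 4) / q)) := by
        refine mul_le_mul_of_nonneg_left ?_ (by positivity)
        linarith
    _ = _ := by field_simp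

end Run7.h93.GP
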