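import Mathlib
import Pool.Agent.Run7.h93.GP.Inst

set_option autoImplicit false

/-!
# Real bases: two exponents within a factor two, from the sieve bound for several exponents
-/

namespace Run7.h93.GP

open Finset Filter Topology MeasureTheory
open Pool.Agent.H305R2 (roughPart ff)
open Pool.Agent.N176.GW

open Classical in
/-- the event of two exponents for the integer `n` of the level `t` -/
noncomputable def two (α : ℝ) (t : ℕ) (F : Finset ℕ) (n : ℕ) : ℝ :=
  if F ⊆ hits α (fun _ => 0) F t n then 1 else 0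

lemma two_n (α : ℝ) (t : ℕ) (F : Finset ℕ) (n : ℕ) : 0 ≤ two α t F n := by
  unfold two; split_ifs <;> norm_num

lemma two_o (α : ℝ) (t : ℕ) (F : Finset ℕ) (n : ℕ) : two α t F n ≤ 1 := by
  unfold two; split_ifs <;> norm_num

lemma sum_biUnion_le {s : Finset ℕ} {t : ℕ → Finset ℕ} {f : ℕ → ℝ} (hf : ∀ n, 0 ≤ f n) :
    ∑ n ∈ s.biUnion t, f n ≤ ∑ j ∈ s, ∑ n ∈ t j, f n := by
  classical
  induction s using Finset.induction_on with
  | empty => simp
  | insert a s ha ih =>
    rw [Finset.biUnion_insert, Finset.sum_insert ha]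
    have h1 := Finset.sum_union_inter (s₁ := t a) (s₂ := s.biUnion t) (f := f)
    have h2 : 0 ≤ ∑ n ∈ t a ∩ s.biUnion t, f n := Finset.sum_nonneg fun n _ => hf n
    linarith

/-- the count in all cells -/
lemma count_cells {α : ℝ} (ha : 1 < α) (hK : S_K α (fun _ => 0)) (hRB : S_RB α (fun _ => 0))
    {u v : ℝ} (hu : 0 < u) (huv : u < v) (m : ℕ) (hm1 : 2 ≤ u * α ^ m) (hm2 : v ≤ α ^ m) :
    ∃ C : ℝ, 1 ≤ C ∧ ∃ d : ℝ, 0 < d ∧ ∃ P : ℕ, ∀ x ≥ P, ∀ p q : ℕ, x < p → p < q → q ≤ 2 * x →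
      ∑ n ∈ Ico ⌊u * α ^ (4 * x)⌋₊ (⌊v * α ^ (4 * x)⌋₊ + 1), two α (4 * x) {p, q} n ≤
        v * α ^ (4 * x) * ((C * 2 * (Real.log x / x)) ^ 2 + Real.exp (-(d * x))) := by
  classical
  obtain ⟨C, hC, P1, hP1⟩ := hK
  obtain ⟨d, hd, P2, hP2⟩ := hRB
  have hα0 : 0 < α := zero_lt_one.trans ha
  have hlog : Tendsto (fun x : ℕ => Real.log x) atTop atTop :=
    Real.tendsto_log_atTop.comp tendsto_natCast_atTop_atTop
  obtain ⟨P3, hP3⟩ := (hlog.eventually_ge_atTop 4).exists_forall_of_atTop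
  refine ⟨C, hC, d, hd, max (max P1 P2) (max P3 (64 * m + 1)), fun x hx p q hxp hpq hqx => ?_⟩
  have hxm : 64 * m ≤ x := by omega
  have hmt : m ≤ 4 * x := by omega
  have hv0 : 0 < v := hu.trans huv
  set t := 4 * x with ht
  set F : Finset ℕ := {p, q} with hF
  have hFc : F.card = 2 := by rw [hF]; exact Finset.card_pair hpq.ne
  have hFm : ∀ r ∈ F, x < r ∧ r ≤ 2 * x := by
    intro r hr
    rw [hF, mem_insert, mem_singleton] at hr
    rcases hr with h | h <;> subst h <;> constructor <;> omega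
  have hFn : F.Nonempty := ⟨p, by rw [hF]; exact mem_insert_self _ _⟩
  have hFl : (F.card : ℝ) ^ 2 ≤ Real.log x := by
    rw [hFc]
    have := hP3 x (by omega)
    norm_num
    exact this
  set D := α ^ (t - m) with hD
  have hD0 : 0 < D := by rw [hD]; positivity
  have hDt : α ^ t = α ^ m * D := by rw [hD, ← pow_add]; congr 1; omega
  have hDt1 : 1 ≤ D := one_le_pow₀ ha.le
  set J := Icc 1 ⌊v * α ^ m⌋₊ with hJ
  -- one cell
  have hcell : ∀ j ∈ J, ∑ n ∈ cell α m t j, two α t F n ≤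
      ((C * 2 * (Real.log x / x)) ^ 2 + Real.exp (-(d * x))) * D := by
    intro j hj
    rw [hJ, mem_Icc] at hj
    have hj2 : (j : ℝ) ≤ α ^ (2 * m) := by
      have h1 : (j : ℝ) ≤ v * α ^ m := (Nat.le_floor_iff (by positivity)).1 hj.2
      refine h1.trans ?_
      rw [two_mul, pow_add]
      exact mul_le_mul_of_nonneg_right hm2 (by positivity)
    have h1 := hP1 x (by omega) F hFn hFm hFl m hxm t le_rfl j hj.1 hj2
    have h2 := hP2 x (by omega) F hFm m hxm t le_rfl j hj.1 hj2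
    rw [hFc] at h1
    push_cast at h1
    have h3 : ∑ n ∈ cell α m t j, two α t F n ≤
        (((cell α m t j).filter (fun n => ¬ Big α (fun _ => 0) F t x n ∧
          F ⊆ hits α (fun _ => 0) F t n)).card : ℝ) +
        (((cell α m t j).filter (fun n => Big α (fun _ => 0) F t x n)).card : ℝ) := by
      rw [Finset.card_filter, Finset.card_filter, Nat.cast_sum, Nat.cast_sum,
        ← Finset.sum_add_distrib]
      refine Finset.sum_le_sum fun n _ => ?_
      unfold two
      by_cases hB : Big α (fun _ => 0) F t x n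
      · have hn : ¬ (¬ Big α (fun _ => 0) F t x n ∧ F ⊆ hits α (fun _ => 0) F t n) :=
          fun h => h.1 hB
        rw [if_neg hn, if_pos hB]
        split_ifs <;> norm_num
      · by_cases hH : F ⊆ hits α (fun _ => 0) F t n
        · rw [if_pos hH, if_pos ⟨hB, hH⟩, if_neg hB]
          norm_num
        · have hn : ¬ (¬ Big α (fun _ => 0) F t x n ∧ F ⊆ hits α (fun _ => 0) F t n) :=
            fun h => hH h.2
          rw [if_neg hH, if_neg hn, if_neg hB]
          norm_num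
    have h4 : ((C * 2 * (Real.log x / x)) ^ 2 + Real.exp (-(d * x))) * D =
        (C * 2 * (Real.log x / x)) ^ 2 * D + Real.exp (-(d * x)) * D := by ring
    rw [h4]
    linarith
  -- covering
  have hcov : Ico ⌊u * α ^ t⌋₊ (⌊v * α ^ t⌋₊ + 1) ⊆ J.biUnion (fun j => cell α m t j) := by
    intro n hn
    rw [mem_Ico] at hn
    have hn1 : u * α ^ t < n + 1 := by
      have h1 := Nat.lt_floor_add_one (u * α ^ t)
      have h2 : (⌊u * α ^ t⌋₊ : ℝ) ≤ n := by exact_mod_cast hn.1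
      linarith
    have hn2 : (n : ℝ) ≤ v * α ^ t := by
      have h1 : n ≤ ⌊v * α ^ t⌋₊ := by omega
      exact (Nat.le_floor_iff (by positivity)).1 h1
    have hnD : 0 ≤ (n : ℝ) / D := by positivity
    have h1 := Nat.floor_le hnD
    have h2 := Nat.lt_floor_add_one ((n : ℝ) / D)
    rw [le_div_iff₀ hD0] at h1
    rw [div_lt_iff₀ hD0] at h2
    rw [mem_biUnion]
    refine ⟨⌊(n : ℝ) / D⌋₊, ?_, ?_⟩
    · rw [hJ, mem_Icc]
      constructor
      · apply Nat.le_floor
        rw [le_div_iff₀ hD0]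
        have h3 : 2 * D ≤ u * α ^ t := by
          rw [hDt, ← mul_assoc]
          exact mul_le_mul_of_nonneg_right hm1 hD0.le
        push_cast
        linarith
      · apply Nat.floor_le_floor
        rw [div_le_iff₀ hD0, mul_assoc, ← hDt]
        exact hn2
    · unfold cell
      rw [mem_Ico, Nat.lt_ceil]
      refine ⟨?_, h2⟩
      have h3 : ⌊((⌊(n : ℝ) / D⌋₊ : ℕ) : ℝ) * D⌋₊ ≤ ⌊(n : ℝ)⌋₊ := Nat.floor_le_floor h1
      rwa [Nat.floor_natCast] at h3
  have h5 : (J.card : ℝ) ≤ v * α ^ m := by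
    rw [hJ, Nat.card_Icc, Nat.add_sub_cancel]
    exact Nat.floor_le (by positivity)
  set Z := (C * 2 * (Real.log x / x)) ^ 2 + Real.exp (-(d * x)) with hZ
  have hZ0 : 0 ≤ Z := by rw [hZ]; positivity
  calc ∑ n ∈ Ico ⌊u * α ^ t⌋₊ (⌊v * α ^ t⌋₊ + 1), two α t F n ≤
      ∑ n ∈ J.biUnion (fun j => cell α m t j), two α t F n :=
        Finset.sum_le_sum_of_subset_of_nonneg hcov fun n _ _ => two_n _ _ _ _
    _ ≤ ∑ j ∈ J, ∑ n ∈ cell α m t j, two α t F n := sum_biUnion_le (two_n _ _ _)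
    _ ≤ ∑ j ∈ J, Z * D := Finset.sum_le_sum hcell
    _ = J.card * (Z * D) := by rw [Finset.sum_const, nsmul_eq_mul]
    _ ≤ v * α ^ m * (Z * D) := mul_le_mul_of_nonneg_right h5 (by positivity)
    _ = _ := by rw [hDt]; ring

lemma lv_zero (α : ℝ) (t p n : ℕ) : lv α (fun _ => 0) t p n = ⌊(n : ℝ) / α ^ (t - p)⌋₊ := by
  unfold lv
  rw [add_zero]

/-- two exponents within a factor two -/
lemma pc_inst {α : ℝ} (ha : 1 < α) (hK : S_K α (fun _ => 0)) (hRB : S_RB α (fun _ => 0))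
    (u v : ℝ) (hu : 0 < u) (huv : u < v) : ∃ C : ℝ, 0 < C ∧ ∃ P : ℕ, ∀ p ≥ P, ∀ q, p < q →
    q ≤ 2 * (p - 1) → ∫ x in u..v, G α (chi QQ) p x * G α (chi QQ) q x ≤ C * (lw p * lw q) := by
  classical
  have hα0 : 0 < α := zero_lt_one.trans ha
  have hL : 0 < Real.log α := Real.log_pos ha
  have hv0 : 0 < v := hu.trans huv
  obtain ⟨m, hm1, hm2⟩ : ∃ m : ℕ, 2 ≤ u * α ^ m ∧ v ≤ α ^ m := by
    obtain ⟨a, hA⟩ := pow_unbounded_of_one_lt (2 / u) ha
    obtain ⟨b, hB⟩ := pow_unbounded_of_one_lt v ha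
    refine ⟨a + b, ?_, ?_⟩
    · have h1 : α ^ a ≤ α ^ (a + b) := pow_le_pow_right₀ ha.le (by omega)
      rw [div_lt_iff₀ hu] at hA
      nlinarith
    · exact hB.le.trans (pow_le_pow_right₀ ha.le (by omega))
  obtain ⟨C, hC, d, hd, P1, hP1⟩ := count_cells ha hK hRB hu huv m hm1 hm2
  obtain ⟨P2, hP2⟩ := small d 1 hd
  obtain ⟨P3, hP3⟩ := small (Real.log α) (4 * (v - u + 5)) hL
  have hlog : Tendsto (fun x : ℕ => Real.log x) atTop atTop :=
    Real.tendsto_log_atTop.comp tendsto_natCast_atTop_atTop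
  obtain ⟨P4, hP4⟩ := (hlog.eventually_ge_atTop 4).exists_forall_of_atTop
  refine ⟨v * (16 * C ^ 2 + 1) + 1 + 2 * v, by positivity, max (max P1 P2) (max P3 (max P4 2)) + 1,
    fun p hp q hpq hq => ?_⟩
  obtain ⟨x, hx⟩ : ∃ x : ℕ, x = p - 1 := ⟨_, rfl⟩
  have hxP1 : P1 ≤ x := by omega
  have hxP2 : P2 ≤ x := by omega
  have hxP3 : P3 ≤ x := by omega
  have hxP4 : P4 ≤ x := by omega
  have hx2 : 2 ≤ x := by omega
  have hpx : p = x + 1 := by omega
  have hqx : q ≤ 2 * x := by omega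
  have hx2r : (2 : ℝ) ≤ x := by exact_mod_cast hx2
  have hx0 : (0 : ℝ) < x := by linarith
  have hlx : 4 ≤ Real.log x := hP4 x hxP4
  have hcnt := hP1 x hxP1 p q (by omega) hpq hqx
  set t := 4 * x with ht
  set A := α ^ t with hA
  have hA0 : 0 < A := by rw [hA]; positivity
  have hA1 : 1 ≤ A := by rw [hA]; exact one_le_pow₀ ha.le
  set F : Finset ℕ := {p, q} with hF
  -- the comparison function
  have hTU : Un (fun y : ℝ => two α t F ⌊y * A⌋₊) := un_floor (two_n α t F) (two_o α t F) A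
  have hGp : Un (G α (chi QQ) p) := un_floor (chi_n QQ p) (chi_o QQ p) _
  have hGq : Un (G α (chi QQ) q) := un_floor (chi_n QQ q) (chi_o QQ q) _
  have hGG : Un (fun y => G α (chi QQ) p y * G α (chi QQ) q y) := hGp.mul hGq
  -- the exceptional set
  have hdec : ∀ r : ℕ, r ≤ 2 * x → (α ^ (t - r))⁻¹ ≤ Real.exp (-(Real.log α * x)) := by
    intro r hr
    rw [Real.exp_neg]
    apply inv_anti₀ (Real.exp_pos _)
    rw [← Real.exp_log (pow_pos hα0 (t - r)), Real.exp_le_exp, Real.log_pow]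
    have h1 : x ≤ t - r := by omega
    have h2 : (x : ℝ) ≤ ((t - r : ℕ) : ℝ) := by exact_mod_cast h1
    nlinarith
  set E := Real.exp (-(Real.log α * x)) with hE
  have hE0 : 0 < E := Real.exp_pos _
  set S := near (α ^ p) ((α ^ (t - p))⁻¹) u v ∪ near (α ^ q) ((α ^ (t - q))⁻¹) u v with hS
  have hSm : MeasurableSet S := (near_meas _ _ _ _).union (near_meas _ _ _ _)
  have hone : ∀ r : ℕ, r ≤ 2 * x → volume (near (α ^ r) ((α ^ (t - r))⁻¹) u v) ≤
      ENNReal.ofReal (2 * (v - u + 5) * E) := by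
    intro r hr
    have hp0 : 0 < α ^ r := by positivity
    have hp1 : 1 ≤ α ^ r := one_le_pow₀ ha.le
    refine (near_vol hp0 (by positivity) huv.le).trans (ENNReal.ofReal_le_ofReal ?_)
    calc ((v - u) * α ^ r + 5) * (2 * (α ^ (t - r))⁻¹ / α ^ r) ≤
        ((v - u + 5) * α ^ r) * (2 * (α ^ (t - r))⁻¹ / α ^ r) := by
          refine mul_le_mul_of_nonneg_right ?_ (by positivity)
          nlinarith
      _ = 2 * (v - u + 5) * (α ^ (t - r))⁻¹ := by field_simp
      _ ≤ _ := mul_le_mul_of_nonneg_left (hdec r hr) (by linarith)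
  have hδ0 : 0 ≤ 4 * (v - u + 5) * E := by
    have : 0 < v - u + 5 := by linarith
    positivity
  have hSv : volume S ≤ ENNReal.ofReal (4 * (v - u + 5) * E) := by
    refine (measure_union_le _ _).trans ((add_le_add (hone p (by omega)) (hone q hqx)).trans ?_)
    have h1 : 0 ≤ 2 * (v - u + 5) * E := by
      have : 0 < v - u + 5 := by linarith
      positivity
    rw [← ENNReal.ofReal_add h1 h1]
    refine ENNReal.ofReal_le_ofReal (le_of_eq ?_)
    ring
  have hfl : ∀ y ∈ Set.Ioc u v, y ∉ S → ∀ r ∈ F,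
      ⌊y * α ^ r⌋₊ = lv α (fun _ => 0) t r ⌊y * A⌋₊ := by
    intro y hy hyS r hr
    rw [lv_zero]
    by_contra hne
    have hrx : r ≤ 2 * x := by
      rw [hF, mem_insert, mem_singleton] at hr
      rcases hr with h | h <;> omega
    have h1 := agree ha (hu.le.trans hy.1.le) (show r ≤ t by omega) hne
    have h2 := mem_near (A := α ^ r) (by positivity)
      (inv_le_one_of_one_le₀ (one_le_pow₀ ha.le) : (α ^ (t - r))⁻¹ ≤ 1) hy h1
    apply hyS
    rw [hS]
    rw [hF, mem_insert, mem_singleton] at hr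
    rcases hr with h | h
    · left; rw [h] at h2; exact h2
    · right; rw [h] at h2; exact h2
  have hag : ∀ y ∈ Set.Ioc u v, y ∉ S → G α (chi QQ) p y * G α (chi QQ) q y = two α t F ⌊y * A⌋₊ := by
    intro y hy hyS
    have h1 := hfl y hy hyS p (by rw [hF]; exact mem_insert_self _ _)
    have h2 := hfl y hy hyS q (by rw [hF]; exact mem_insert_of_mem (mem_singleton_self _))
    unfold G
    rw [chi_QQ, chi_QQ, h1, h2]
    unfold two
    have h3 : F ⊆ hits α (fun _ => 0) F t ⌊y * A⌋₊ ↔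
        (roughPart p (lv α (fun _ => 0) t p ⌊y * A⌋₊)).Prime ∧
        (roughPart q (lv α (fun _ => 0) t q ⌊y * A⌋₊)).Prime := by
      unfold hits
      rw [hF]
      constructor
      · intro h4
        exact ⟨(mem_filter.1 (h4 (mem_insert_self _ _))).2,
          (mem_filter.1 (h4 (mem_insert_of_mem (mem_singleton_self _)))).2⟩
      · rintro ⟨h4, h5⟩ r hr
        rw [mem_filter]
        refine ⟨hr, ?_⟩
        rw [mem_insert, mem_singleton] at hr
        rcases hr with h | h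
        · rw [h]; exact h4
        · rw [h]; exact h5
    by_cases h4 : (roughPart p (lv α (fun _ => 0) t p ⌊y * A⌋₊)).Prime
    · by_cases h5 : (roughPart q (lv α (fun _ => 0) t q ⌊y * A⌋₊)).Prime
      · rw [if_pos h4, if_pos h5, if_pos (h3.2 ⟨h4, h5⟩), mul_one]
      · rw [if_neg h5, if_neg (fun h => h5 (h3.1 h).2), mul_zero]
    · rw [if_neg h4, if_neg (fun h => h4 (h3.1 h).1), zero_mul]
  have d1 := int_diff hGG hTU huv.le hδ0 hSm hSv hag
  -- the integral of the comparison function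
  set M0 := ⌊u * A⌋₊ with hM0
  set M1 := ⌊v * A⌋₊ + 1 with hM1
  have h1 : (M0 : ℝ) / A ≤ u := by
    rw [div_le_iff₀ hA0]; exact Nat.floor_le (by positivity)
  have h2 : v ≤ (M1 : ℝ) / A := by
    rw [le_div_iff₀ hA0, hM1]; push_cast; exact (Nat.lt_floor_add_one _).le
  have h3 : M0 ≤ M1 := by
    rw [hM0, hM1]
    have : ⌊u * A⌋₊ ≤ ⌊v * A⌋₊ := Nat.floor_le_floor (mul_le_mul_of_nonneg_right huv.le hA0.le)
    omega
  have hun : Un (fun _ : ℝ => (1 : ℝ)) :=
    ⟨measurable_const, fun _ => zero_le_one, fun _ => le_rfl⟩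
  have c2 : ∫ y in ((M0 : ℝ) / A)..((M1 : ℝ) / A), two α t F ⌊y * A⌋₊ =
      ∑ n ∈ Ico M0 M1, two α t F n * A⁻¹ := by
    have c3 := cell_sum hA0 (two_n α t F) (two_o α t F) hun h3
    simp only [mul_one] at c3
    rw [c3]
    refine Finset.sum_congr rfl fun n _ => ?_
    rw [intervalIntegral.integral_const, smul_eq_mul, mul_one]
    congr 1
    field_simp
    ring
  have d2 := hTU.int_mono h1 huv.le h2
  rw [c2, ← Finset.sum_mul] at d2
  have d3 : (∑ n ∈ Ico M0 M1, two α t F n) * A⁻¹ ≤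
      v * ((C * 2 * (Real.log x / x)) ^ 2 + Real.exp (-(d * x))) := by
    rw [← div_eq_mul_inv, div_le_iff₀ hA0]
    refine hcnt.trans (le_of_eq ?_)
    ring
  -- the bounds
  have hp1r : (p : ℝ) = x + 1 := by rw [hpx]; push_cast; ring
  have hq1r : (q : ℝ) ≤ 2 * x := by exact_mod_cast hqx
  have hxp : (x : ℝ) ≤ p := by linarith
  have hxq : (x : ℝ) ≤ q := by
    have : x ≤ q := by omega
    exact_mod_cast this
  have hwp : Real.log x / (2 * x) ≤ lw p := by
    unfold lw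
    exact div_le_div₀ (Real.log_nonneg (by linarith)) (Real.log_le_log hx0 hxp) (by linarith)
      (by linarith)
  have hwq : Real.log x / (2 * x) ≤ lw q := by
    unfold lw
    exact div_le_div₀ (Real.log_nonneg (by linarith)) (Real.log_le_log hx0 hxq) (by linarith)
      (by linarith)
  have hw : (Real.log x / (2 * x)) ^ 2 ≤ lw p * lw q := by
    rw [sq]
    exact mul_le_mul hwp hwq (by positivity) (lw_nonneg p)
  have hw1 : 1 / (x : ℝ) ^ 2 ≤ lw p * lw q := by
    refine le_trans ?_ hw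
    rw [div_pow, mul_pow, div_le_div_iff₀ (by positivity) (by positivity)]
    have h16 : (2 : ℝ) ^ 2 ≤ Real.log x ^ 2 := pow_le_pow_left₀ (by norm_num) (by linarith) 2
    have := mul_le_mul_of_nonneg_right h16 (sq_nonneg (x : ℝ))
    linarith
  have hb1 : Real.exp (-(d * x)) ≤ lw p * lw q := by
    refine le_trans ?_ hw1
    rw [le_div_iff₀ (by positivity)]
    have := hP2 x hxP2
    linarith
  have hb2 : 4 * (v - u + 5) * E ≤ lw p * lw q := by
    refine le_trans ?_ hw1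
    rw [le_div_iff₀ (by positivity)]
    have := hP3 x hxP3
    rw [hE]
    linarith
  have hb3 : (C * 2 * (Real.log x / x)) ^ 2 ≤ 16 * C ^ 2 * (lw p * lw q) := by
    have e : (C * 2 * (Real.log x / x)) ^ 2 = 16 * C ^ 2 * (Real.log x / (2 * x)) ^ 2 := by
      field_simp
      ring
    rw [e]
    exact mul_le_mul_of_nonneg_left hw (by positivity)
  have hWW : 0 ≤ lw p * lw q := mul_nonneg (lw_nonneg p) (lw_nonneg q)
  rw [abs_le] at d1
  calc ∫ y in u..v, G α (chi QQ) p y * G α (chi QQ) q y ≤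
      (∫ y in u..v, two α t F ⌊y * A⌋₊) + 4 * (v - u + 5) * E := by linarith [d1.2]
    _ ≤ v * ((C * 2 * (Real.log x / x)) ^ 2 + Real.exp (-(d * x))) + 4 * (v - u + 5) * E := by
        linarith
    _ ≤ v * (16 * C ^ 2 * (lw p * lw q) + lw p * lw q) + lw p * lw q := by
        refine add_le_add (mul_le_mul_of_nonneg_left (add_le_add hb3 hb1) hv0.le) hb2
    _ ≤ _ := by nlinarith [mul_nonneg hv0.le hWW]

/-- the system -/
theorem sys {α : ℝ} (ha : 1 < α) (hFM : S_FM α) (hK : S_K α (fun _ => 0))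
    (hRB : S_RB α (fun _ => 0)) : Sys α (kr α) (chi QQ) where
  ha := ha
  hk := div_nonneg (Real.exp_pos _).le (Real.log_pos ha).le
  c0 := chi_n QQ
  c1 := chi_o QQ
  up := up_inst
  fm := fm_inst ha hFM
  pc := pc_inst ha hK hRB

end Run7.h93.GP
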