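import Mathlib
import Pool.Agent.Run7.h93.GP.Joint

set_option autoImplicit false

/-!
# A strong law of large numbers for weakly correlated functions
-/

namespace Run7.h93.GP

open Finset Filter Topology MeasureTheory

lemma rate_sum {c : ℝ} (hc : 0 < c) {r : ℕ} (hr : 2 ≤ r) (hrc : 2 ≤ r * c) {k : ℕ} (hk : 1 ≤ k) :
    ∑ i ∈ range (k ^ (2 * r)), ((i : ℝ) + 1) ^ (-c) ≤ 2 * ((k : ℝ) ^ (2 * r) / (k : ℝ) ^ 2) := by
  have hk1 : (1 : ℝ) ≤ k := by exact_mod_cast hk
  have hk0 : (0 : ℝ) < k := by linarith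
  have h1 : ∀ i ∈ range (k ^ (2 * r)), ((i : ℝ) + 1) ^ (-c) ≤
      (if i < k ^ r then (1 : ℝ) else 0) + ((k : ℝ) ^ 2)⁻¹ := by
    intro i _
    have hi : (0 : ℝ) ≤ i := Nat.cast_nonneg i
    split_ifs with h
    · have h2 : ((i : ℝ) + 1) ^ (-c) ≤ 1 :=
        Real.rpow_le_one_of_one_le_of_nonpos (by linarith) (by linarith)
      have : 0 ≤ ((k : ℝ) ^ 2)⁻¹ := by positivity
      linarith
    · rw [zero_add]
      have h2 : (k : ℝ) ^ r ≤ (i : ℝ) + 1 := by
        have h3 : k ^ r ≤ i := by omega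
        have h4 : ((k ^ r : ℕ) : ℝ) ≤ i := by exact_mod_cast h3
        push_cast at h4
        linarith
      calc ((i : ℝ) + 1) ^ (-c) ≤ ((k : ℝ) ^ r) ^ (-c) :=
            Real.rpow_le_rpow_of_nonpos (by positivity) h2 (by linarith)
        _ = (k : ℝ) ^ (-(r * c)) := by
            rw [← Real.rpow_natCast, ← Real.rpow_mul hk0.le]; congr 1; ring
        _ ≤ (k : ℝ) ^ (-(2 : ℝ)) := Real.rpow_le_rpow_of_exponent_le hk1 (by linarith)
        _ = ((k : ℝ) ^ 2)⁻¹ := by rw [Real.rpow_neg hk0.le]; norm_num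
  refine (Finset.sum_le_sum h1).trans ?_
  rw [Finset.sum_add_distrib, Finset.sum_const, card_range, nsmul_eq_mul]
  have h3 : ∑ i ∈ range (k ^ (2 * r)), (if i < k ^ r then (1 : ℝ) else 0) ≤ (k : ℝ) ^ r := by
    rw [← Finset.sum_filter, Finset.sum_const, nsmul_eq_mul, mul_one]
    have h4 : (range (k ^ (2 * r))).filter (fun i => i < k ^ r) ⊆ range (k ^ r) := fun i hi => by
      rw [mem_filter] at hi
      rw [mem_range]
      exact hi.2
    have h5 := Finset.card_le_card h4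
    rw [card_range] at h5
    exact_mod_cast h5
  have h6 : (k : ℝ) ^ r ≤ (k : ℝ) ^ (2 * r) / (k : ℝ) ^ 2 := by
    rw [le_div_iff₀ (by positivity), ← pow_add]
    exact pow_le_pow_right₀ hk1 (by omega)
  push_cast
  rw [← div_eq_mul_inv]
  linarith

lemma bii {f : ℝ → ℝ} (hf : Measurable f) {M : ℝ} (hM : ∀ x, |f x| ≤ M) (a b : ℝ) :
    IntervalIntegrable f volume a b := by
  rw [intervalIntegrable_iff]
  exact Measure.integrableOn_of_bounded (M := M) (by simp) hf.aestronglyMeasurable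
    (Eventually.of_forall fun x => by rw [Real.norm_eq_abs]; exact hM x)

/-- the second moment -/
lemma sq_bound {Y : ℕ → ℝ → ℝ} {u v K c : ℝ} (huv : u ≤ v) (hm : ∀ n, Measurable (Y n))
    (hb : ∀ n x, |Y n x| ≤ 1) (hK : 0 ≤ K)
    (hcov : ∀ i j, i < j → |∫ x in u..v, Y i x * Y j x| ≤ K * ((i : ℝ) + 1) ^ (-c)) (M : ℕ) :
    ∫ x in u..v, (∑ n ∈ range M, Y n x) ^ 2 ≤
      M * (v - u) + 2 * K * (M * ∑ i ∈ range M, ((i : ℝ) + 1) ^ (-c)) := by
  have hij : ∀ i j, IntervalIntegrable (fun x => Y i x * Y j x) volume u v := fun i j =>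
    bii ((hm i).mul (hm j)) (M := 1) (fun x => by
      show |Y i x * Y j x| ≤ 1
      rw [abs_mul]
      exact mul_le_one₀ (hb i x) (abs_nonneg _) (hb j x)) u v
  have e1 : ∀ x, (∑ n ∈ range M, Y n x) ^ 2 = ∑ i ∈ range M, ∑ j ∈ range M, Y i x * Y j x := by
    intro x
    rw [sq, Finset.sum_mul_sum]
  simp only [e1]
  rw [intervalIntegral.integral_finsetSum (fun i _ => ii_sum (f := fun j x => Y i x * Y j x) _
    fun j _ => hij i j)]
  have e2 : ∀ i ∈ range M, ∫ x in u..v, ∑ j ∈ range M, Y i x * Y j x =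
      ∑ j ∈ range M, ∫ x in u..v, Y i x * Y j x := fun i _ =>
    intervalIntegral.integral_finsetSum (fun j _ => hij i j)
  rw [Finset.sum_congr rfl e2]
  have ha : ∀ i : ℕ, 0 ≤ ((i : ℝ) + 1) ^ (-c) := fun i => Real.rpow_nonneg (by positivity) _
  have h1 : ∀ i ∈ range M, ∀ j ∈ range M, ∫ x in u..v, Y i x * Y j x ≤
      (if i = j then v - u else 0) + K * (((i : ℝ) + 1) ^ (-c) + ((j : ℝ) + 1) ^ (-c)) := by
    intro i _ j _
    have h2 : 0 ≤ K * ((i : ℝ) + 1) ^ (-c) := mul_nonneg hK (ha i)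
    have h3 : 0 ≤ K * ((j : ℝ) + 1) ^ (-c) := mul_nonneg hK (ha j)
    rw [mul_add]
    rcases lt_trichotomy i j with h | h | h
    · rw [if_neg h.ne]
      have := (abs_le.1 (hcov i j h)).2
      linarith
    · rw [if_pos h]
      have h4 : ∫ x in u..v, Y i x * Y j x ≤ ∫ _ in u..v, (1 : ℝ) := by
        refine intervalIntegral.integral_mono_on huv (hij i j) (by simp) fun x _ => ?_
        refine (le_abs_self _).trans ?_
        rw [abs_mul]
        exact mul_le_one₀ (hb i x) (abs_nonneg _) (hb j x)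
      rw [intervalIntegral.integral_const, smul_eq_mul, mul_one] at h4
      linarith
    · rw [if_neg h.ne']
      have h5 : ∫ x in u..v, Y i x * Y j x = ∫ x in u..v, Y j x * Y i x := by
        congr 1
        funext x
        exact mul_comm _ _
      have := (abs_le.1 (hcov j i h)).2
      rw [h5]
      linarith
  refine (Finset.sum_le_sum fun i hi => Finset.sum_le_sum fun j hj => h1 i hi j hj).trans ?_
  simp only [Finset.sum_add_distrib, ← Finset.mul_sum]
  rw [Finset.sum_comm]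
  simp only [Finset.sum_const, card_range, nsmul_eq_mul, ← Finset.mul_sum]
  have h2 : ∑ y ∈ range M, ∑ x ∈ range M, (if x = y then v - u else 0) = M * (v - u) := by
    have h3 : ∀ y ∈ range M, ∑ x ∈ range M, (if x = y then v - u else 0) = v - u := by
      intro y hy
      rw [Finset.sum_ite_eq' (range M) y (fun _ => v - u), if_pos hy]
    rw [Finset.sum_congr rfl h3, Finset.sum_const, card_range, nsmul_eq_mul]
  rw [h2]
  refine le_of_eq ?_
  ring

/-- the strong law along a subsequence -/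
theorem slln_sub {Y : ℕ → ℝ → ℝ} {u v K c : ℝ} (huv : u ≤ v) (hm : ∀ n, Measurable (Y n))
    (hb : ∀ n x, |Y n x| ≤ 1) (hK : 0 ≤ K) (hc : 0 < c)
    (hcov : ∀ i j, i < j → |∫ x in u..v, Y i x * Y j x| ≤ K * ((i : ℝ) + 1) ^ (-c))
    {r : ℕ} (hr : 2 ≤ r) (hrc : 2 ≤ r * c) :
    ∀ᵐ x ∂(volume.restrict (Set.Ioc u v)),
      Tendsto (fun k : ℕ => (∑ n ∈ range ((k + 1) ^ (2 * r)), Y n x) / (((k + 1) ^ (2 * r) : ℕ) : ℝ))
        atTop (𝓝 0) := by
  set g : ℕ → ℝ → ℝ := fun k x =>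
    ((∑ n ∈ range ((k + 1) ^ (2 * r)), Y n x) / (((k + 1) ^ (2 * r) : ℕ) : ℝ)) ^ 2 with hg
  have hgm : ∀ k, Measurable (g k) := fun k =>
    ((Finset.measurable_fun_sum _ fun n _ => hm n).div_const _).pow_const 2
  have hg0 : ∀ k x, 0 ≤ g k x := fun k x => sq_nonneg _
  have hM0 : ∀ k : ℕ, (0 : ℝ) < (((k + 1) ^ (2 * r) : ℕ) : ℝ) := fun k => by positivity
  have hg1 : ∀ k x, |g k x| ≤ 1 := by
    intro k x
    rw [abs_of_nonneg (hg0 k x), hg]
    simp only
    rw [sq_le_one_iff_abs_le_one, abs_div, abs_of_pos (hM0 k), div_le_one (hM0 k)]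
    refine (Finset.abs_sum_le_sum_abs _ _).trans ?_
    refine (Finset.sum_le_sum fun n _ => hb n x).trans ?_
    rw [Finset.sum_const, card_range, nsmul_eq_mul, mul_one]
  have hgi : ∀ k, ∫ x in u..v, g k x ≤ (v - u + 4 * K) * (1 / ((k : ℝ) + 1) ^ 2) := by
    intro k
    have h1 := sq_bound huv hm hb hK hcov ((k + 1) ^ (2 * r))
    have h2 := rate_sum hc hr hrc (k := k + 1) (by omega)
    have e1 : ∫ x in u..v, g k x =
        (∫ x in u..v, (∑ n ∈ range ((k + 1) ^ (2 * r)), Y n x) ^ 2) /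
          ((((k + 1) ^ (2 * r) : ℕ) : ℝ)) ^ 2 := by
      rw [← intervalIntegral.integral_div]
      congr 1
      funext x
      rw [hg]
      simp only [div_pow]
    set M := (((k + 1) ^ (2 * r) : ℕ) : ℝ) with hM
    have hM' : M = ((k : ℝ) + 1) ^ (2 * r) := by rw [hM]; push_cast; rfl
    have hMp : 0 < M := hM0 k
    have hk1 : (1 : ℝ) ≤ (k : ℝ) + 1 := by linarith [(Nat.cast_nonneg k : (0 : ℝ) ≤ k)]
    have hMk : ((k : ℝ) + 1) ^ 2 ≤ M := by
      rw [hM']
      exact pow_le_pow_right₀ hk1 (by omega)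
    push_cast at h2
    rw [← hM'] at h2
    rw [e1, div_le_iff₀ (by positivity)]
    refine h1.trans ?_
    have h3 : M * ∑ i ∈ range ((k + 1) ^ (2 * r)), ((i : ℝ) + 1) ^ (-c) ≤
        M * (2 * (M / ((k : ℝ) + 1) ^ 2)) := mul_le_mul_of_nonneg_left h2 hMp.le
    have h4 : M * (v - u) ≤ (v - u) * (1 / ((k : ℝ) + 1) ^ 2) * M ^ 2 := by
      have h5 : 0 ≤ v - u := by linarith
      have h6 : 1 ≤ 1 / ((k : ℝ) + 1) ^ 2 * M := by
        rw [one_div_mul_eq_div, le_div_iff₀ (by positivity), one_mul]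
        exact hMk
      calc M * (v - u) = M * (v - u) * 1 := by ring
        _ ≤ M * (v - u) * (1 / ((k : ℝ) + 1) ^ 2 * M) :=
            mul_le_mul_of_nonneg_left h6 (by positivity)
        _ = _ := by ring
    calc M * (v - u) + 2 * K * (M * ∑ i ∈ range ((k + 1) ^ (2 * r)), ((i : ℝ) + 1) ^ (-c)) ≤
        (v - u) * (1 / ((k : ℝ) + 1) ^ 2) * M ^ 2 + 2 * K * (M * (2 * (M / ((k : ℝ) + 1) ^ 2))) :=
          add_le_add h4 (mul_le_mul_of_nonneg_left h3 (by positivity))
      _ = (v - u + 4 * K) * (1 / ((k : ℝ) + 1) ^ 2) * M ^ 2 := by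
          field_simp
          ring
  -- summation
  have hlin : ∀ k, ∫⁻ x in Set.Ioc u v, ENNReal.ofReal (g k x) ≤
      ENNReal.ofReal ((v - u + 4 * K) * (1 / ((k : ℝ) + 1) ^ 2)) := by
    intro k
    rw [← ofReal_integral_eq_lintegral_ofReal ?_ (Eventually.of_forall fun x => hg0 k x),
      ← intervalIntegral.integral_of_le huv]
    · exact ENNReal.ofReal_le_ofReal (hgi k)
    · have := (bii (hgm k) (hg1 k) u v).1
      exact this
  have hsum : Summable fun k : ℕ => (v - u + 4 * K) * (1 / ((k : ℝ) + 1) ^ 2) := by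
    have h1 : Summable fun k : ℕ => 1 / (((k + 1 : ℕ) : ℝ)) ^ 2 :=
      (summable_nat_add_iff (f := fun k : ℕ => 1 / ((k : ℝ)) ^ 2) 1).2
        (Real.summable_one_div_nat_pow.2 (by norm_num))
    push_cast at h1
    exact h1.mul_left _
  have htot : ∫⁻ x in Set.Ioc u v, ∑' k, ENNReal.ofReal (g k x) ≠ ⊤ := by
    rw [lintegral_tsum fun k => ((hgm k).ennreal_ofReal).aemeasurable]
    refine ne_top_of_le_ne_top ?_ (ENNReal.tsum_le_tsum hlin)
    have h5 : 0 ≤ v - u := by linarith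
    rw [← ENNReal.ofReal_tsum_of_nonneg (fun k => by positivity) hsum]
    exact ENNReal.ofReal_ne_top
  have hae := ae_lt_top (μ := volume.restrict (Set.Ioc u v))
    (Measurable.ennreal_tsum fun k => (hgm k).ennreal_ofReal) htot
  filter_upwards [hae] with x hx
  have h1 := ENNReal.tendsto_atTop_zero_of_tsum_ne_top hx.ne
  have h2 : Tendsto (fun k => g k x) atTop (𝓝 0) := by
    have h3 := (ENNReal.tendsto_toReal ENNReal.zero_ne_top).comp h1
    simp only [ENNReal.toReal_zero] at h3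
    refine h3.congr fun k => ?_
    simp only [Function.comp]
    exact ENNReal.toReal_ofReal (hg0 k x)
  rw [tendsto_zero_iff_abs_tendsto_zero]
  have h4 := (Real.continuous_sqrt.tendsto 0).comp h2
  rw [Real.sqrt_zero] at h4
  refine h4.congr fun k => ?_
  simp only [Function.comp, hg]
  exact Real.sqrt_sq_eq_abs _

lemma cesaro_div {e : ℕ → ℝ} {l : ℝ} (h : Tendsto e atTop (𝓝 l)) :
    Tendsto (fun M : ℕ => (∑ n ∈ range M, e n) / (M : ℝ)) atTop (𝓝 l) := by
  refine h.cesaro.congr fun M => ?_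
  rw [div_eq_mul_inv, mul_comm]

/-- the strong law for nonnegative functions -/
theorem slln {F : ℕ → ℝ → ℝ} {e : ℕ → ℝ} {u v K c l : ℝ} (huv : u ≤ v) (hF : ∀ n, Un (F n))
    (he : ∀ n, 0 ≤ e n ∧ e n ≤ 1) (hK : 0 ≤ K) (hc : 0 < c) (hl : Tendsto e atTop (𝓝 l))
    (hcov : ∀ i j, i < j → |∫ x in u..v, (F i x - e i) * (F j x - e j)| ≤
      K * ((i : ℝ) + 1) ^ (-c)) :
    ∀ᵐ x ∂(volume.restrict (Set.Ioc u v)),
      Tendsto (fun M : ℕ => (∑ n ∈ range M, F n x) / (M : ℝ)) atTop (𝓝 l) := by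
  obtain ⟨r, hr, hrc⟩ : ∃ r : ℕ, 2 ≤ r ∧ 2 ≤ r * c := by
    obtain ⟨n, hn⟩ := exists_nat_ge (2 / c)
    rw [div_le_iff₀ hc] at hn
    refine ⟨max 2 n, le_max_left _ _, hn.trans ?_⟩
    exact mul_le_mul_of_nonneg_right (by exact_mod_cast le_max_right _ _) hc.le
  have h1 := slln_sub (Y := fun n x => F n x - e n) huv (fun n => (hF n).m.sub_const _)
    (fun n x => by
      have := (hF n).n x
      have := (hF n).o x
      have := he n
      rw [abs_le]
      constructor <;> linarith [this.1, this.2]) hK hc hcov hr hrc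
  filter_upwards [h1] with x hx
  have hcc : Tendsto (fun k : ℕ => (k + 1) ^ (2 * r)) atTop atTop :=
    tendsto_atTop_mono (fun k => by
      calc k ≤ (k + 1) ^ 1 := by rw [pow_one]; omega
        _ ≤ (k + 1) ^ (2 * r) := Nat.pow_le_pow_right (by omega) (by omega)) tendsto_id
  refine tendsto_div_of_monotone_of_exists_subseq_tendsto_div _ l ?_ fun a ha => ?_
  · intro M M' hMM
    exact Finset.sum_le_sum_of_subset_of_nonneg (range_mono hMM) fun n _ _ => (hF n).n x
  · refine ⟨fun k => (k + 1) ^ (2 * r), ?_, hcc, ?_⟩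
    · have h2 : Tendsto (fun k : ℕ => (((k : ℝ) + 2) / ((k : ℝ) + 1)) ^ (2 * r)) atTop (𝓝 1) := by
        have h3 : Tendsto (fun k : ℕ => ((k : ℝ) + 2) / ((k : ℝ) + 1)) atTop (𝓝 1) := by
          have h4 : Tendsto (fun k : ℕ => 1 + 1 / ((k : ℝ) + 1)) atTop (𝓝 (1 + 0)) :=
            tendsto_const_nhds.add tendsto_one_div_add_atTop_nhds_zero_nat
          rw [add_zero] at h4
          refine h4.congr fun k => ?_
          have : (0 : ℝ) < (k : ℝ) + 1 := by positivity
          field_simp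
          ring
        have := h3.pow (2 * r)
        rwa [one_pow] at this
      filter_upwards [h2.eventually_le_const ha] with k hk
      have h5 : (0 : ℝ) < ((k : ℝ) + 1) ^ (2 * r) := by positivity
      rw [div_pow, div_le_iff₀ h5] at hk
      push_cast
      refine le_trans (le_of_eq ?_) hk
      congr 1
      ring
    · have h2 := (cesaro_div hl).comp hcc
      have h3 := hx.add h2
      rw [zero_add] at h3
      refine h3.congr fun k => ?_
      simp only [Function.comp]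
      rw [← add_div, ← Finset.sum_add_distrib]
      congr 1
      exact Finset.sum_congr rfl fun n _ => by ring

end Run7.h93.GP
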