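import Mathlib
import Pool.Agent.Run7.h93.GP.Ae

set_option autoImplicit false

/-!
# Correlations of the counts in distant blocks
-/

namespace Run7.h93.GP

open Finset Filter Topology MeasureTheory

/-- the error term, with a rate -/
lemma err_rate {κ1 : ℝ} (hκ1 : 0 < κ1) : ∃ D : ℝ, 0 < D ∧ ∀ (U : Finset ℕ) (L δ B : ℝ), 0 < L →
    (∀ q ∈ U, L ≤ Real.log q ∧ 2 / κ1 ≤ (q : ℝ)) →
    (∀ x : ℕ, ∑ p ∈ U.filter (fun p => x < p ∧ p ≤ 2 * x), Real.log p / (p : ℝ) ≤ δ) →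
    ∑ p ∈ U, Real.log p / (p : ℝ) ≤ B → err κ1 U ≤ B / L + B * (D * δ) := by
  classical
  obtain ⟨k, hk⟩ := exists_pow_lt_of_lt_one (show 0 < κ1 / 2 by positivity)
    (by norm_num : (1 / 2 : ℝ) < 1)
  refine ⟨k + 1, by positivity, fun U L δ B hL hU hδ hB => ?_⟩
  have hδ0 : 0 ≤ δ := le_trans (Finset.sum_nonneg fun p _ => lw_nonneg p) (hδ 0)
  have hBB : 0 ≤ ∑ p ∈ U, Real.log p / (p : ℝ) := Finset.sum_nonneg fun p _ => lw_nonneg p
  have h1 : ∑ q ∈ U, 1 / (q : ℝ) ≤ B / L := by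
    calc ∑ q ∈ U, 1 / (q : ℝ) ≤ ∑ q ∈ U, 1 / L * (Real.log q / q) := by
          refine Finset.sum_le_sum fun q hq => ?_
          obtain ⟨h2, h3⟩ := hU q hq
          have hq0 : (0 : ℝ) < q := lt_of_lt_of_le (by positivity) h3
          rw [← mul_div_assoc]
          refine div_le_div_of_nonneg_right ?_ hq0.le
          rw [one_div_mul_eq_div, le_div_iff₀ hL, one_mul]
          exact h2
      _ = 1 / L * ∑ q ∈ U, Real.log q / (q : ℝ) := by rw [Finset.mul_sum]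
      _ ≤ 1 / L * B := mul_le_mul_of_nonneg_left hB (by positivity)
      _ = B / L := by ring
  have h2 : ∑ q ∈ U, ∑ p ∈ U.filter (fun p : ℕ => κ1 * q < p ∧ p < q), lw p * lw q ≤
      B * (((k : ℝ) + 1) * δ) := by
    calc ∑ q ∈ U, ∑ p ∈ U.filter (fun p : ℕ => κ1 * q < p ∧ p < q), lw p * lw q ≤
        ∑ q ∈ U, (((k : ℝ) + 1) * δ) * (Real.log q / q) := by
          refine Finset.sum_le_sum fun q hq => ?_
          rw [← Finset.sum_mul]
          refine mul_le_mul_of_nonneg_right ?_ (lw_nonneg q)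
          obtain ⟨_, h3⟩ := hU q hq
          have h5 : (2 : ℝ) ≤ κ1 * q := by
            rw [div_le_iff₀ hκ1] at h3
            linarith
          have h6 := dyad hδ k q (κ1 * q) (by
            have h7 : (q : ℝ) / 2 ^ k ≤ κ1 / 2 * q := by
              have : (1 / 2 : ℝ) ^ k = 1 / 2 ^ k := by rw [one_div_pow]
              rw [this] at hk
              calc (q : ℝ) / 2 ^ k = 1 / 2 ^ k * q := by ring
                _ ≤ κ1 / 2 * q := mul_le_mul_of_nonneg_right hk.le (Nat.cast_nonneg q)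
            have h8 : (0 : ℝ) ≤ 1 / 2 ^ k := by positivity
            linarith)
          calc ∑ p ∈ U.filter (fun p : ℕ => κ1 * q < p ∧ p < q), lw p ≤
              ∑ p ∈ U.filter (fun p : ℕ => κ1 * q < p ∧ p ≤ q), Real.log p / (p : ℝ) := by
                refine Finset.sum_le_sum_of_subset_of_nonneg ?_ fun p _ _ => lw_nonneg p
                intro p hp
                rw [mem_filter] at hp ⊢
                exact ⟨hp.1, hp.2.1, hp.2.2.le⟩
            _ ≤ k * δ := h6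
            _ ≤ (k + 1) * δ := mul_le_mul_of_nonneg_right (by linarith) hδ0
      _ = (((k : ℝ) + 1) * δ) * ∑ q ∈ U, Real.log q / (q : ℝ) := by rw [Finset.mul_sum]
      _ ≤ (((k : ℝ) + 1) * δ) * B := mul_le_mul_of_nonneg_left hB (by positivity)
      _ = _ := by ring
  unfold err
  rw [Finset.sum_add_distrib]
  exact add_le_add h1 h2

lemma err_mono {κ1 : ℝ} {U V : Finset ℕ} (h : U ⊆ V) : err κ1 U ≤ err κ1 V := by
  unfold err
  have h0 : ∀ q : ℕ, ∀ W : Finset ℕ,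
      0 ≤ ∑ p ∈ W.filter (fun p : ℕ => κ1 * q < p ∧ p < q), lw p * lw q := fun q W =>
    Finset.sum_nonneg fun p _ => mul_nonneg (lw_nonneg p) (lw_nonneg q)
  refine (Finset.sum_le_sum fun q _ => ?_).trans
    (Finset.sum_le_sum_of_subset_of_nonneg h fun q _ _ => add_nonneg (by positivity) (h0 q V))
  refine add_le_add le_rfl ?_
  exact Finset.sum_le_sum_of_subset_of_nonneg (Finset.filter_subset_filter _ h)
    fun p _ _ => mul_nonneg (lw_nonneg p) (lw_nonneg q)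

/-- the limit factor of a block -/
noncomputable def ef (κ : ℝ) (s : ℕ → ℝ) (U : Finset ℕ) : ℝ :=
  Real.exp (-(∑ q ∈ U, s q * (κ * lw q)))

lemma ef_mem {κ : ℝ} (hκ : 0 ≤ κ) {s : ℕ → ℝ} (hs : ∀ p, 0 ≤ s p ∧ s p ≤ 1) (U : Finset ℕ) :
    0 ≤ ef κ s U ∧ ef κ s U ≤ 1 := by
  refine ⟨(Real.exp_pos _).le, Real.exp_le_one_iff.2 ?_⟩
  have : 0 ≤ ∑ q ∈ U, s q * (κ * lw q) := Finset.sum_nonneg fun q _ =>
    mul_nonneg (hs q).1 (mul_nonneg hκ (lw_nonneg q))
  linarith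

/-- the covariance of two blocks -/
theorem Sys.cov {α κ : ℝ} {χ : ℕ → ℕ → ℝ} (h : Sys α κ χ) : ∃ κ1 : ℝ, 0 < κ1 ∧
    ∀ u v : ℝ, 0 < u → u < v → ∃ C : ℝ, 0 < C ∧ ∃ P : ℕ, ∀ U V : Finset ℕ, Disjoint U V →
    (∀ p ∈ U ∪ V, P ≤ p) → ∀ s s' : ℕ → ℝ, (∀ p, 0 ≤ s p ∧ s p ≤ 1) →
    (∀ p, 0 ≤ s' p ∧ s' p ≤ 1) →
    |∫ x in u..v, (Phi α χ s U x - ef κ s U) * (Phi α χ s' V x - ef κ s' V)| ≤
      3 * C * err κ1 (U ∪ V) := by
  classical
  obtain ⟨κ1, hκ1, hL⟩ := h.laplace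
  refine ⟨κ1, hκ1, fun u v hu huv => ?_⟩
  obtain ⟨C, hC, P, hP⟩ := hL u v hu huv
  refine ⟨C, hC, P, fun U V hUV hPU s s' hs hs' => ?_⟩
  set w : ℕ → ℝ := fun p => if p ∈ U then s p else s' p with hw
  have hw01 : ∀ p, 0 ≤ w p ∧ w p ≤ 1 := by
    intro p
    rw [hw]
    simp only
    split_ifs
    · exact hs p
    · exact hs' p
  have hwU : ∀ p ∈ U, w p = s p := fun p hp => if_pos hp
  have hwV : ∀ p ∈ V, w p = s' p := fun p hp =>
    if_neg fun hp' => Finset.disjoint_left.1 hUV hp' hp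
  have e1 : ∀ x, Phi α χ w (U ∪ V) x = Phi α χ s U x * Phi α χ s' V x := by
    intro x
    unfold Phi
    rw [Finset.prod_union hUV]
    congr 1
    · exact Finset.prod_congr rfl fun p hp => by rw [hwU p hp]
    · exact Finset.prod_congr rfl fun p hp => by rw [hwV p hp]
  have e2 : Real.exp (-(∑ q ∈ U ∪ V, w q * (κ * lw q))) = ef κ s U * ef κ s' V := by
    unfold ef
    rw [Finset.sum_union hUV, ← Real.exp_add]
    congr 1
    have e3 : ∑ q ∈ U, w q * (κ * lw q) = ∑ q ∈ U, s q * (κ * lw q) :=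
      Finset.sum_congr rfl fun p hp => by rw [hwU p hp]
    have e4 : ∑ q ∈ V, w q * (κ * lw q) = ∑ q ∈ V, s' q * (κ * lw q) :=
      Finset.sum_congr rfl fun p hp => by rw [hwV p hp]
    rw [e3, e4]
    ring
  have h1 := hP (U ∪ V) hPU w hw01
  simp only [e1] at h1
  rw [e2] at h1
  have h2 := hP U (fun p hp => hPU p (mem_union_left _ hp)) s hs
  have h3 := hP V (fun p hp => hPU p (mem_union_right _ hp)) s' hs'
  have h2' := h2.trans (mul_le_mul_of_nonneg_left (err_mono (κ1 := κ1)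
    (subset_union_left : U ⊆ U ∪ V)) hC.le)
  have h3' := h3.trans (mul_le_mul_of_nonneg_left (err_mono (κ1 := κ1)
    (subset_union_right : V ⊆ U ∪ V)) hC.le)
  have hU1 := h.phiU hs U
  have hV1 := h.phiU hs' V
  have hUV1 : Un (fun x => Phi α χ s U x * Phi α χ s' V x) := hU1.mul hV1
  have e5 : ∫ x in u..v, (Phi α χ s U x - ef κ s U) * (Phi α χ s' V x - ef κ s' V) =
      (∫ x in u..v, Phi α χ s U x * Phi α χ s' V x) - ef κ s' V * (∫ x in u..v, Phi α χ s U x) -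
        ef κ s U * (∫ x in u..v, Phi α χ s' V x) + (v - u) * (ef κ s U * ef κ s' V) := by
    have i1 := hUV1.ii u v
    have i2 := (hU1.ii u v).const_mul (ef κ s' V)
    have i3 := (hV1.ii u v).const_mul (ef κ s U)
    have i4 : IntervalIntegrable (fun _ : ℝ => ef κ s U * ef κ s' V) volume u v := by simp
    have e6 : (fun x => (Phi α χ s U x - ef κ s U) * (Phi α χ s' V x - ef κ s' V)) =
        fun x => (Phi α χ s U x * Phi α χ s' V x - ef κ s' V * Phi α χ s U x -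
          ef κ s U * Phi α χ s' V x) + ef κ s U * ef κ s' V := by
      funext x
      ring
    rw [e6, intervalIntegral.integral_add ((i1.sub i2).sub i3) i4,
      intervalIntegral.integral_sub (i1.sub i2) i3, intervalIntegral.integral_sub i1 i2,
      intervalIntegral.integral_const_mul, intervalIntegral.integral_const_mul,
      intervalIntegral.integral_const, smul_eq_mul]
  rw [e5]
  change |_ - (v - u) * ef κ s U| ≤ _ at h2'
  change |_ - (v - u) * ef κ s' V| ≤ _ at h3'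
  obtain ⟨a0, a1⟩ := ef_mem h.hk hs U
  obtain ⟨b0, b1⟩ := ef_mem h.hk hs' V
  set X := ∫ x in u..v, Phi α χ s U x * Phi α χ s' V x
  set X1 := ∫ x in u..v, Phi α χ s U x
  set X2 := ∫ x in u..v, Phi α χ s' V x
  set a := ef κ s U
  set b := ef κ s' V
  set R := C * err κ1 (U ∪ V) with hR
  have e7 : X - b * X1 - a * X2 + (v - u) * (a * b) = (X - (v - u) * (a * b)) -
      b * (X1 - (v - u) * a) - a * (X2 - (v - u) * b) := by ring
  rw [e7]
  have t1 := abs_sub ((X - (v - u) * (a * b)) - b * (X1 - (v - u) * a)) (a * (X2 - (v - u) * b))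
  have t2 := abs_sub (X - (v - u) * (a * b)) (b * (X1 - (v - u) * a))
  rw [abs_mul, abs_of_nonneg a0] at t1
  rw [abs_mul b, abs_of_nonneg b0] at t2
  have t3 : a * |X2 - (v - u) * b| ≤ R := (mul_le_of_le_one_left (abs_nonneg _) a1).trans h3'
  have t4 : b * |X1 - (v - u) * a| ≤ R := (mul_le_of_le_one_left (abs_nonneg _) b1).trans h2'
  have t5 : 3 * C * err κ1 (U ∪ V) = 3 * R := by rw [hR]; ring
  rw [t5]
  linarith

/-- the hypotheses on the blocks -/
structure Rate {r : ℕ} (κ : ℝ) (T : ℕ → Fin r → Finset ℕ) (lam : Fin r → ℝ) : Prop where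
  disj : ∀ n s n' s', (n ≠ n' ∨ s ≠ s') → Disjoint (T n s) (T n' s')
  rate : ∃ c C : ℝ, 0 < c ∧ 0 < C ∧ ∀ n : ℕ,
    (∀ p ∈ UU (T n), ((n : ℝ) + 1) ^ c ≤ C * Real.log p) ∧
    ∀ x : ℕ, ∑ p ∈ (UU (T n)).filter (fun p => x < p ∧ p ≤ 2 * x), Real.log p / (p : ℝ) ≤
      C * ((n : ℝ) + 1) ^ (-c)
  mass : ∀ s, Tendsto (fun n => κ * ∑ p ∈ T n s, Real.log p / (p : ℝ)) atTop (𝓝 (lam s))

end Run7.h93.GP
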