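import Mathlib
import Pool.Agent.Run7.h93.GP.Cov

set_option autoImplicit false

/-!
# Empirical laws from empirical generating functions
-/

namespace Run7.h93.GP

open Finset Filter Topology MeasureTheory

/-- the continuity theorem, for a sequence of arguments -/
theorem cont_gf' (f : ℕ → ℕ → ℝ) (G : ℕ → ℕ → ℝ) (μ lam : ℝ) (hlam : 0 ≤ lam) (hμ : 0 ≤ μ)
    (hf : ∀ n k, 0 ≤ f n k)
    (hG : ∀ n m : ℕ, HasSum (fun k => f n k * (1 / ((m : ℝ) + 1)) ^ k) (G n m))
    (hlim : ∀ m : ℕ,
      Tendsto (fun n => G n m) atTop (𝓝 (μ * Real.exp (-(lam * (1 - 1 / ((m : ℝ) + 1))))))) (k : ℕ) :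
    Tendsto (fun n => f n k) atTop (𝓝 (μ * (Real.exp (-lam) * lam ^ k / k.factorial))) := by
  set ρ : ℕ → ℝ := fun k => μ * (Real.exp (-lam) * lam ^ k / k.factorial) with hρ
  have hρ0 : ∀ k, 0 ≤ ρ k := fun k => by rw [hρ]; positivity
  have hρs : ∀ θ, HasSum (fun k => ρ k * θ ^ k) (μ * Real.exp (-(lam * (1 - θ)))) :=
    fun θ => hasSum_poisson μ lam θ
  have hG1 : ∀ n, HasSum (fun k => f n k * 1 ^ k) (G n 0) := fun n => by simpa using hG n 0
  have hl1 : Tendsto (fun n => G n 0) atTop (𝓝 μ) := by simpa using hlim 0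
  change Tendsto (fun n => f n k) atTop (𝓝 (ρ k))
  induction k using Nat.strong_induction_on with
  | _ k ih =>
    have hρ1 : μ * Real.exp (-(lam * (1 - 1))) = μ := by simp
    rw [Metric.tendsto_nhds]
    intro ε hε
    -- choose θ
    obtain ⟨m, hm⟩ := exists_nat_one_div_lt (show 0 < ε / (2 * (2 * μ + 1)) by positivity)
    obtain ⟨θ, hθd⟩ : ∃ θ : ℝ, θ = 1 / ((m : ℝ) + 1) := ⟨_, rfl⟩
    have hθ0 : 0 < θ := by rw [hθd]; positivity
    have hθ1 : θ ≤ 1 := by
      rw [hθd, div_le_one (by positivity)]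
      linarith [(Nat.cast_nonneg m : (0 : ℝ) ≤ m)]
    have hθ : θ * (2 * μ + 1) ≤ ε / 2 := by
      rw [← hθd] at hm
      calc θ * (2 * μ + 1) ≤ ε / (2 * (2 * μ + 1)) * (2 * μ + 1) :=
            mul_le_mul_of_nonneg_right hm.le (by positivity)
        _ = ε / 2 := by field_simp
    have hGm := fun n => hG n m
    have hlm := hlim m
    simp only [← hθd] at hGm hlm
    have hpos : 0 < θ ^ k := pow_pos hθ0 k
    have h1 : Tendsto (fun n => G n m - ∑ l ∈ range k, f n l * θ ^ l) atTop
        (𝓝 (μ * Real.exp (-(lam * (1 - θ))) - ∑ l ∈ range k, ρ l * θ ^ l)) := by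
      refine hlm.sub (tendsto_finsetSum _ fun l hl => ?_)
      exact (ih l (mem_range.1 hl)).mul_const _
    have h2 := (Metric.tendsto_nhds.1 h1) (θ ^ k * (ε / 4)) (by positivity)
    have h3 := hl1.eventually_lt_const (show μ < μ + 1 by linarith)
    filter_upwards [h2, h3] with n h2 h3
    obtain ⟨h4, h5⟩ := coef_bound (hf n) hθ0.le hθ1 (hG1 n) (hGm n) k
    obtain ⟨h6, h7⟩ := coef_bound hρ0 hθ0.le hθ1 (hρs 1) (hρs θ) k
    rw [hρ1] at h7
    rw [Real.dist_eq] at h2 ⊢
    set X := G n m - ∑ l ∈ range k, f n l * θ ^ l with hX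
    set Z := μ * Real.exp (-(lam * (1 - θ))) - ∑ l ∈ range k, ρ l * θ ^ l with hZ
    have h8 : |f n k - ρ k| * θ ^ k ≤ θ ^ k * (ε / 4) + θ ^ k * (θ * (2 * μ + 1)) := by
      rw [← abs_of_nonneg hpos.le, ← abs_mul, abs_of_nonneg hpos.le]
      rw [abs_lt] at h2
      have e1 : θ ^ (k + 1) = θ ^ k * θ := pow_succ _ _
      rw [e1] at h5 h7
      have h9 : θ ^ k * θ * G n 0 ≤ θ ^ k * θ * (μ + 1) :=
        mul_le_mul_of_nonneg_left h3.le (by positivity)
      have h10 : 0 ≤ θ ^ k * θ * μ := by positivity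
      have h11 : 0 ≤ θ ^ k * θ := by positivity
      rw [abs_le]
      constructor <;> nlinarith
    have h9 : |f n k - ρ k| ≤ ε / 4 + θ * (2 * μ + 1) := by
      have e2 : θ ^ k * (ε / 4) + θ ^ k * (θ * (2 * μ + 1)) = (ε / 4 + θ * (2 * μ + 1)) * θ ^ k := by ring
      rw [e2] at h8
      exact le_of_mul_le_mul_right h8 hpos
    linarith

/-- the mixed product -/
noncomputable def facE {r : ℕ} (a : ℕ → Fin r → ℕ) (D : Finset (Fin r)) (m k : Fin r → ℕ)
    (s : Fin r) (n : ℕ) : ℝ :=
  if s ∈ D then (if a n s = k s then 1 else 0) else (1 / ((m s : ℝ) + 1)) ^ a n s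

lemma facE_nonneg {r : ℕ} (a : ℕ → Fin r → ℕ) (D : Finset (Fin r)) (m k : Fin r → ℕ)
    (s : Fin r) (n : ℕ) : 0 ≤ facE a D m k s n := by
  unfold facE
  split_ifs
  · norm_num
  · norm_num
  · positivity

theorem emp {r : ℕ} (a : ℕ → Fin r → ℕ) {lam : Fin r → ℝ} (hlam : ∀ s, 0 ≤ lam s)
    (h : ∀ m : Fin r → ℕ, Tendsto
      (fun M : ℕ => (∑ n ∈ range M, ∏ s, (1 / ((m s : ℝ) + 1)) ^ (a n s)) / (M : ℝ)) atTop
      (𝓝 (∏ s, Real.exp (-(lam s * (1 - 1 / ((m s : ℝ) + 1))))))) (D : Finset (Fin r)) :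
    ∀ m k : Fin r → ℕ, Tendsto
      (fun M : ℕ => (∑ n ∈ range M, ∏ s, facE a D m k s n) / (M : ℝ)) atTop
      (𝓝 (∏ s, LL lam D (fun s => 1 / ((m s : ℝ) + 1)) k s)) := by
  classical
  induction D using Finset.induction_on with
  | empty =>
    intro m k
    have h1 := h m
    unfold facE LL
    simp only [notMem_empty, if_false]
    exact h1
  | insert s0 D hs0 ih =>
    intro m k
    set R : ℕ → ℝ := fun n => ∏ s ∈ univ.erase s0, facE a D m k s n with hR
    have hR0 : ∀ n, 0 ≤ R n := fun n => Finset.prod_nonneg fun s _ => facE_nonneg a D m k s n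
    set μ := ∏ s ∈ univ.erase s0, LL lam D (fun s => 1 / ((m s : ℝ) + 1)) k s with hμ
    have hμ0 : 0 ≤ μ := by
      rw [hμ]
      refine Finset.prod_nonneg fun s _ => ?_
      unfold LL
      have := hlam s
      split_ifs
      · positivity
      · positivity
    have hcont := cont_gf'
      (fun M j => (∑ n ∈ range M, (if a n s0 = j then (1 : ℝ) else 0) * R n) / (M : ℝ))
      (fun M l => (∑ n ∈ range M, (1 / ((l : ℝ) + 1)) ^ (a n s0) * R n) / (M : ℝ)) μ
      (lam s0) (hlam s0) hμ0
      (fun M j => div_nonneg (Finset.sum_nonneg fun n _ =>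
        mul_nonneg (by split_ifs <;> norm_num) (hR0 n)) (Nat.cast_nonneg M))
      (fun M l => ?_) (fun l => ?_) (k s0)
    · -- the conclusion
      have e1 : ∀ n, ∏ s, facE a (insert s0 D) m k s n = (if a n s0 = k s0 then (1 : ℝ) else 0) * R n := by
        intro n
        rw [← Finset.mul_prod_erase univ _ (mem_univ s0)]
        congr 1
        · unfold facE
          rw [if_pos (mem_insert_self _ _)]
        · refine Finset.prod_congr rfl fun s hs => ?_
          have hss : s ≠ s0 := (mem_erase.1 hs).1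
          unfold facE
          by_cases hsD : s ∈ D
          · rw [if_pos hsD, if_pos (mem_insert_of_mem hsD)]
          · rw [if_neg hsD, if_neg (by
              rw [mem_insert]
              push Not
              exact ⟨hss, hsD⟩)]
      have e2 : ∏ s, LL lam (insert s0 D) (fun s => 1 / ((m s : ℝ) + 1)) k s =
          μ * (Real.exp (-lam s0) * lam s0 ^ (k s0) / (k s0).factorial) := by
        rw [← Finset.mul_prod_erase univ _ (mem_univ s0), hμ]
        have e3 : LL lam (insert s0 D) (fun s => 1 / ((m s : ℝ) + 1)) k s0 =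
            Real.exp (-lam s0) * lam s0 ^ (k s0) / (k s0).factorial := by
          unfold LL
          rw [if_pos (mem_insert_self _ _)]
        have e4 : ∏ s ∈ univ.erase s0, LL lam (insert s0 D) (fun s => 1 / ((m s : ℝ) + 1)) k s =
            ∏ s ∈ univ.erase s0, LL lam D (fun s => 1 / ((m s : ℝ) + 1)) k s := by
          refine Finset.prod_congr rfl fun s hs => ?_
          have hss : s ≠ s0 := (mem_erase.1 hs).1
          unfold LL
          by_cases hsD : s ∈ D
          · rw [if_pos hsD, if_pos (mem_insert_of_mem hsD)]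
          · rw [if_neg hsD, if_neg (by
              rw [mem_insert]
              push Not
              exact ⟨hss, hsD⟩)]
        rw [e3, e4]
        ring
      rw [e2]
      refine hcont.congr fun M => ?_
      congr 1
      exact Finset.sum_congr rfl fun n _ => (e1 n).symm
    · -- the generating function
      have h2 : HasSum (fun j => ∑ n ∈ range M,
          (if a n s0 = j then (1 : ℝ) else 0) * R n * (1 / ((l : ℝ) + 1)) ^ j)
          (∑ n ∈ range M, (1 / ((l : ℝ) + 1)) ^ (a n s0) * R n) := by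
        refine hasSum_sum fun n _ => ?_
        have h3 := hasSum_ite_eq (a n s0) ((1 / ((l : ℝ) + 1)) ^ (a n s0) * R n)
        have h4 : (fun j => (if a n s0 = j then (1 : ℝ) else 0) * R n * (1 / ((l : ℝ) + 1)) ^ j) =
            fun j => if j = a n s0 then (1 / ((l : ℝ) + 1)) ^ (a n s0) * R n else 0 := by
          funext j
          by_cases hj : j = a n s0
          · rw [if_pos hj, if_pos hj.symm, hj]
            ring
          · rw [if_neg hj, if_neg (fun h => hj h.symm)]
            ring
        rw [h4]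
        exact h3
      have h5 := h2.div_const (M : ℝ)
      have h6 : (fun j => (∑ n ∈ range M, (if a n s0 = j then (1 : ℝ) else 0) * R n) / (M : ℝ) *
          (1 / ((l : ℝ) + 1)) ^ j) =
          fun j => (∑ n ∈ range M,
          (if a n s0 = j then (1 : ℝ) else 0) * R n * (1 / ((l : ℝ) + 1)) ^ j) / (M : ℝ) := by
        funext j
        rw [div_mul_eq_mul_div, Finset.sum_mul]
      change HasSum (fun j => (∑ n ∈ range M, (if a n s0 = j then (1 : ℝ) else 0) * R n) / (M : ℝ) *
          (1 / ((l : ℝ) + 1)) ^ j) _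
      rw [h6]
      exact h5
    · -- the limit of the generating function
      have h2 := ih (Function.update m s0 l) k
      have e1 : ∀ n, ∏ s, facE a D (Function.update m s0 l) k s n =
          (1 / ((l : ℝ) + 1)) ^ (a n s0) * R n := by
        intro n
        rw [← Finset.mul_prod_erase univ _ (mem_univ s0)]
        congr 1
        · unfold facE
          rw [if_neg hs0, Function.update_self]
        · refine Finset.prod_congr rfl fun s hs => ?_
          have hss : s ≠ s0 := (mem_erase.1 hs).1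
          unfold facE
          rw [Function.update_of_ne hss]
      have e2 : ∏ s, LL lam D (fun s => 1 / (((Function.update m s0 l) s : ℝ) + 1)) k s =
          μ * Real.exp (-(lam s0 * (1 - 1 / ((l : ℝ) + 1)))) := by
        rw [← Finset.mul_prod_erase univ _ (mem_univ s0), hμ]
        have e3 : LL lam D (fun s => 1 / (((Function.update m s0 l) s : ℝ) + 1)) k s0 =
            Real.exp (-(lam s0 * (1 - 1 / ((l : ℝ) + 1)))) := by
          unfold LL
          rw [if_neg hs0]
          simp only [Function.update_self]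
        have e4 : ∏ s ∈ univ.erase s0, LL lam D (fun s => 1 / (((Function.update m s0 l) s : ℝ) + 1)) k s =
            ∏ s ∈ univ.erase s0, LL lam D (fun s => 1 / ((m s : ℝ) + 1)) k s := by
          refine Finset.prod_congr rfl fun s hs => ?_
          have hss : s ≠ s0 := (mem_erase.1 hs).1
          unfold LL
          simp only [Function.update_of_ne hss]
        rw [e3, e4]
        ring
      rw [e2] at h2
      refine h2.congr fun M => ?_
      congr 1
      exact Finset.sum_congr rfl fun n _ => e1 n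

/-- the empirical law -/
theorem emp_law {r : ℕ} (a : ℕ → Fin r → ℕ) {lam : Fin r → ℝ} (hlam : ∀ s, 0 ≤ lam s)
    (h : ∀ m : Fin r → ℕ, Tendsto
      (fun M : ℕ => (∑ n ∈ range M, ∏ s, (1 / ((m s : ℝ) + 1)) ^ (a n s)) / (M : ℝ)) atTop
      (𝓝 (∏ s, Real.exp (-(lam s * (1 - 1 / ((m s : ℝ) + 1))))))) (k : Fin r → ℕ) :
    Tendsto (fun M : ℕ => (((range M).filter (fun n => ∀ s, a n s = k s)).card : ℝ) / (M : ℝ)) atTop
      (𝓝 (∏ s, (Real.exp (-lam s) * lam s ^ k s / (k s).factorial))) := by
  classical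
  have h1 := emp a hlam h univ (fun _ => 0) k
  have e1 : ∏ s, LL lam univ (fun _ => 1 / (((0 : ℕ) : ℝ) + 1)) k s =
      ∏ s, (Real.exp (-lam s) * lam s ^ k s / (k s).factorial) := by
    unfold LL
    simp
  rw [e1] at h1
  refine h1.congr fun M => ?_
  congr 1
  rw [Finset.card_filter, Nat.cast_sum]
  refine Finset.sum_congr rfl fun n _ => ?_
  unfold facE
  simp only [mem_univ, if_true]
  by_cases h2 : ∀ s, a n s = k s
  · rw [if_pos h2, Finset.prod_eq_one fun s _ => if_pos (h2 s)]
    norm_num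
  · rw [if_neg h2]
    push Not at h2
    obtain ⟨s, hs⟩ := h2
    rw [Finset.prod_eq_zero (mem_univ s) (if_neg hs)]
    norm_num

end Run7.h93.GP
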