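import Mathlib
import Pool.Agent.Run7.h93.GP.Joint

set_option autoImplicit false

/-!
# Real bases: the Poisson law for perturbed powers
-/

namespace Run7.h93.GP

open Finset Filter Topology MeasureTheory

/-- floors of near numbers -/
lemma floor_near {X Y e : ℝ} (hX : 0 ≤ X) (h : |Y - X| ≤ e) (hne : ⌊Y⌋₊ ≠ ⌊X⌋₊) :
    ∃ N : ℤ, |X - N| ≤ e := by
  rcases lt_or_gt_of_ne hne with h1 | h1
  · have h2 : Y < ⌊X⌋₊ := by
      rcases lt_or_ge Y 0 with hY | hY
      · exact hY.trans_le (Nat.cast_nonneg _)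
      · exact (Nat.floor_lt hY).1 h1
    have h3 := Nat.floor_le hX
    refine ⟨(⌊X⌋₊ : ℕ), ?_⟩
    push_cast
    rw [abs_le] at h ⊢
    constructor <;> linarith [h.1, h.2]
  · have h2 : X < ⌊Y⌋₊ := (Nat.floor_lt hX).1 h1
    have hY : 0 ≤ Y := by
      by_contra hY
      push Not at hY
      have : ⌊Y⌋₊ = 0 := Nat.floor_of_nonpos hY.le
      omega
    have h3 := Nat.floor_le hY
    refine ⟨(⌊Y⌋₊ : ℕ), ?_⟩
    push_cast
    rw [abs_le] at h ⊢
    constructor <;> linarith [h.1, h.2]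

open Classical in
/-- the number of exponents in `T` for the perturbed powers -/
noncomputable def cntE (Q : ℕ → ℕ → Prop) (α : ℝ) (E : ℝ → ℕ → ℝ) (T : Finset ℕ) (β : ℝ) : ℕ :=
  (T.filter (fun p => Q p ⌊β * α ^ p + E β p⌋₊)).card

/-- the set of a vector of counts -/
def SS {r : ℕ} (Q : ℕ → ℕ → Prop) (α : ℝ) (T : Fin r → Finset ℕ) (k : Fin r → ℕ) (u v : ℝ) : Set ℝ :=
  {β | (u < β ∧ β ≤ v) ∧ ∀ s, cnt Q α (T s) β = k s}

lemma SS_meas {r : ℕ} (Q : ℕ → ℕ → Prop) (α : ℝ) (T : Fin r → Finset ℕ) (k : Fin r → ℕ) (u v : ℝ) :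
    MeasurableSet (SS Q α T k u v) := by
  have e : SS Q α T k u v = Set.Ioc u v ∩ ⋂ s, (cnt Q α (T s)) ⁻¹' {k s} := by
    ext β
    simp [SS]
  rw [e]
  exact measurableSet_Ioc.inter (MeasurableSet.iInter fun s =>
    (cnt_meas Q α (T s)) (measurableSet_singleton _))

lemma SS_vol {r : ℕ} (Q : ℕ → ℕ → Prop) (α : ℝ) (T : Fin r → Finset ℕ) (k : Fin r → ℕ) {u v : ℝ}
    (huv : u ≤ v) : volume (SS Q α T k u v) =
      ENNReal.ofReal (∫ x in u..v, ∏ s, fac Q α T univ (fun _ => 0) k s x) := by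
  classical
  have hfin : volume (SS Q α T k u v) ≠ ⊤ := by
    have h1 : volume (SS Q α T k u v) ≤ volume (Set.Ioc u v) := measure_mono fun x hx => hx.1
    exact ne_top_of_le_ne_top (by simp) h1
  have e1 : ∀ x, ∏ s, fac Q α T univ (fun _ => 0) k s x =
      Set.indicator {x | ∀ s, cnt Q α (T s) x = k s} (fun _ => (1 : ℝ)) x := by
    intro x
    unfold fac
    simp only [mem_univ, if_true]
    by_cases h : ∀ s, cnt Q α (T s) x = k s
    · rw [Set.indicator_of_mem (show x ∈ {x | ∀ s, cnt Q α (T s) x = k s} from h)]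
      exact Finset.prod_eq_one fun s _ => if_pos (h s)
    · rw [Set.indicator_of_notMem (show x ∉ {x | ∀ s, cnt Q α (T s) x = k s} from h)]
      push Not at h
      obtain ⟨s, hs⟩ := h
      exact Finset.prod_eq_zero (mem_univ s) (if_neg hs)
  have hm : MeasurableSet {x | ∀ s, cnt Q α (T s) x = k s} := by
    have e : {x | ∀ s, cnt Q α (T s) x = k s} = ⋂ s, (cnt Q α (T s)) ⁻¹' {k s} := by
      ext β
      simp
    rw [e]
    exact MeasurableSet.iInter fun s => (cnt_meas Q α (T s)) (measurableSet_singleton _)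
  have e2 : ∫ x in u..v, ∏ s, fac Q α T univ (fun _ => 0) k s x =
      (volume (SS Q α T k u v)).toReal := by
    simp only [e1]
    rw [intervalIntegral.integral_of_le huv, integral_indicator hm, setIntegral_const, smul_eq_mul,
      mul_one, Measure.real, Measure.restrict_apply hm]
    congr 2
    ext x
    simp only [SS, Set.mem_inter_iff, Set.mem_setOf_eq, Set.mem_Ioc]
    exact and_comm
  rw [e2, ENNReal.ofReal_toReal hfin]

/-- the Poisson law -/
theorem poisson {α κ : ℝ} {Q : ℕ → ℕ → Prop} (hS : Sys α κ (chi Q)) (hκpos : 0 < κ)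
    {r : ℕ} {T : ℕ → Fin r → Finset ℕ} {lam : Fin r → ℝ} (hT : Thin κ T lam)
    (E : ℝ → ℕ → ℝ) {M ρ : ℝ} (hM : 0 ≤ M) (hρ0 : 0 ≤ ρ) (hρ1 : ρ < 1)
    (hE : ∀ β p, |E β p| ≤ M * ρ ^ p)
    {u v : ℝ} (hu : 0 < u) (huv : u < v) (k : Fin r → ℕ) :
    Tendsto (fun n => volume {β : ℝ | (u < β ∧ β ≤ v) ∧ ∀ s, cntE Q α E (T n s) β = k s}) atTop
      (𝓝 (ENNReal.ofReal ((v - u) * ∏ s, (Real.exp (-lam s) * lam s ^ k s / (k s).factorial)))) := by
  classical
  have hα0 : 0 < α := zero_lt_one.trans hS.ha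
  have hj := joint hS hκpos hT hu huv univ (fun _ => 0) (fun _ => ⟨le_rfl, zero_le_one⟩) k
  have hLL : ∏ s, LL lam univ (fun _ => 0) k s =
      ∏ s, (Real.exp (-lam s) * lam s ^ k s / (k s).factorial) := by
    unfold LL
    simp
  rw [hLL] at hj
  set L := (v - u) * ∏ s, (Real.exp (-lam s) * lam s ^ k s / (k s).factorial) with hL
  set I : ℕ → ℝ := fun n => ∫ x in u..v, ∏ s, fac Q α (T n) univ (fun _ => 0) k s x with hI
  have hI0 : ∀ n, 0 ≤ I n := fun n => by
    refine (Un.prod (f := fun s x => fac Q α (T n) univ (fun _ => 0) k s x) univ fun s _ =>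
      facU Q α (T n) univ (fun _ => ⟨le_rfl, zero_le_one⟩) k s).int_nonneg huv.le
  -- the exceptional sets
  set ε : ℕ → ℝ := fun p => min 1 (M * ρ ^ p) with hε
  set X : ℕ → Set ℝ := fun n => ⋃ p ∈ UU (T n), near (α ^ p) (M * ρ ^ p) u v with hX
  have hXv : ∀ P : ℕ, ∀ n, (∀ p ∈ UU (T n), P < p) → volume (X n) ≤
      ENNReal.ofReal (2 * (v - u + 5) * M * (ρ ^ P * (1 - ρ)⁻¹)) := by
    intro P n hn
    have hvu : 0 < v - u + 5 := by linarith
    calc volume (X n) ≤ ∑ p ∈ UU (T n), volume (near (α ^ p) (M * ρ ^ p) u v) :=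
          measure_biUnion_finset_le _ _
      _ ≤ ∑ p ∈ UU (T n), ENNReal.ofReal (2 * (v - u + 5) * M * ρ ^ p) := by
          refine Finset.sum_le_sum fun p hp => ?_
          have hp0 : 0 < α ^ p := by positivity
          have hp1 : 1 ≤ α ^ p := one_le_pow₀ hS.ha.le
          refine (near_vol hp0 (by positivity) huv.le).trans (ENNReal.ofReal_le_ofReal ?_)
          calc ((v - u) * α ^ p + 5) * (2 * (M * ρ ^ p) / α ^ p) ≤
              ((v - u + 5) * α ^ p) * (2 * (M * ρ ^ p) / α ^ p) := by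
                refine mul_le_mul_of_nonneg_right ?_ (by positivity)
                nlinarith
            _ = 2 * (v - u + 5) * M * ρ ^ p := by field_simp
      _ = ENNReal.ofReal (∑ p ∈ UU (T n), 2 * (v - u + 5) * M * ρ ^ p) := by
          rw [ENNReal.ofReal_sum_of_nonneg fun p _ => by positivity]
      _ ≤ _ := by
          refine ENNReal.ofReal_le_ofReal ?_
          rw [← Finset.mul_sum]
          refine mul_le_mul_of_nonneg_left ?_ (by positivity)
          have h1 : ∑ p ∈ UU (T n), ρ ^ p ≤ ∑' j : ℕ, ρ ^ (j + P) := by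
            have h2 : Summable fun j : ℕ => ρ ^ (j + P) :=
              (summable_nat_add_iff P).2 (summable_geometric_of_lt_one hρ0 hρ1)
            have h3 : ∑ p ∈ UU (T n), ρ ^ p = ∑ j ∈ (UU (T n)).image (fun p => p - P), ρ ^ (j + P) := by
              rw [Finset.sum_image]
              · refine Finset.sum_congr rfl fun p hp => ?_
                have := hn p hp
                congr 1
                omega
              · intro p hp q hq hpq
                have := hn p hp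
                have := hn q hq
                simp only at hpq
                omega
            rw [h3]
            exact h2.sum_le_tsum _ fun j _ => pow_nonneg hρ0 _
          refine h1.trans (le_of_eq ?_)
          simp_rw [pow_add]
          rw [tsum_mul_right, tsum_geometric_of_lt_one hρ0 hρ1, mul_comm]
  obtain ⟨δ, hδ0, hδt, hδ⟩ : ∃ δ : ℕ → ℝ, (∀ n, 0 ≤ δ n) ∧ Tendsto δ atTop (𝓝 0) ∧
      ∀ᶠ n in atTop, volume (X n) ≤ ENNReal.ofReal (δ n) := by
    have hfin : ∀ n, volume (X n) ≠ ⊤ := by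
      intro n
      refine ne_top_of_le_ne_top ?_ (measure_biUnion_finset_le _ _)
      rw [ENNReal.sum_ne_top]
      intro p _
      refine ne_top_of_le_ne_top ENNReal.ofReal_ne_top
        (near_vol (A := α ^ p) (by positivity) (by positivity) huv.le)
    refine ⟨fun n => (volume (X n)).toReal, fun n => ENNReal.toReal_nonneg, ?_,
      Eventually.of_forall fun n => by rw [ENNReal.ofReal_toReal (hfin n)]⟩
    rw [Metric.tendsto_nhds]
    intro η hη
    have h1 : Tendsto (fun P : ℕ => 2 * (v - u + 5) * M * (ρ ^ P * (1 - ρ)⁻¹)) atTop (𝓝 0) := by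
      have := ((tendsto_pow_atTop_nhds_zero_of_lt_one hρ0 hρ1).mul_const ((1 - ρ)⁻¹)).const_mul
        (2 * (v - u + 5) * M)
      simpa using this
    obtain ⟨P, hP⟩ := (h1.eventually_lt_const hη).exists
    filter_upwards [hT.min P] with n hn
    rw [Real.dist_eq, sub_zero, abs_of_nonneg ENNReal.toReal_nonneg]
    have h2 := ENNReal.toReal_mono ENNReal.ofReal_ne_top (hXv P n hn)
    rw [ENNReal.toReal_ofReal (by
      have : 0 < 1 - ρ := by linarith
      have : 0 < v - u + 5 := by linarith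
      positivity)] at h2
    exact h2.trans_lt hP
  -- agreement outside the exceptional sets
  obtain ⟨P0, hP0⟩ : ∃ P0 : ℕ, ∀ p ≥ P0, M * ρ ^ p ≤ 1 := by
    have h1 : Tendsto (fun p : ℕ => M * ρ ^ p) atTop (𝓝 0) := by
      have := (tendsto_pow_atTop_nhds_zero_of_lt_one hρ0 hρ1).const_mul M
      simpa using this
    exact (h1.eventually_le_const one_pos).exists_forall_of_atTop
  have hag : ∀ n, (∀ p ∈ UU (T n), P0 < p) → ∀ β, u < β → β ≤ v → β ∉ X n → ∀ s,
      cntE Q α E (T n s) β = cnt Q α (T n s) β := by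
    intro n hn β h1 h2 h3 s
    unfold cntE cnt
    congr 1
    refine Finset.filter_congr fun p hp => ?_
    have hpU : p ∈ UU (T n) := by
      unfold UU
      rw [Finset.mem_biUnion]
      exact ⟨s, mem_univ s, hp⟩
    have hfl : ⌊β * α ^ p + E β p⌋₊ = ⌊β * α ^ p⌋₊ := by
      by_contra hne
      obtain ⟨N, hN⟩ := floor_near (e := M * ρ ^ p) (by
        have : 0 < β := hu.trans h1
        positivity : 0 ≤ β * α ^ p) (by rw [add_sub_cancel_left]; exact hE β p) hne
      apply h3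
      rw [hX, Set.mem_iUnion₂]
      exact ⟨p, hpU, mem_near (by positivity) (hP0 p (hn p hpU).le) ⟨h1, h2⟩ hN⟩
    rw [hfl]
  -- the sandwich
  have hup : ∀ᶠ n in atTop, volume {β : ℝ | (u < β ∧ β ≤ v) ∧ ∀ s, cntE Q α E (T n s) β = k s} ≤
      ENNReal.ofReal (I n + δ n) := by
    filter_upwards [hδ, hT.min P0] with n hn1 hn2
    have h1 : {β : ℝ | (u < β ∧ β ≤ v) ∧ ∀ s, cntE Q α E (T n s) β = k s} ⊆
        SS Q α (T n) k u v ∪ X n := by
      rintro β ⟨⟨h2, h3⟩, h4⟩
      by_cases hβ : β ∈ X n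
      · exact Or.inr hβ
      · left
        refine ⟨⟨h2, h3⟩, fun s => ?_⟩
        rw [← hag n hn2 β h2 h3 hβ s]
        exact h4 s
    refine (measure_mono h1).trans ((measure_union_le _ _).trans ?_)
    rw [SS_vol Q α (T n) k huv.le, ENNReal.ofReal_add (hI0 n) (hδ0 n)]
    exact add_le_add le_rfl hn1
  have hlow : ∀ᶠ n in atTop, ENNReal.ofReal (I n - δ n) ≤
      volume {β : ℝ | (u < β ∧ β ≤ v) ∧ ∀ s, cntE Q α E (T n s) β = k s} := by
    filter_upwards [hδ, hT.min P0] with n hn1 hn2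
    have h1 : SS Q α (T n) k u v ⊆
        {β : ℝ | (u < β ∧ β ≤ v) ∧ ∀ s, cntE Q α E (T n s) β = k s} ∪ X n := by
      rintro β ⟨⟨h2, h3⟩, h4⟩
      by_cases hβ : β ∈ X n
      · exact Or.inr hβ
      · left
        refine ⟨⟨h2, h3⟩, fun s => ?_⟩
        rw [hag n hn2 β h2 h3 hβ s]
        exact h4 s
    have h2 := (measure_mono h1).trans (measure_union_le (μ := volume) _ _)
    rw [SS_vol Q α (T n) k huv.le] at h2
    rw [ENNReal.ofReal_sub _ (hδ0 n), tsub_le_iff_right]
    exact h2.trans (add_le_add le_rfl hn1)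
  have t1 : Tendsto (fun n => ENNReal.ofReal (I n - δ n)) atTop (𝓝 (ENNReal.ofReal L)) := by
    have := hj.sub hδt
    rw [sub_zero] at this
    exact ENNReal.tendsto_ofReal this
  have t2 : Tendsto (fun n => ENNReal.ofReal (I n + δ n)) atTop (𝓝 (ENNReal.ofReal L)) := by
    have := hj.add hδt
    rw [add_zero] at this
    exact ENNReal.tendsto_ofReal this
  exact tendsto_of_tendsto_of_tendsto_of_le_of_le' t1 t2 hlow hup

end Run7.h93.GP
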