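import Mathlib
import Pool.Agent.Run7.h93.GP.Fin

set_option autoImplicit false

/-!
# Real bases: intervals starting at zero
-/

namespace Run7.h93.GP

open Finset Filter Topology MeasureTheory

/-- from the intervals `(ε, v]` to `(0, v]` -/
lemma zero_limit {S : ℕ → ℝ → Prop} {v c : ℝ} (hv : 0 < v)
    (h : ∀ u, 0 < u → u < v → Tendsto (fun n => volume {β : ℝ | (u < β ∧ β ≤ v) ∧ S n β}) atTop
      (𝓝 (ENNReal.ofReal ((v - u) * c)))) :
    Tendsto (fun n => volume {β : ℝ | (0 < β ∧ β ≤ v) ∧ S n β}) atTop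
      (𝓝 (ENNReal.ofReal ((v - 0) * c))) := by
  have h1 : Tendsto (fun ε : ℝ => ENNReal.ofReal ((v - ε) * c)) (𝓝[>] 0)
      (𝓝 (ENNReal.ofReal ((v - 0) * c))) := by
    refine ENNReal.tendsto_ofReal ?_
    have : Continuous fun ε : ℝ => (v - ε) * c := by fun_prop
    exact (this.tendsto 0).mono_left nhdsWithin_le_nhds
  have h2 : Tendsto (fun ε : ℝ => ENNReal.ofReal ((v - ε) * c) + ENNReal.ofReal ε) (𝓝[>] 0)
      (𝓝 (ENNReal.ofReal ((v - 0) * c))) := by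
    have h3 : Tendsto (fun ε : ℝ => ENNReal.ofReal ε) (𝓝[>] 0) (𝓝 (ENNReal.ofReal 0)) :=
      ENNReal.tendsto_ofReal (tendsto_id.mono_left nhdsWithin_le_nhds)
    have := h1.add h3
    simpa using this
  have hpos : ∀ᶠ ε : ℝ in 𝓝[>] 0, 0 < ε ∧ ε < v := by
    filter_upwards [Ioo_mem_nhdsGT hv] with ε hε
    exact hε
  rw [tendsto_order]
  constructor
  · intro a ha
    obtain ⟨ε, h3, h4, h5⟩ := ((h1.eventually_const_lt ha).and hpos).exists
    filter_upwards [(h ε h4 h5).eventually_const_lt h3] with n hn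
    refine hn.trans_le (measure_mono ?_)
    rintro β ⟨⟨h6, h7⟩, h8⟩
    exact ⟨⟨h4.trans h6, h7⟩, h8⟩
  · intro a ha
    obtain ⟨ε, h3, h4, h5⟩ := ((h2.eventually_lt_const ha).and hpos).exists
    have h6 : Tendsto (fun n => volume {β : ℝ | (ε < β ∧ β ≤ v) ∧ S n β} + ENNReal.ofReal ε) atTop
        (𝓝 (ENNReal.ofReal ((v - ε) * c) + ENNReal.ofReal ε)) :=
      (h ε h4 h5).add tendsto_const_nhds
    filter_upwards [h6.eventually_lt_const h3] with n hn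
    refine lt_of_le_of_lt ?_ hn
    have h7 : {β : ℝ | (0 < β ∧ β ≤ v) ∧ S n β} ⊆
        {β : ℝ | (ε < β ∧ β ≤ v) ∧ S n β} ∪ Set.Ioc 0 ε := by
      rintro β ⟨⟨h8, h9⟩, h10⟩
      rcases le_or_gt β ε with h | h
      · exact Or.inr ⟨h8, h⟩
      · exact Or.inl ⟨⟨h, h9⟩, h10⟩
    refine (measure_mono h7).trans ((measure_union_le _ _).trans ?_)
    rw [Real.volume_Ioc, sub_zero]

/-- the Poisson law -/
theorem poisson_zero {α κ : ℝ} {Q : ℕ → ℕ → Prop} (hS : Sys α κ (chi Q)) (hκpos : 0 < κ)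
    {r : ℕ} {T : ℕ → Fin r → Finset ℕ} {lam : Fin r → ℝ} (hT : Thin κ T lam)
    (E : ℝ → ℕ → ℝ) {M ρ : ℝ} (hM : 0 ≤ M) (hρ0 : 0 ≤ ρ) (hρ1 : ρ < 1)
    (hE : ∀ β p, |E β p| ≤ M * ρ ^ p)
    {u v : ℝ} (hu : 0 ≤ u) (huv : u < v) (k : Fin r → ℕ) :
    Tendsto (fun n => volume {β : ℝ | (u < β ∧ β ≤ v) ∧ ∀ s, cntE Q α E (T n s) β = k s}) atTop
      (𝓝 (ENNReal.ofReal ((v - u) * ∏ s, (Real.exp (-lam s) * lam s ^ k s / (k s).factorial)))) := by
  rcases hu.eq_or_lt with h | h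
  · subst h
    exact zero_limit huv fun u hu hv => poisson hS hκpos hT E hM hρ0 hρ1 hE hu hv k
  · exact poisson hS hκpos hT E hM hρ0 hρ1 hE h huv k

end Run7.h93.GP
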