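import Mathlib
import Pool.Agent.Run7.h93.GP.Emp
import Pool.Agent.Run7.h93.GP.Zero

set_option autoImplicit false

/-!
# The strong law for weakly correlated functions; comparison of two families of laws
-/

namespace Run7.h93.GP

open Finset Filter Topology MeasureTheory

/-- interpolation along powers -/
lemma interp {y : ℕ → ℝ} (hy : ∀ n, |y n| ≤ 1) {d : ℕ} (hd : 1 ≤ d)
    (h : Tendsto (fun k : ℕ => (∑ n ∈ range ((k + 1) ^ d), y n) / (((k + 1) ^ d : ℕ) : ℝ))
      atTop (𝓝 0)) :
    Tendsto (fun M : ℕ => (∑ n ∈ range M, y n) / (M : ℝ)) atTop (𝓝 0) := by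
  classical
  set κ : ℕ → ℕ := fun M => Nat.findGreatest (fun k => (k + 1) ^ d ≤ M) M with hκ
  have h1 : ∀ M : ℕ, 1 ≤ M → (κ M + 1) ^ d ≤ M := by
    intro M hM
    exact Nat.findGreatest_spec (P := fun k => (k + 1) ^ d ≤ M) (Nat.zero_le M) (by simpa using hM)
  have h2 : ∀ M : ℕ, 1 ≤ M → M < (κ M + 2) ^ d := by
    intro M hM
    by_contra hc
    push Not at hc
    have h3 : κ M + 2 ≤ M := le_trans (by
      calc κ M + 2 = (κ M + 2) ^ 1 := (pow_one _).symm
        _ ≤ (κ M + 2) ^ d := Nat.pow_le_pow_right (by omega) hd) hc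
    exact Nat.findGreatest_is_greatest (P := fun k => (k + 1) ^ d ≤ M) (n := M) (k := κ M + 1)
      (Nat.lt_succ_self _) (by omega) hc
  have h3 : Tendsto κ atTop atTop := by
    rw [tendsto_atTop]
    intro b
    filter_upwards [eventually_ge_atTop ((b + 2) ^ d), eventually_ge_atTop 1] with M hM hM1
    by_contra hc
    push Not at hc
    have h4 := h2 M hM1
    have h5 : (κ M + 2) ^ d ≤ (b + 2) ^ d := Nat.pow_le_pow_left (by omega) d
    omega
  have h4 : Tendsto (fun k : ℕ => (((k : ℝ) + 2) / ((k : ℝ) + 1)) ^ d - 1) atTop (𝓝 0) := by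
    have h3 : Tendsto (fun k : ℕ => ((k : ℝ) + 2) / ((k : ℝ) + 1)) atTop (𝓝 1) := by
      have h4 : Tendsto (fun k : ℕ => 1 + 1 / ((k : ℝ) + 1)) atTop (𝓝 (1 + 0)) :=
        tendsto_const_nhds.add tendsto_one_div_add_atTop_nhds_zero_nat
      rw [add_zero] at h4
      refine h4.congr fun k => ?_
      have : (0 : ℝ) < (k : ℝ) + 1 := by positivity
      field_simp
      ring
    have := (h3.pow d).sub_const 1
    rwa [one_pow, sub_self] at this
  have h5 := (h.abs.add h4).comp h3
  rw [abs_zero, add_zero] at h5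
  refine squeeze_zero_norm' ?_ h5
  filter_upwards [eventually_ge_atTop 1] with M hM
  have g1 := h1 M hM
  have g2 := h2 M hM
  have hM0 : (0 : ℝ) < M := by exact_mod_cast hM
  set K := κ M with hK
  set m := (K + 1) ^ d with hm
  have hm1 : 1 ≤ m := Nat.one_le_pow _ _ (by omega)
  have hm0 : (0 : ℝ) < (m : ℝ) := by exact_mod_cast hm1
  have hmM : (m : ℝ) ≤ M := by exact_mod_cast g1
  have g3 : ∑ n ∈ range M, y n = ∑ n ∈ range m, y n + ∑ n ∈ Ico m M, y n := by
    rw [Finset.sum_range_add_sum_Ico _ g1]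
  have g4 : |∑ n ∈ Ico m M, y n| ≤ (M : ℝ) - m := by
    refine (Finset.abs_sum_le_sum_abs _ _).trans ((Finset.sum_le_sum fun n _ => hy n).trans ?_)
    rw [Finset.sum_const, Nat.card_Ico, nsmul_eq_mul, mul_one, Nat.cast_sub g1]
  have g5 : (M : ℝ) ≤ ((K : ℝ) + 2) ^ d := by
    have : (M : ℝ) ≤ (((K + 2) ^ d : ℕ) : ℝ) := by exact_mod_cast g2.le
    push_cast at this
    exact this
  have hm' : (m : ℝ) = ((K : ℝ) + 1) ^ d := by rw [hm]; push_cast; rfl
  rw [Real.norm_eq_abs, abs_div, abs_of_pos hM0]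
  simp only [Function.comp]
  rw [← hK, ← hm, abs_div, abs_of_pos hm0, div_pow, ← hm', g3]
  have g6 := abs_add_le (∑ n ∈ range m, y n) (∑ n ∈ Ico m M, y n)
  have g7 : |∑ n ∈ range m, y n + ∑ n ∈ Ico m M, y n| / (M : ℝ) ≤
      (|∑ n ∈ range m, y n| + ((M : ℝ) - m)) / m := by
    refine div_le_div₀ (by
      have := abs_nonneg (∑ n ∈ range m, y n)
      linarith) (by linarith) hm0 hmM
  refine g7.trans ?_
  rw [add_div, sub_div, div_self hm0.ne']
  have g8 : (M : ℝ) / m ≤ ((K : ℝ) + 2) ^ d / m := div_le_div_of_nonneg_right g5 hm0.le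
  linarith

/-- the strong law -/
theorem slln' {F : ℕ → ℝ → ℝ} {e : ℕ → ℝ} {u v K c : ℝ} (huv : u ≤ v) (hF : ∀ n, Un (F n))
    (he : ∀ n, 0 ≤ e n ∧ e n ≤ 1) (hK : 0 ≤ K) (hc : 0 < c)
    (hcov : ∀ i j, i < j → |∫ x in u..v, (F i x - e i) * (F j x - e j)| ≤
      K * ((i : ℝ) + 1) ^ (-c)) :
    ∀ᵐ x ∂(volume.restrict (Set.Ioc u v)),
      Tendsto (fun M : ℕ => (∑ n ∈ range M, (F n x - e n)) / (M : ℝ)) atTop (𝓝 0) := by
  obtain ⟨r, hr, hrc⟩ : ∃ r : ℕ, 2 ≤ r ∧ 2 ≤ r * c := by
    obtain ⟨n, hn⟩ := exists_nat_ge (2 / c)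
    rw [div_le_iff₀ hc] at hn
    refine ⟨max 2 n, le_max_left _ _, hn.trans ?_⟩
    exact mul_le_mul_of_nonneg_right (by exact_mod_cast le_max_right _ _) hc.le
  have hb : ∀ n x, |F n x - e n| ≤ 1 := fun n x => by
    have := (hF n).n x
    have := (hF n).o x
    have := he n
    rw [abs_le]
    constructor <;> linarith [this.1, this.2]
  have h1 := slln_sub (Y := fun n x => F n x - e n) huv (fun n => (hF n).m.sub_const _)
    hb hK hc hcov hr hrc
  filter_upwards [h1] with x hx
  exact interp (fun n => hb n x) (by omega) hx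

/-- comparison of two families of laws by their generating functions -/
theorem cmp_gf (f g : ℕ → ℕ → ℝ) (F H : ℕ → ℕ → ℝ) {A : ℝ} (hA : 0 ≤ A)
    (hf : ∀ n k, 0 ≤ f n k) (hg : ∀ n k, 0 ≤ g n k)
    (hF : ∀ n m : ℕ, HasSum (fun k => f n k * (1 / ((m : ℝ) + 1)) ^ k) (F n m))
    (hH : ∀ n m : ℕ, HasSum (fun k => g n k * (1 / ((m : ℝ) + 1)) ^ k) (H n m))
    (hFA : ∀ n, F n 0 ≤ A) (hHA : ∀ n, H n 0 ≤ A)
    (hlim : ∀ m : ℕ, Tendsto (fun n => F n m - H n m) atTop (𝓝 0)) (k : ℕ) :
    Tendsto (fun n => f n k - g n k) atTop (𝓝 0) := by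
  have hF1 : ∀ n, HasSum (fun k => f n k * 1 ^ k) (F n 0) := fun n => by simpa using hF n 0
  have hH1 : ∀ n, HasSum (fun k => g n k * 1 ^ k) (H n 0) := fun n => by simpa using hH n 0
  induction k using Nat.strong_induction_on with
  | _ k ih =>
    rw [Metric.tendsto_nhds]
    intro ε hε
    obtain ⟨m, hm⟩ := exists_nat_one_div_lt (show 0 < ε / (4 * (A + 1)) by positivity)
    obtain ⟨θ, hθd⟩ : ∃ θ : ℝ, θ = 1 / ((m : ℝ) + 1) := ⟨_, rfl⟩
    have hθ0 : 0 < θ := by rw [hθd]; positivity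
    have hθ1 : θ ≤ 1 := by
      rw [hθd, div_le_one (by positivity)]
      linarith [(Nat.cast_nonneg m : (0 : ℝ) ≤ m)]
    have hθ : θ * (A + 1) ≤ ε / 4 := by
      rw [← hθd] at hm
      calc θ * (A + 1) ≤ ε / (4 * (A + 1)) * (A + 1) :=
            mul_le_mul_of_nonneg_right hm.le (by positivity)
        _ = ε / 4 := by field_simp
    have hFm := fun n => hF n m
    have hHm := fun n => hH n m
    have hlm := hlim m
    simp only [← hθd] at hFm hHm
    have hpos : 0 < θ ^ k := pow_pos hθ0 k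
    have h1 : Tendsto (fun n => (F n m - H n m) - ∑ l ∈ range k, (f n l - g n l) * θ ^ l) atTop
        (𝓝 0) := by
      have h2 : Tendsto (fun n => ∑ l ∈ range k, (f n l - g n l) * θ ^ l) atTop
          (𝓝 (∑ l ∈ range k, 0 * θ ^ l)) :=
        tendsto_finsetSum _ fun l hl => (ih l (mem_range.1 hl)).mul_const _
      simp only [zero_mul, Finset.sum_const_zero] at h2
      have := hlm.sub h2
      rwa [sub_zero] at this
    have h2 := (Metric.tendsto_nhds.1 h1) (θ ^ k * (ε / 4)) (by positivity)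
    filter_upwards [h2] with n h2
    obtain ⟨h4, h5⟩ := coef_bound (hf n) hθ0.le hθ1 (hF1 n) (hFm n) k
    obtain ⟨h6, h7⟩ := coef_bound (hg n) hθ0.le hθ1 (hH1 n) (hHm n) k
    rw [Real.dist_eq] at h2 ⊢
    rw [sub_zero] at h2 ⊢
    have e0 : (F n m - H n m) - ∑ l ∈ range k, (f n l - g n l) * θ ^ l =
        (F n m - ∑ l ∈ range k, f n l * θ ^ l) - (H n m - ∑ l ∈ range k, g n l * θ ^ l) := by
      have : ∑ l ∈ range k, (f n l - g n l) * θ ^ l =
          ∑ l ∈ range k, f n l * θ ^ l - ∑ l ∈ range k, g n l * θ ^ l := by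
        rw [← Finset.sum_sub_distrib]
        exact Finset.sum_congr rfl fun l _ => by ring
      rw [this]
      ring
    rw [e0] at h2
    set X := F n m - ∑ l ∈ range k, f n l * θ ^ l with hX
    set Z := H n m - ∑ l ∈ range k, g n l * θ ^ l with hZ
    have e1 : θ ^ (k + 1) = θ ^ k * θ := pow_succ _ _
    rw [e1] at h5 h7
    have h9 : θ ^ k * θ * F n 0 ≤ θ ^ k * θ * A :=
      mul_le_mul_of_nonneg_left (hFA n) (by positivity)
    have h10 : θ ^ k * θ * H n 0 ≤ θ ^ k * θ * A :=
      mul_le_mul_of_nonneg_left (hHA n) (by positivity)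
    have h11 : θ ^ k * (θ * A) ≤ θ ^ k * (ε / 4) := by
      refine mul_le_mul_of_nonneg_left ?_ hpos.le
      nlinarith
    have h8 : |f n k - g n k| * θ ^ k ≤ (ε / 2) * θ ^ k := by
      rw [← abs_of_nonneg hpos.le, ← abs_mul, abs_of_nonneg hpos.le]
      rw [abs_lt] at h2
      rw [abs_le]
      constructor <;> nlinarith
    have := le_of_mul_le_mul_right h8 hpos
    linarith

/-- the limit factors -/
noncomputable def LE {r : ℕ} (lam : ℕ → Fin r → ℝ) (D : Finset (Fin r)) (m k : Fin r → ℕ)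
    (s : Fin r) (n : ℕ) : ℝ :=
  if s ∈ D then Real.exp (-lam n s) * lam n s ^ k s / (k s).factorial
    else Real.exp (-(lam n s * (1 - 1 / ((m s : ℝ) + 1))))

lemma pois_le {x : ℝ} (hx : 0 ≤ x) (k : ℕ) :
    0 ≤ Real.exp (-x) * x ^ k / k.factorial ∧ Real.exp (-x) * x ^ k / k.factorial ≤ 1 := by
  refine ⟨by positivity, ?_⟩
  rw [mul_div_assoc, Real.exp_neg, inv_mul_le_iff₀ (Real.exp_pos _), mul_one]
  exact Real.pow_div_factorial_le_exp x hx k

lemma LE_mem {r : ℕ} {lam : ℕ → Fin r → ℝ} (hlam : ∀ n s, 0 ≤ lam n s) (D : Finset (Fin r))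
    (m k : Fin r → ℕ) (s : Fin r) (n : ℕ) : 0 ≤ LE lam D m k s n ∧ LE lam D m k s n ≤ 1 := by
  unfold LE
  split_ifs
  · exact pois_le (hlam n s) (k s)
  · refine ⟨(Real.exp_pos _).le, Real.exp_le_one_iff.2 ?_⟩
    have h1 : 1 / ((m s : ℝ) + 1) ≤ 1 := by
      rw [div_le_one (by positivity)]
      linarith [(Nat.cast_nonneg (m s) : (0 : ℝ) ≤ m s)]
    have := mul_nonneg (hlam n s) (sub_nonneg.2 h1)
    linarith

lemma facE_le {r : ℕ} (a : ℕ → Fin r → ℕ) (D : Finset (Fin r)) (m k : Fin r → ℕ)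
    (s : Fin r) (n : ℕ) : facE a D m k s n ≤ 1 := by
  unfold facE
  split_ifs
  · norm_num
  · norm_num
  · refine pow_le_one₀ (by positivity) ?_
    rw [div_le_one (by positivity)]
    linarith [(Nat.cast_nonneg (m s) : (0 : ℝ) ≤ m s)]

theorem emp2 {r : ℕ} (a : ℕ → Fin r → ℕ) {lam : ℕ → Fin r → ℝ} (hlam : ∀ n s, 0 ≤ lam n s)
    (h : ∀ m : Fin r → ℕ, Tendsto
      (fun M : ℕ => (∑ n ∈ range M, (∏ s, (1 / ((m s : ℝ) + 1)) ^ (a n s) -
        ∏ s, Real.exp (-(lam n s * (1 - 1 / ((m s : ℝ) + 1)))))) / (M : ℝ)) atTop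
      (𝓝 0)) (D : Finset (Fin r)) :
    ∀ m k : Fin r → ℕ, Tendsto
      (fun M : ℕ => (∑ n ∈ range M, (∏ s, facE a D m k s n - ∏ s, LE lam D m k s n)) / (M : ℝ)) atTop
      (𝓝 0) := by
  classical
  induction D using Finset.induction_on with
  | empty =>
    intro m k
    have h1 := h m
    unfold facE LE
    simp only [notMem_empty, if_false]
    exact h1
  | insert s0 D hs0 ih =>
    intro m k
    set R : ℕ → ℝ := fun n => ∏ s ∈ univ.erase s0, facE a D m k s n with hR
    have hR0 : ∀ n, 0 ≤ R n := fun n => Finset.prod_nonneg fun s _ => facE_nonneg a D m k s n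
    have hR1 : ∀ n, R n ≤ 1 := fun n => Finset.prod_le_one
      (fun s _ => facE_nonneg a D m k s n) fun s _ => facE_le a D m k s n
    set S : ℕ → ℝ := fun n => ∏ s ∈ univ.erase s0, LE lam D m k s n with hS
    have hS0 : ∀ n, 0 ≤ S n := fun n => Finset.prod_nonneg fun s _ => (LE_mem hlam D m k s n).1
    have hS1 : ∀ n, S n ≤ 1 := fun n => Finset.prod_le_one
      (fun s _ => (LE_mem hlam D m k s n).1) fun s _ => (LE_mem hlam D m k s n).2
    have hne : ∀ (s : Fin r), s ∈ univ.erase s0 → (s ∈ insert s0 D ↔ s ∈ D) := by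
      intro s hs
      have hss : s ≠ s0 := (mem_erase.1 hs).1
      rw [mem_insert]
      exact ⟨fun h => h.resolve_left hss, Or.inr⟩
    have hdiv1 : ∀ (M : ℕ) (x : ℕ → ℝ), (∀ n, x n ≤ 1) → (∑ n ∈ range M, x n) / (M : ℝ) ≤ 1 := by
      intro M x hx
      rcases Nat.eq_zero_or_pos M with hM | hM
      · rw [hM]; simp
      · rw [div_le_one (by exact_mod_cast hM)]
        refine (Finset.sum_le_sum fun n _ => hx n).trans ?_
        rw [Finset.sum_const, card_range, nsmul_eq_mul, mul_one]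
    have hcont := cmp_gf
      (fun M j => (∑ n ∈ range M, (if a n s0 = j then (1 : ℝ) else 0) * R n) / (M : ℝ))
      (fun M j => (∑ n ∈ range M, S n * (Real.exp (-lam n s0) * lam n s0 ^ j / j.factorial)) / (M : ℝ))
      (fun M l => (∑ n ∈ range M, (1 / ((l : ℝ) + 1)) ^ (a n s0) * R n) / (M : ℝ))
      (fun M l => (∑ n ∈ range M, S n * Real.exp (-(lam n s0 * (1 - 1 / ((l : ℝ) + 1))))) / (M : ℝ))
      zero_le_one
      (fun M j => div_nonneg (Finset.sum_nonneg fun n _ =>
        mul_nonneg (by split_ifs <;> norm_num) (hR0 n)) (Nat.cast_nonneg M))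
      (fun M j => div_nonneg (Finset.sum_nonneg fun n _ =>
        mul_nonneg (hS0 n) (pois_le (hlam n s0) j).1) (Nat.cast_nonneg M))
      (fun M l => ?_) (fun M l => ?_) (fun M => ?_) (fun M => ?_) (fun l => ?_) (k s0)
    · -- the conclusion
      refine hcont.congr fun M => ?_
      rw [← sub_div, ← Finset.sum_sub_distrib]
      congr 1
      refine Finset.sum_congr rfl fun n _ => ?_
      rw [← Finset.mul_prod_erase univ _ (mem_univ s0), ← Finset.mul_prod_erase univ (fun s =>
        LE lam (insert s0 D) m k s n) (mem_univ s0)]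
      have e1 : facE a (insert s0 D) m k s0 n = (if a n s0 = k s0 then (1 : ℝ) else 0) := by
        unfold facE
        rw [if_pos (mem_insert_self _ _)]
      have e2 : ∏ s ∈ univ.erase s0, facE a (insert s0 D) m k s n = R n := by
        rw [hR]
        refine Finset.prod_congr rfl fun s hs => ?_
        unfold facE
        simp only [hne s hs]
      have e3 : LE lam (insert s0 D) m k s0 n =
          Real.exp (-lam n s0) * lam n s0 ^ k s0 / (k s0).factorial := by
        unfold LE
        rw [if_pos (mem_insert_self _ _)]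
      have e4 : ∏ s ∈ univ.erase s0, LE lam (insert s0 D) m k s n = S n := by
        rw [hS]
        refine Finset.prod_congr rfl fun s hs => ?_
        unfold LE
        simp only [hne s hs]
      rw [e1, e2, e3, e4]
      ring
    · -- the generating function
      have h2 : HasSum (fun j => ∑ n ∈ range M,
          (if a n s0 = j then (1 : ℝ) else 0) * R n * (1 / ((l : ℝ) + 1)) ^ j)
          (∑ n ∈ range M, (1 / ((l : ℝ) + 1)) ^ (a n s0) * R n) := by
        refine hasSum_sum fun n _ => ?_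
        have h3 := hasSum_ite_eq (a n s0) ((1 / ((l : ℝ) + 1)) ^ (a n s0) * R n)
        have h4 : (fun j => (if a n s0 = j then (1 : ℝ) else 0) * R n * (1 / ((l : ℝ) + 1)) ^ j) =
            fun j => if j = a n s0 then (1 / ((l : ℝ) + 1)) ^ (a n s0) * R n else 0 := by
          funext j
          by_cases hj : j = a n s0
          · rw [if_pos hj, if_pos hj.symm, hj]
            ring
          · rw [if_neg hj, if_neg (fun h => hj h.symm)]
            ring
        rw [h4]
        exact h3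
      have h5 := h2.div_const (M : ℝ)
      have h6 : (fun j => (∑ n ∈ range M, (if a n s0 = j then (1 : ℝ) else 0) * R n) / (M : ℝ) *
          (1 / ((l : ℝ) + 1)) ^ j) =
          fun j => (∑ n ∈ range M,
          (if a n s0 = j then (1 : ℝ) else 0) * R n * (1 / ((l : ℝ) + 1)) ^ j) / (M : ℝ) := by
        funext j
        rw [div_mul_eq_mul_div, Finset.sum_mul]
      change HasSum (fun j => (∑ n ∈ range M, (if a n s0 = j then (1 : ℝ) else 0) * R n) / (M : ℝ) *
          (1 / ((l : ℝ) + 1)) ^ j) _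
      rw [h6]
      exact h5
    · -- the generating function of the Poisson laws
      have h2 : HasSum (fun j : ℕ => ∑ n ∈ range M,
          S n * (Real.exp (-lam n s0) * lam n s0 ^ j / j.factorial) * (1 / ((l : ℝ) + 1)) ^ j)
          (∑ n ∈ range M, S n * Real.exp (-(lam n s0 * (1 - 1 / ((l : ℝ) + 1))))) :=
        hasSum_sum fun n _ => hasSum_poisson (S n) (lam n s0) (1 / ((l : ℝ) + 1))
      have h5 := h2.div_const (M : ℝ)
      have h6 : (fun j : ℕ => (∑ n ∈ range M, S n * (Real.exp (-lam n s0) * lam n s0 ^ j /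
          j.factorial)) / (M : ℝ) * (1 / ((l : ℝ) + 1)) ^ j) =
          fun j : ℕ => (∑ n ∈ range M,
          S n * (Real.exp (-lam n s0) * lam n s0 ^ j / j.factorial) * (1 / ((l : ℝ) + 1)) ^ j) /
            (M : ℝ) := by
        funext j
        rw [div_mul_eq_mul_div, Finset.sum_mul]
      change HasSum (fun j : ℕ => (∑ n ∈ range M, S n * (Real.exp (-lam n s0) * lam n s0 ^ j /
          j.factorial)) / (M : ℝ) * (1 / ((l : ℝ) + 1)) ^ j) _
      rw [h6]
      exact h5
    · refine hdiv1 M _ fun n => ?_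
      have : (1 / (((0 : ℕ) : ℝ) + 1)) ^ (a n s0) = (1 : ℝ) := by simp
      rw [this, one_mul]
      exact hR1 n
    · refine hdiv1 M _ fun n => ?_
      have : Real.exp (-(lam n s0 * (1 - 1 / (((0 : ℕ) : ℝ) + 1)))) = 1 := by simp
      rw [this, mul_one]
      exact hS1 n
    · -- the limit of the generating function
      have h2 := ih (Function.update m s0 l) k
      refine h2.congr fun M => ?_
      rw [← sub_div, ← Finset.sum_sub_distrib]
      congr 1
      refine Finset.sum_congr rfl fun n _ => ?_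
      rw [← Finset.mul_prod_erase univ _ (mem_univ s0), ← Finset.mul_prod_erase univ (fun s =>
        LE lam D (Function.update m s0 l) k s n) (mem_univ s0)]
      have e1 : facE a D (Function.update m s0 l) k s0 n = (1 / ((l : ℝ) + 1)) ^ (a n s0) := by
        unfold facE
        rw [if_neg hs0, Function.update_self]
      have e2 : ∏ s ∈ univ.erase s0, facE a D (Function.update m s0 l) k s n = R n := by
        rw [hR]
        refine Finset.prod_congr rfl fun s hs => ?_
        have hss : s ≠ s0 := (mem_erase.1 hs).1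
        unfold facE
        rw [Function.update_of_ne hss]
      have e3 : LE lam D (Function.update m s0 l) k s0 n =
          Real.exp (-(lam n s0 * (1 - 1 / ((l : ℝ) + 1)))) := by
        unfold LE
        rw [if_neg hs0, Function.update_self]
      have e4 : ∏ s ∈ univ.erase s0, LE lam D (Function.update m s0 l) k s n = S n := by
        rw [hS]
        refine Finset.prod_congr rfl fun s hs => ?_
        have hss : s ≠ s0 := (mem_erase.1 hs).1
        unfold LE
        rw [Function.update_of_ne hss]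
      rw [e1, e2, e3, e4]
      ring

end Run7.h93.GP
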