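import Mathlib
import Pool.Agent.Run7.h93.GP.Emp
import Pool.Agent.Run7.h93.GP.Zero

set_option autoImplicit false

/-!
# The empirical law of the counts for almost every number
-/

namespace Run7.h93.GP

open Finset Filter Topology MeasureTheory

variable {r : ℕ} {α κ : ℝ} {T : ℕ → Fin r → Finset ℕ} {lam : Fin r → ℝ}

lemma Rate.pw (hT : Rate κ T lam) (n : ℕ) : Pairwise fun s s' => Disjoint (T n s) (T n s') :=
  fun s s' h => hT.disj n s n s' (Or.inr h)

lemma Rate.uu (hT : Rate κ T lam) {i j : ℕ} (hij : i ≠ j) : Disjoint (UU (T i)) (UU (T j)) := by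
  unfold UU
  rw [Finset.disjoint_biUnion_left]
  intro s _
  rw [Finset.disjoint_biUnion_right]
  intro s' _
  exact hT.disj i s j s' (Or.inl hij)

lemma Rate.large (hT : Rate κ T lam) (X : ℝ) : ∀ᶠ n in atTop, ∀ p ∈ UU (T n), X ≤ (p : ℝ) := by
  obtain ⟨c, C, hc, hC, h⟩ := hT.rate
  have h1 : Tendsto (fun n : ℕ => ((n : ℝ) + 1) ^ c) atTop atTop :=
    (tendsto_rpow_atTop hc).comp (tendsto_atTop_add_const_right _ _ tendsto_natCast_atTop_atTop)
  filter_upwards [h1.eventually_gt_atTop (C * Real.log (max X 1))] with n hn p hp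
  have h2 := hn.trans_le ((h n).1 p hp)
  have h3 : Real.log (max X 1) < Real.log p := lt_of_mul_lt_mul_left h2 hC.le
  have h4 : 0 ≤ Real.log (max X 1) := Real.log_nonneg (le_max_right _ _)
  by_contra h5
  push Not at h5
  have hp0 : (0 : ℝ) < p := by
    rcases Nat.eq_zero_or_pos p with h6 | h6
    · rw [h6] at h3
      simp only [Nat.cast_zero, Real.log_zero] at h3
      linarith
    · exact_mod_cast h6
  have h7 : Real.log p ≤ Real.log (max X 1) := Real.log_le_log hp0 (h5.le.trans (le_max_left _ _))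
  linarith

lemma Rate.lam_nonneg (hT : Rate κ T lam) (hκ : 0 < κ) (s : Fin r) : 0 ≤ lam s :=
  ge_of_tendsto' (hT.mass s) fun _ =>
    mul_nonneg hκ.le (Finset.sum_nonneg fun p _ => lw_nonneg p)

lemma Rate.mass_bound (hT : Rate κ T lam) (hκ : 0 < κ) :
    ∃ B : ℝ, 0 < B ∧ ∀ᶠ n in atTop, ∑ p ∈ UU (T n), Real.log p / (p : ℝ) ≤ B := by
  have h0 : 0 ≤ ∑ s, lam s := Finset.sum_nonneg fun s _ => hT.lam_nonneg hκ s
  refine ⟨((∑ s, lam s) + 1) / κ, by positivity, ?_⟩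
  have h2 : Tendsto (fun n => ∑ s, κ * ∑ p ∈ T n s, Real.log p / (p : ℝ)) atTop
      (𝓝 (∑ s, lam s)) := tendsto_finsetSum _ fun s _ => hT.mass s
  filter_upwards [h2.eventually_lt_const (lt_add_one _)] with n hn
  rw [le_div_iff₀ hκ]
  refine le_trans (le_of_eq ?_) hn.le
  unfold UU
  rw [Finset.sum_biUnion (fun s _ s' _ hss => hT.pw n hss), Finset.sum_mul]
  exact Finset.sum_congr rfl fun s _ => mul_comm _ _

/-- the covariances of the blocks -/
theorem block_cov {χ : ℕ → ℕ → ℝ} (hS : Sys α κ χ) (hκ : 0 < κ) (hT : Rate κ T lam)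
    {θ : Fin r → ℝ} (hθ : ∀ s, 0 ≤ θ s ∧ θ s ≤ 1) {u v : ℝ} (hu : 0 < u) (huv : u < v) :
    ∃ c K : ℝ, 0 < c ∧ 0 ≤ K ∧ ∀ i j, i < j →
    |∫ x in u..v, (Phi α χ (wt (T i) θ) (UU (T i)) x - ef κ (wt (T i) θ) (UU (T i))) *
      (Phi α χ (wt (T j) θ) (UU (T j)) x - ef κ (wt (T j) θ) (UU (T j)))| ≤
      K * ((i : ℝ) + 1) ^ (-c) := by
  classical
  obtain ⟨c, C, hc, hC, hrate⟩ := hT.rate
  obtain ⟨κ1, hκ1, hcov⟩ := hS.cov
  obtain ⟨C1, hC1, P, hP⟩ := hcov u v hu huv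
  obtain ⟨D, hD, hD'⟩ := err_rate hκ1
  obtain ⟨B, hB, hB'⟩ := hT.mass_bound hκ
  obtain ⟨n0, hn0⟩ := ((hT.large (max P (2 / κ1))).and hB').exists_forall_of_atTop
  have hvu : 0 < v - u := sub_pos.2 huv
  refine ⟨c, 3 * C1 * (2 * B * C + 2 * B * (D * (2 * C))) + (v - u) * ((n0 : ℝ) + 1) ^ c, hc,
    by positivity, fun i j hij => ?_⟩
  have hwi := wt_mem (hT.pw i) hθ
  have hwj := wt_mem (hT.pw j) hθ
  have hi0 : (0 : ℝ) < (i : ℝ) + 1 := by positivity
  have hai : 0 < ((i : ℝ) + 1) ^ (-c) := Real.rpow_pos_of_pos hi0 _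
  have hZ0 : 0 ≤ 3 * C1 * (2 * B * C + 2 * B * (D * (2 * C))) := by positivity
  rcases lt_or_ge i n0 with hi | hi
  · have h1 : |∫ x in u..v, (Phi α χ (wt (T i) θ) (UU (T i)) x - ef κ (wt (T i) θ) (UU (T i))) *
        (Phi α χ (wt (T j) θ) (UU (T j)) x - ef κ (wt (T j) θ) (UU (T j)))| ≤ 1 * |v - u| := by
      rw [← Real.norm_eq_abs]
      refine intervalIntegral.norm_integral_le_of_norm_le_const fun x _ => ?_
      rw [Real.norm_eq_abs, abs_mul]
      have a1 := (hS.phiU hwi (UU (T i))).n x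
      have a2 := (hS.phiU hwi (UU (T i))).o x
      have a3 := ef_mem hκ.le hwi (UU (T i))
      have b1 := (hS.phiU hwj (UU (T j))).n x
      have b2 := (hS.phiU hwj (UU (T j))).o x
      have b3 := ef_mem hκ.le hwj (UU (T j))
      refine mul_le_one₀ ?_ (abs_nonneg _) ?_
      · rw [abs_le]; constructor <;> linarith [a3.1, a3.2]
      · rw [abs_le]; constructor <;> linarith [b3.1, b3.2]
    refine h1.trans ?_
    rw [one_mul, abs_of_pos hvu]
    have h2 : 1 ≤ ((n0 : ℝ) + 1) ^ c * ((i : ℝ) + 1) ^ (-c) := by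
      rw [Real.rpow_neg hi0.le, ← div_eq_mul_inv, le_div_iff₀ (Real.rpow_pos_of_pos hi0 _), one_mul]
      refine Real.rpow_le_rpow hi0.le ?_ hc.le
      have : (i : ℝ) ≤ n0 := by exact_mod_cast hi.le
      linarith
    rw [add_mul]
    have h3 : v - u ≤ (v - u) * ((n0 : ℝ) + 1) ^ c * ((i : ℝ) + 1) ^ (-c) := by
      rw [mul_assoc]
      exact le_mul_of_one_le_right hvu.le h2
    have h4 := mul_nonneg hZ0 hai.le
    linarith
  · obtain ⟨g1, g2⟩ := hn0 i hi
    obtain ⟨g3, g4⟩ := hn0 j (by omega)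
    obtain ⟨r1, r2⟩ := hrate i
    obtain ⟨r3, r4⟩ := hrate j
    have hji : ((j : ℝ) + 1) ^ (-c) ≤ ((i : ℝ) + 1) ^ (-c) := by
      apply Real.rpow_le_rpow_of_nonpos hi0 _ (by linarith)
      have : (i : ℝ) ≤ j := by exact_mod_cast hij.le
      linarith
    have hij' : ((i : ℝ) + 1) ^ c ≤ ((j : ℝ) + 1) ^ c := by
      apply Real.rpow_le_rpow hi0.le _ hc.le
      have : (i : ℝ) ≤ j := by exact_mod_cast hij.le
      linarith
    set U := UU (T i) ∪ UU (T j) with hU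
    have hcv := hP (UU (T i)) (UU (T j)) (hT.uu hij.ne) (fun p hp => by
      have h1 : (P : ℝ) ≤ p := by
        rcases mem_union.1 hp with h | h
        · exact (le_max_left _ _).trans (g1 p h)
        · exact (le_max_left _ _).trans (g3 p h)
      exact_mod_cast h1) (wt (T i) θ) (wt (T j) θ) hwi hwj
    have hsp : ∀ f : ℕ → Prop, ∀ _ : DecidablePred f, ∑ p ∈ U.filter f, Real.log p / (p : ℝ) ≤
        ∑ p ∈ (UU (T i)).filter f, Real.log p / (p : ℝ) +
        ∑ p ∈ (UU (T j)).filter f, Real.log p / (p : ℝ) := by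
      intro f _
      rw [hU, Finset.filter_union, ← Finset.sum_union_inter]
      have : 0 ≤ ∑ p ∈ (UU (T i)).filter f ∩ (UU (T j)).filter f, Real.log p / (p : ℝ) :=
        Finset.sum_nonneg fun p _ => lw_nonneg p
      linarith
    have herr := hD' U (((i : ℝ) + 1) ^ c / C) (2 * C * ((i : ℝ) + 1) ^ (-c)) (2 * B)
      (by positivity) (fun q hq => by
        rcases mem_union.1 hq with h | h
        · refine ⟨?_, (le_max_right _ _).trans (g1 q h)⟩
          rw [div_le_iff₀ hC]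
          linarith [r1 q h]
        · refine ⟨?_, (le_max_right _ _).trans (g3 q h)⟩
          rw [div_le_iff₀ hC]
          linarith [r3 q h]) (fun x => by
        have h1 := hsp (fun p => x < p ∧ p ≤ 2 * x) inferInstance
        have h2 := r2 x
        have h3 := r4 x
        have h4 : C * ((j : ℝ) + 1) ^ (-c) ≤ C * ((i : ℝ) + 1) ^ (-c) :=
          mul_le_mul_of_nonneg_left hji hC.le
        linarith) (by
        have h1 := hsp (fun _ => True) inferInstance
        simp only [Finset.filter_true] at h1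
        linarith)
    have e1 : 2 * B / (((i : ℝ) + 1) ^ c / C) = 2 * B * C * ((i : ℝ) + 1) ^ (-c) := by
      rw [Real.rpow_neg hi0.le]
      have : 0 < ((i : ℝ) + 1) ^ c := Real.rpow_pos_of_pos hi0 _
      field_simp
    rw [e1] at herr
    refine hcv.trans ?_
    have h5 : 0 ≤ (v - u) * ((n0 : ℝ) + 1) ^ c * ((i : ℝ) + 1) ^ (-c) := by positivity
    have h6 : 3 * C1 * err κ1 U ≤ 3 * C1 * (2 * B * C * ((i : ℝ) + 1) ^ (-c) +
        2 * B * (D * (2 * C * ((i : ℝ) + 1) ^ (-c)))) :=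
      mul_le_mul_of_nonneg_left herr (by positivity)
    refine h6.trans ?_
    rw [add_mul]
    refine le_trans (le_of_eq ?_) (le_add_of_nonneg_right h5)
    ring

/-- the empirical generating functions -/
theorem quench_theta {Q : ℕ → ℕ → Prop} (hS : Sys α κ (chi Q)) (hκ : 0 < κ) (hT : Rate κ T lam)
    {θ : Fin r → ℝ} (hθ : ∀ s, 0 ≤ θ s ∧ θ s ≤ 1) {u v : ℝ} (hu : 0 < u) (huv : u < v) :
    ∀ᵐ x ∂(volume.restrict (Set.Ioc u v)), Tendsto
      (fun M : ℕ => (∑ n ∈ range M, ∏ s, θ s ^ cnt Q α (T n s) x) / (M : ℝ)) atTop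
      (𝓝 (∏ s, Real.exp (-(lam s * (1 - θ s))))) := by
  classical
  obtain ⟨c, K, hc, hK, hcov⟩ := block_cov hS hκ hT hθ hu huv
  have hl : Tendsto (fun n => ef κ (wt (T n) θ) (UU (T n))) atTop
      (𝓝 (∏ s, Real.exp (-(lam s * (1 - θ s))))) := by
    have hsum : Tendsto (fun n => ∑ q ∈ UU (T n), wt (T n) θ q * (κ * lw q)) atTop
        (𝓝 (∑ s, (1 - θ s) * lam s)) := by
      have h2 : Tendsto (fun n => ∑ s, (1 - θ s) * (κ * ∑ p ∈ T n s, Real.log p / (p : ℝ))) atTop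
          (𝓝 (∑ s, (1 - θ s) * lam s)) := tendsto_finsetSum _ fun s _ => (hT.mass s).const_mul _
      refine h2.congr fun n => ?_
      rw [wt_sum (hT.pw n)]
    have e : ∏ s, Real.exp (-(lam s * (1 - θ s))) = Real.exp (-(∑ s, (1 - θ s) * lam s)) := by
      rw [← Real.exp_sum, Finset.sum_neg_distrib]
      congr 2
      exact Finset.sum_congr rfl fun s _ => mul_comm _ _
    rw [e]
    exact (Real.continuous_exp.tendsto _).comp hsum.neg
  have h1 := slln (F := fun n x => Phi α (chi Q) (wt (T n) θ) (UU (T n)) x)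
    (e := fun n => ef κ (wt (T n) θ) (UU (T n))) huv.le
    (fun n => hS.phiU (wt_mem (hT.pw n) hθ) (UU (T n)))
    (fun n => ef_mem hκ.le (wt_mem (hT.pw n) hθ) (UU (T n))) hK hc hl hcov
  filter_upwards [h1] with x hx
  refine hx.congr fun M => ?_
  congr 1
  refine Finset.sum_congr rfl fun n _ => ?_
  exact Phi_theta (hT.pw n) Q α θ x

/-- the floors of slightly perturbed powers -/
theorem ae_floor {ρ : ℝ} (ha : 1 < α) (hρ0 : 0 ≤ ρ) (hρ1 : ρ < 1) {u v : ℝ} (hu : 0 < u)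
    (huv : u < v) : ∀ᵐ x ∂(volume.restrict (Set.Ioc u v)), ∀ M : ℝ, ∀ᶠ p : ℕ in atTop,
      ∀ e : ℝ, |e| ≤ M * ρ ^ p → ⌊x * α ^ p + e⌋₊ = ⌊x * α ^ p⌋₊ := by
  have hα0 : 0 < α := zero_lt_one.trans ha
  have hvu : 0 < v - u + 5 := by linarith
  have h1 : ∀ K : ℕ, ∀ᵐ x : ℝ, ∀ᶠ p : ℕ in atTop, x ∉ near (α ^ p) (K * ρ ^ p) u v := by
    intro K
    apply ae_eventually_notMem
    have h2 : ∀ p : ℕ, volume (near (α ^ p) (K * ρ ^ p) u v) ≤
        ENNReal.ofReal (2 * (v - u + 5) * K * ρ ^ p) := by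
      intro p
      have hp0 : 0 < α ^ p := by positivity
      have hp1 : 1 ≤ α ^ p := one_le_pow₀ ha.le
      refine (near_vol hp0 (by positivity) huv.le).trans (ENNReal.ofReal_le_ofReal ?_)
      calc ((v - u) * α ^ p + 5) * (2 * (K * ρ ^ p) / α ^ p) ≤
          ((v - u + 5) * α ^ p) * (2 * (K * ρ ^ p) / α ^ p) := by
            refine mul_le_mul_of_nonneg_right ?_ (by positivity)
            nlinarith
        _ = 2 * (v - u + 5) * K * ρ ^ p := by field_simp
    refine ne_top_of_le_ne_top ?_ (ENNReal.tsum_le_tsum h2)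
    rw [← ENNReal.ofReal_tsum_of_nonneg (fun p => by positivity)
      ((summable_geometric_of_lt_one hρ0 hρ1).mul_left _)]
    exact ENNReal.ofReal_ne_top
  have h2 : ∀ᵐ x : ℝ, ∀ K : ℕ, ∀ᶠ p : ℕ in atTop, x ∉ near (α ^ p) (K * ρ ^ p) u v :=
    ae_all_iff.2 h1
  filter_upwards [ae_restrict_of_ae h2, ae_restrict_mem measurableSet_Ioc] with x hx hxI M
  obtain ⟨K, hK⟩ := exists_nat_ge M
  have h3 : Tendsto (fun p : ℕ => (K : ℝ) * ρ ^ p) atTop (𝓝 0) := by
    have := (tendsto_pow_atTop_nhds_zero_of_lt_one hρ0 hρ1).const_mul (K : ℝ)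
    simpa using this
  filter_upwards [hx K, h3.eventually_le_const one_pos] with p hp1 hp2 e he
  by_contra hne
  have hpos : 0 ≤ x * α ^ p := by
    have : 0 < x := hu.trans hxI.1
    positivity
  obtain ⟨N, hN⟩ := floor_near (e := K * ρ ^ p) hpos (by
    rw [add_sub_cancel_left]
    exact he.trans (mul_le_mul_of_nonneg_right hK (by positivity))) hne
  exact hp1 (mem_near (by positivity) hp2 hxI hN)

/-- the empirical law on an interval -/
theorem quench_int {Q : ℕ → ℕ → Prop} (hS : Sys α κ (chi Q)) (hκ : 0 < κ) (hT : Rate κ T lam)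
    {ρ : ℝ} (hρ1 : |ρ| < 1) {u v : ℝ} (hu : 0 < u) (huv : u < v) :
    ∀ᵐ x ∂(volume.restrict (Set.Ioc u v)), ∀ B : ℝ, ∀ k : Fin r → ℕ, Tendsto
      (fun M : ℕ => (((range M).filter
        (fun n => ∀ s, cntE Q α (fun _ p => B * ρ ^ p) (T n s) x = k s)).card : ℝ) / (M : ℝ)) atTop
      (𝓝 (∏ s, (Real.exp (-lam s) * lam s ^ k s / (k s).factorial))) := by
  classical
  have h1 : ∀ᵐ x ∂(volume.restrict (Set.Ioc u v)), ∀ m : Fin r → ℕ, Tendsto
      (fun M : ℕ => (∑ n ∈ range M, ∏ s, (1 / ((m s : ℝ) + 1)) ^ cnt Q α (T n s) x) / (M : ℝ)) atTop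
      (𝓝 (∏ s, Real.exp (-(lam s * (1 - 1 / ((m s : ℝ) + 1)))))) :=
    ae_all_iff.2 fun m => quench_theta hS hκ hT (θ := fun s => 1 / ((m s : ℝ) + 1)) (fun s =>
      ⟨by positivity, by
        rw [div_le_one (by positivity)]
        linarith [(Nat.cast_nonneg (m s) : (0 : ℝ) ≤ m s)]⟩) hu huv
  have h2 := ae_floor hS.ha (abs_nonneg ρ) hρ1 hu huv
  filter_upwards [h1, h2] with x hx1 hx2 B k
  refine emp_law (fun n s => cntE Q α (fun _ p => B * ρ ^ p) (T n s) x)
    (hT.lam_nonneg hκ) (fun m => ?_) k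
  -- the counts agree eventually
  obtain ⟨P, hP⟩ := (hx2 |B|).exists_forall_of_atTop
  have hag : ∀ᶠ n in atTop, ∀ s, cntE Q α (fun _ p => B * ρ ^ p) (T n s) x = cnt Q α (T n s) x := by
    filter_upwards [hT.large P] with n hn s
    unfold cntE cnt
    congr 1
    refine Finset.filter_congr fun p hp => ?_
    have hpU : p ∈ UU (T n) := by
      unfold UU
      rw [Finset.mem_biUnion]
      exact ⟨s, mem_univ s, hp⟩
    have hpP : P ≤ p := by exact_mod_cast hn p hpU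
    have := hP p hpP (B * ρ ^ p) (by rw [abs_mul, abs_pow])
    rw [this]
  have h3 : Tendsto (fun n => (∏ s, (1 / ((m s : ℝ) + 1)) ^
      cntE Q α (fun _ p => B * ρ ^ p) (T n s) x) -
      ∏ s, (1 / ((m s : ℝ) + 1)) ^ cnt Q α (T n s) x) atTop (𝓝 0) := by
    refine tendsto_const_nhds.congr' ?_
    filter_upwards [hag] with n hn
    rw [eq_comm, sub_eq_zero]
    exact Finset.prod_congr rfl fun s _ => by rw [hn s]
  have h4 := (cesaro_div h3).add (hx1 m)
  rw [zero_add] at h4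
  refine h4.congr fun M => ?_
  rw [← add_div, ← Finset.sum_add_distrib]
  congr 1
  exact Finset.sum_congr rfl fun n _ => by ring

/-- the empirical law for almost every number -/
theorem quench {Q : ℕ → ℕ → Prop} (hS : Sys α κ (chi Q)) (hκ : 0 < κ) (hT : Rate κ T lam)
    {ρ : ℝ} (hρ1 : |ρ| < 1) : ∀ᵐ x : ℝ, 0 < x → ∀ B : ℝ, ∀ k : Fin r → ℕ, Tendsto
      (fun M : ℕ => (((range M).filter
        (fun n => ∀ s, cntE Q α (fun _ p => B * ρ ^ p) (T n s) x = k s)).card : ℝ) / (M : ℝ)) atTop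
      (𝓝 (∏ s, (Real.exp (-lam s) * lam s ^ k s / (k s).factorial))) := by
  have h1 : ∀ j : ℕ, ∀ᵐ x : ℝ, x ∈ Set.Ioc (1 / ((j : ℝ) + 1)) ((j : ℝ) + 2) → ∀ B : ℝ,
      ∀ k : Fin r → ℕ, Tendsto
      (fun M : ℕ => (((range M).filter
        (fun n => ∀ s, cntE Q α (fun _ p => B * ρ ^ p) (T n s) x = k s)).card : ℝ) / (M : ℝ)) atTop
      (𝓝 (∏ s, (Real.exp (-lam s) * lam s ^ k s / (k s).factorial))) := by
    intro j
    have hj : (0 : ℝ) ≤ j := Nat.cast_nonneg j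
    refine (ae_restrict_iff' measurableSet_Ioc).1 (quench_int hS hκ hT hρ1 (by positivity) ?_)
    have : 1 / ((j : ℝ) + 1) ≤ 1 := by
      rw [div_le_one (by positivity)]
      linarith
    linarith
  filter_upwards [ae_all_iff.2 h1] with x hx hx0
  obtain ⟨j1, hj1⟩ := exists_nat_one_div_lt hx0
  obtain ⟨j2, hj2⟩ := exists_nat_ge x
  refine hx (max j1 j2) ⟨?_, ?_⟩
  · refine lt_of_le_of_lt ?_ hj1
    apply one_div_le_one_div_of_le (by positivity)
    have : (j1 : ℝ) ≤ ((max j1 j2 : ℕ) : ℝ) := by exact_mod_cast le_max_left _ _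
    linarith
  · have : (j2 : ℝ) ≤ ((max j1 j2 : ℕ) : ℝ) := by exact_mod_cast le_max_right _ _
    linarith

end Run7.h93.GP
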