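import Mathlib
import Pool.Agent.H447R2.ML.Spec
import Pool.Agent.N176.GW.All
import Pool.Agent.Run7.h93.GP.Pc
import Pool.Agent.Run7.h93.GP.Zero

set_option autoImplicit false

/-!
# Primes in the real solutions of the Fibonacci recurrence: the Poisson law for thin sets of indices

The real solutions of `T (n + 2) = T (n + 1) + T n` are the sequences
`T β B n = β φ ^ n + B ψ ^ n` with `φ = (1 + √5) / 2`, `ψ = (1 - √5) / 2`; the Fibonacci numbers are
the solution with `β = 1 / √5`, `B = -1 / √5`, the Lucas numbers the one with `β = B = 1`.  For an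
index `p` let `W β B p` be the `p`-rough part (the product, with multiplicity, of the prime factors
larger than `p`) of `⌊T β B p⌋`.  For the Fibonacci and the Lucas numbers this is the number with the
index `p` itself, for all primes `p > 5`.

According to the Poisson model behind the conjecture the number of the indices `p` in a set `S` with
`W β B p` prime is distributed like a Poisson variable with the expectation `κ * ∑ p ∈ S, log p / p`,
`κ = e ^ γ / log φ`, and these numbers are independent for disjoint sets.  We prove this as a limit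
theorem, for a random leading coefficient `β` (uniform in an arbitrary interval) and a coefficient `B`
which may depend on `β` in any bounded way, for all sequences of families of disjoint finite sets of
indices whose union is thin: the weight `∑ log p / p` of its part in `(x, 2 x]` tends to zero uniformly
in `x`; for example every `m_n`-th prime in a window, `m_n → ∞`.

Against the law for the repunits (`MP_adea1b_nt/PoissonLaw.lean`, helper854), whose plan we follow,
there is no condition on the pairs `p`, `p + h` of indices: in an integer base the numbers of two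
close levels have a common rough part with positive probability, and the law fails for sets with many
such pairs; here the golden base has the right bound for all pairs
(`Pool.Agent.N176.GW.All.kt`, a starting theorem), and the law holds for all thin sets.

Proof.  Let `q` be the largest element of the union.  By the starting theorem on primes in almost all
short intervals (`Pool.Agent.N176.GW.All.fm`) the event of `q` has the probability `κ * log q / q`
independently of the integer part of `β φ ^ z`, `z = c q`, up to an error `O (1 / q)`; the events of the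
indices below `c q / 2` are functions of this integer part up to a small probability; the indices between
`c q / 2` and `q` contribute little by upper bounds for pairs of indices: for `q ≤ 2 (p - 1)` by the sieve
bound of the starting library for several indices, for larger `q` by the upper bound in short intervals
of `Pool/Agent/Run7/h854/PO/Up.lean`.  This gives the Laplace functional of a Poisson process
(`Pool/Agent/Run7/h93/GP`, an abstract form for real bases), and the law follows by the continuity
theorem for generating functions.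

Authors: helper93 (real base, assembly), after helper854 (integer bases); the starting libraries
N176/GW and N176/OW and their authors (see `GoldenWindows.lean`).
-/

namespace Run7.h93.GP.GoldenLaw

open Filter Topology MeasureTheory

/-- The Lucas numbers. -/
def L : ℕ → ℕ
  | 0 => 2
  | 1 => 1
  | (n + 2) => L (n + 1) + L n

/-- The golden ratio. -/
noncomputable def φ : ℝ := (1 + Real.sqrt 5) / 2

/-- The conjugate of the golden ratio. -/
noncomputable def ψ : ℝ := (1 - Real.sqrt 5) / 2

/-- The real solutions of the Fibonacci recurrence. -/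
noncomputable def T (β B : ℝ) (n : ℕ) : ℝ := β * φ ^ n + B * ψ ^ n

/-- The product, with multiplicity, of the prime factors of `m` that are larger than `p`. -/
def roughPart (p m : ℕ) : ℕ := (m.primeFactorsList.filter (fun r => p < r)).prod

/-- The `p`-rough part of `⌊T β B p⌋`. -/
noncomputable def W (β B : ℝ) (p : ℕ) : ℕ := roughPart p ⌊T β B p⌋₊

/-- The number of the elements `p` of `S` for which `W β B p` is prime. -/
noncomputable def N (β B : ℝ) (S : Finset ℕ) : ℕ := (S.filter (fun p => (W β B p).Prime)).card

/-- The weight of a finite set. -/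
noncomputable def V (S : Finset ℕ) : ℝ := ∑ p ∈ S, Real.log p / p

/-- The union of a finite family of finite sets. -/
def U {r : ℕ} (A : Fin r → Finset ℕ) : Finset ℕ := Finset.univ.biUnion A

/-- The constant `e ^ γ / log φ`. -/
noncomputable def κ : ℝ := Real.exp Real.eulerMascheroniConstant / Real.log φ

/-- The families `A n` consist of disjoint finite sets; the elements of the union of `A n` tend to
infinity with `n`, and the union is thin: its weight in the intervals `(x, 2 x]` tends to zero uniformly
in `x`. -/
structure Thin {r : ℕ} (A : ℕ → Fin r → Finset ℕ) : Prop where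
  disjoint : ∀ n s s', s ≠ s' → Disjoint (A n s) (A n s')
  large : ∀ M : ℕ, ∀ᶠ n in atTop, ∀ p ∈ U (A n), M < p
  thin : ∀ δ : ℝ, 0 < δ → ∀ᶠ n in atTop, ∀ x : ℕ, V ((U (A n)).filter (fun p => x < p ∧ p ≤ 2 * x)) ≤ δ

lemma sqrt5_sq : Real.sqrt 5 ^ 2 = 5 := Real.sq_sqrt (by norm_num)

lemma sqrt5_pos : 0 < Real.sqrt 5 := Real.sqrt_pos.2 (by norm_num)

lemma one_lt_phi : 1 < φ := by
  unfold φ
  nlinarith [sqrt5_sq, sqrt5_pos]

lemma phi_add : φ + ψ = ((1 : ℤ) : ℝ) := by unfold φ ψ; push_cast; ring

lemma phi_mul : φ * ψ = -1 := by unfold φ ψ; nlinarith [sqrt5_sq]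

lemma phi_sq : φ ^ 2 = φ + 1 := by unfold φ; nlinarith [sqrt5_sq]

lemma psi_sq : ψ ^ 2 = ψ + 1 := by unfold ψ; nlinarith [sqrt5_sq]

lemma T_rec (β B : ℝ) (n : ℕ) : T β B (n + 2) = T β B (n + 1) + T β B n := by
  unfold T
  rw [pow_add φ n 2, pow_add ψ n 2, phi_sq, psi_sq]
  ring

lemma T_zero (β B : ℝ) : T β B 0 = β + B := by unfold T; ring

lemma T_one (β B : ℝ) : T β B 1 = β * φ + B * ψ := by unfold T; ring

/-- the Fibonacci numbers -/
lemma T_fib (n : ℕ) : T (1 / Real.sqrt 5) (-(1 / Real.sqrt 5)) n = (Nat.fib n : ℝ) := by
  induction n using Nat.twoStepInduction with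
  | zero => rw [T_zero]; simp
  | one =>
    rw [T_one]
    have := sqrt5_pos.ne'
    unfold φ ψ
    rw [Nat.fib_one]
    field_simp
    push_cast
    ring
  | more n h1 h2 =>
    rw [T_rec, h1, h2, Nat.fib_add_two]
    push_cast
    ring

/-- the Lucas numbers -/
lemma T_luc (n : ℕ) : T 1 1 n = (L n : ℝ) := by
  induction n using Nat.twoStepInduction with
  | zero => rw [T_zero]; norm_num [L]
  | one =>
    rw [T_one, one_mul, one_mul, phi_add]
    norm_num [L]
  | more n h1 h2 =>
    rw [T_rec, h1, h2]
    show _ = ((L (n + 1) + L n : ℕ) : ℝ)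
    push_cast
    ring

lemma fib_eq (n : ℕ) : Pool.Agent.H447R2.ML.U 1 n = Nat.fib n := by
  induction n using Nat.twoStepInduction with
  | zero => rfl
  | one => rfl
  | more n h1 h2 =>
    rw [Pool.Agent.H447R2.ML.U_add_two, h1, h2, Nat.fib_add_two]
    ring

lemma luc_eq (n : ℕ) : Pool.Agent.H447R2.ML.V 1 n = L n := by
  induction n using Nat.twoStepInduction with
  | zero => rfl
  | one => rfl
  | more n h1 h2 =>
    show _ = L (n + 1) + L n
    rw [Pool.Agent.H447R2.ML.V_add_two, h1, h2]
    ring

/-- The Fibonacci numbers. -/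
lemma W_fib {p : ℕ} (hp : p.Prime) (h5 : 5 < p) :
    W (1 / Real.sqrt 5) (-(1 / Real.sqrt 5)) p = Nat.fib p := by
  have hd : ¬ p ∣ 1 ^ 2 + 4 := by
    intro h
    have := Nat.le_of_dvd (by norm_num) h
    omega
  have h := Pool.Agent.H447R2.ML.rough_U 1 one_pos hp (by omega) hd
    (x := T (1 / Real.sqrt 5) (-(1 / Real.sqrt 5)) p) (by rw [T_fib, fib_eq])
  rw [fib_eq] at h
  exact h

/-- The Lucas numbers. -/
lemma W_luc {p : ℕ} (hp : p.Prime) (h5 : 5 < p) : W 1 1 p = L p := by
  have hd : ¬ p ∣ 1 := fun h => hp.one_lt.ne' (Nat.dvd_one.1 h)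
  have h : Pool.Agent.H305R2.roughPart p ⌊T 1 1 p⌋₊ = L p := by
    rw [T_luc, Nat.floor_natCast]
    refine Pool.Agent.H447R2.ML.roughPart_eq_self ?_ fun q hq h => ?_
    · rw [← luc_eq]
      exact (Pool.Agent.H447R2.ML.V_pos 1 p one_pos).ne'
    · rw [← luc_eq] at h
      exact Pool.Agent.H447R2.ML.lt_of_dvd_V 1 hp (by omega) hd hq
        (fun h' => hq.one_lt.ne' (Nat.dvd_one.1 h')) h
  exact h

lemma psi_abs : |ψ| < 1 := by
  have h1 := sqrt5_sq
  have h2 := sqrt5_pos
  unfold ψ
  rw [abs_lt]
  constructor <;> nlinarith

lemma kappa_pos : 0 < κ := div_pos (Real.exp_pos _) (Real.log_pos one_lt_phi)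

/-- The special values; the joint Poisson law for the numbers of indices in thin families of disjoint
sets. -/
theorem golden_law :
    (∀ p : ℕ, p.Prime → 5 < p →
      W (1 / Real.sqrt 5) (-(1 / Real.sqrt 5)) p = Nat.fib p ∧ W 1 1 p = L p) ∧
    (∀ (r : ℕ) (A : ℕ → Fin r → Finset ℕ) (lam : Fin r → ℝ), Thin A →
      (∀ s, Tendsto (fun n => κ * V (A n s)) atTop (𝓝 (lam s))) →
      ∀ u v : ℝ, 0 ≤ u → u < v → ∀ B : ℝ → ℝ, (∃ M : ℝ, ∀ β, |B β| ≤ M) → ∀ k : Fin r → ℕ,
      Tendsto (fun n => volume {β : ℝ | u < β ∧ β ≤ v ∧ ∀ s, N β (B β) (A n s) = k s}) atTop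
        (𝓝 (ENNReal.ofReal
          ((v - u) * ∏ s, (Real.exp (-lam s) * lam s ^ k s / (k s).factorial))))) := by
  refine ⟨fun p hp h5 => ⟨W_fib hp h5, W_luc hp h5⟩, ?_⟩
  intro r A lam hA hlam u v hu huv B hB k
  obtain ⟨M, hM⟩ := hB
  have hM0 : 0 ≤ M := (abs_nonneg _).trans (hM 0)
  have hsys := Run7.h93.GP.sys Real.one_lt_goldenRatio Pool.Agent.N176.GW.All.fm
    Pool.Agent.N176.GW.All.kt Pool.Agent.N176.GW.All.rb
  have hA' : Run7.h93.GP.Thin (Pool.Agent.N176.GW.kr Real.goldenRatio) A lam :=
    { disj := fun n s s' h => hA.disjoint n s s' h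
      min := hA.large
      thin := hA.thin
      mass := hlam }
  have h := Run7.h93.GP.poisson_zero hsys kappa_pos hA' (fun β p => B β * ψ ^ p) hM0 (abs_nonneg ψ)
    psi_abs (fun β p => by
      rw [abs_mul, abs_pow]
      exact mul_le_mul_of_nonneg_right (hM β) (pow_nonneg (abs_nonneg _) _)) hu huv k
  refine h.congr fun n => ?_
  congr 1
  ext β
  have eN : ∀ S : Finset ℕ, Run7.h93.GP.cntE Run7.h93.GP.QQ Real.goldenRatio
      (fun β p => B β * ψ ^ p) S β = N β (B β) S := by
    classical
    intro S
    unfold Run7.h93.GP.cntE N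
    congr 1
    ext p
    rw [Finset.mem_filter, Finset.mem_filter]
    exact Iff.rfl
  simp only [Set.mem_setOf_eq, eN, and_assoc]

end Run7.h93.GP.GoldenLaw
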